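import Pool.Agent.MP_057cde_lc.zf.Seq

/-! The Cantor space of the model. -/

namespace Pool.Agent.MP_057cde_lc.TZ

open Function
open scoped Classical

/-- the reals of the model -/
abbrev Ca (M : Type) [Mdl M] : Type := Fn M (N M) Bool

variable {M : Type} [Mdl M]
variable {X : Type} [Srt M X]

/-- `x` and `y` have the same first `k` bits -/
def Ag (k : N M) (x y : Ca M) : Prop := ∀ i < k, x i = y i

@[fun_prop]
theorem DfF.ag {k : X → N M} {x y : X → Ca M} (hk : DfF M k) (hx : DfF M x) (hy : DfF M y) :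
    DfF M fun a => Ag (k a) (x a) (y a) := by
  simp only [Ag, imp_iff, all_iff]; fun_prop

section

variable {k l : N M} {x y z : Ca M}

theorem Ag.refl (k : N M) (x : Ca M) : Ag k x x := fun _ _ => rfl

theorem Ag.symm (h : Ag k x y) : Ag k y x := fun i hi => (h i hi).symm

theorem Ag.trans (h : Ag k x y) (h' : Ag k y z) : Ag k x z := fun i hi => (h i hi).trans (h' i hi)

theorem Ag.mono (h : Ag k x y) (hl : l ≤ k) : Ag l x y := fun i hi => h i (hi.trans_le hl)

theorem ag_zero (x y : Ca M) : Ag 0 x y := fun _ hi => absurd hi zero_le.not_gt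

theorem ag_succ : Ag (k + 1) x y ↔ Ag k x y ∧ x k = y k :=
  ⟨fun h => ⟨h.mono k.lt_succ.le, h k k.lt_succ⟩, fun h i hi =>
    (N.lt_succ_iff.1 hi).lt_or_eq.elim (h.1 i) fun e => e ▸ h.2⟩

theorem eq_of_ag (h : ∀ k, Ag k x y) : x = y := Fn.ext fun i => h (i + 1) i i.lt_succ

end

/-- code of the first `k` bits -/
noncomputable def code (x : Ca M) (k : N M) : N M := N.cseq (fun j => cond (x j) 1 0) k

@[fun_prop]
theorem DfF.code {x : X → Ca M} {k : X → N M} (hx : DfF M x) (hk : DfF M k) :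
    DfF M fun a => code (x a) (k a) := by
  unfold TZ.code; fun_prop

theorem code_eq {x y : Ca M} {k l : N M} : code x k = code y l ↔ k = l ∧ Ag k x y := by
  have := x.df
  have := y.df
  have e : (1 : N M) ≠ 0 := by simpa using N.succ_ne_zero (0 : N M)
  rw [code, code, N.cseq_eq (by fun_prop) (by fun_prop)]
  refine and_congr_right fun _ => forall₂_congr fun i _ => ?_
  cases x i <;> cases y i <;> simp [e, e.symm]

theorem code_bound (k : N M) : ∃ B, ∀ x : Ca M, code x k < B := by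
  refine N.ind (P := fun k => ∃ B, ∀ x : Ca M, code x k < B)
    (by simp only [all_iff]; fun_prop) ⟨0 + 1, fun x => ?_⟩ ?_ k
  · rw [code, N.cseq_zero]; exact N.lt_succ 0
  · rintro k ⟨B, hB⟩
    refine ⟨N.pair B 1 + 1 + 1, fun x => ?_⟩
    have := x.df
    rw [code, N.cseq_succ (by fun_prop), N.lt_succ_iff]
    refine add_le_add_left (N.pair_mono (hB x).le ?_) 1
    cases x k <;> simp

/-- change one bit -/
noncomputable def upd (x : Ca M) (k : N M) (b : Bool) : Ca M :=
  ⟨fun i => if i = k then b else x i, by have := x.df; fun_prop⟩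

theorem upd_self (x : Ca M) (k : N M) (b : Bool) : upd x k b k = b := if_pos rfl

theorem upd_ne (x : Ca M) {k i : N M} (b : Bool) (h : i ≠ k) : upd x k b i = x i := if_neg h

theorem ag_upd (x : Ca M) (k : N M) (b : Bool) : Ag k x (upd x k b) :=
  fun _ hi => (upd_ne x b hi.ne).symm

/-- a map into the reals is definable if its bits are -/
theorem DfF.of_ap {Y Z : Type} [Srt M Y] [Srt M Z] [Sm M Y] [Sm M Z] {f : X → Fn M Y Z}
    (h : DfF M fun p : X × Y => f p.1 p.2) : DfF M f :=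
  DfF.of_rel (P := fun a G => All fun y => f a y = G y) (by fun_prop) fun _ _ => Fn.ext_iff

@[fun_prop]
theorem DfF.upd {x : X → Ca M} {k : X → N M} {b : X → Bool} (hx : DfF M x) (hk : DfF M k)
    (hb : DfF M b) : DfF M fun a => upd (x a) (k a) (b a) :=
  DfF.of_ap (by dsimp only [TZ.upd]; fun_prop)

/-- even part -/
noncomputable def ev (x : Ca M) : Ca M := ⟨fun n => x (n + n), by have := x.df; fun_prop⟩

/-- odd part -/
noncomputable def od (x : Ca M) : Ca M := ⟨fun n => x (n + n + 1), by have := x.df; fun_prop⟩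

/-- `a` on the even, `b` on the odd positions -/
noncomputable def join (a b : Ca M) : Ca M :=
  ⟨fun m => decide (∃ k, (m = k + k ∧ a k = true) ∨ (m = k + k + 1 ∧ b k = true)),
    by have := a.df; have := b.df; fun_prop⟩

/-- column `c` -/
noncomputable def col (x : Ca M) (c : N M) : Ca M :=
  ⟨fun n => x (N.pair c n), by have := x.df; fun_prop⟩

theorem ev_ap (x : Ca M) (n : N M) : ev x n = x (n + n) := rfl

theorem od_ap (x : Ca M) (n : N M) : od x n = x (n + n + 1) := rfl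

theorem col_ap (x : Ca M) (c n : N M) : col x c n = x (N.pair c n) := rfl

@[fun_prop] theorem DfF.ev {x : X → Ca M} (hx : DfF M x) : DfF M fun a => ev (x a) :=
  DfF.of_ap (by simp only [ev_ap]; fun_prop)

@[fun_prop] theorem DfF.od {x : X → Ca M} (hx : DfF M x) : DfF M fun a => od (x a) :=
  DfF.of_ap (by simp only [od_ap]; fun_prop)

@[fun_prop] theorem DfF.join {x y : X → Ca M} (hx : DfF M x) (hy : DfF M y) :
    DfF M fun a => join (x a) (y a) :=
  DfF.of_ap (by dsimp only [TZ.join]; fun_prop)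

@[fun_prop] theorem DfF.col {x : X → Ca M} {c : X → N M} (hx : DfF M x) (hc : DfF M c) :
    DfF M fun a => col (x a) (c a) :=
  DfF.of_ap (by simp only [col_ap]; fun_prop)

theorem join_even (a b : Ca M) (n : N M) : join a b (n + n) = a n := by
  refine Bool.eq_iff_iff.2 (decide_eq_true_iff.trans ⟨?_, fun h => ⟨n, Or.inl ⟨rfl, h⟩⟩⟩)
  rintro ⟨k, ⟨h, h'⟩ | ⟨h, -⟩⟩
  · exact N.even_inj h ▸ h'
  · exact absurd h (N.even_ne_odd _ _)

theorem join_odd (a b : Ca M) (n : N M) : join a b (n + n + 1) = b n := by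
  refine Bool.eq_iff_iff.2 (decide_eq_true_iff.trans ⟨?_, fun h => ⟨n, Or.inr ⟨rfl, h⟩⟩⟩)
  rintro ⟨k, ⟨h, -⟩ | ⟨h, h'⟩⟩
  · exact absurd h.symm (N.even_ne_odd _ _)
  · exact N.even_inj (add_right_cancel h) ▸ h'

@[simp] theorem ev_join (a b : Ca M) : ev (join a b) = a := Fn.ext (join_even a b)

@[simp] theorem od_join (a b : Ca M) : od (join a b) = b := Fn.ext (join_odd a b)

theorem join_ev_od (x : Ca M) : join (ev x) (od x) = x := Fn.ext fun m => by
  obtain ⟨k, rfl | rfl⟩ := m.even_or_odd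
  · exact join_even _ _ k
  · exact join_odd _ _ k

theorem Ag.ev {k : N M} {x y : Ca M} (h : Ag (k + k) x y) : Ag k (ev x) (ev y) :=
  fun i hi => h _ (add_lt_add hi hi)

theorem Ag.od {k : N M} {x y : Ca M} (h : Ag (k + k) x y) : Ag k (od x) (od y) :=
  fun i hi => h _ (by have := N.succ_le_iff.2 hi; grind)

theorem Ag.join {k : N M} {a a' b b' : Ca M} (h : Ag k a a') (h' : Ag k b b') :
    Ag k (join a b) (join a' b') := fun m hm => by
  obtain ⟨i, rfl | rfl⟩ := m.even_or_odd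
  · rw [join_even, join_even, h i (le_self_add.trans_lt hm)]
  · rw [join_odd, join_odd, h' i ((le_self_add.trans le_self_add).trans_lt hm)]

theorem Ag.of_ev_od {k : N M} {x y : Ca M} (h : Ag k (TZ.ev x) (TZ.ev y))
    (h' : Ag k (TZ.od x) (TZ.od y)) : Ag k x y := by
  simpa only [join_ev_od] using h.join h'

/-- the limit of a sequence of longer and longer initial segments -/
theorem exists_limit {f : N M → Ca M} {l : N M → N M} (hf : DfF M f) (hl : DfF M l)
    (h1 : ∀ n, l n < l (n + 1)) (h2 : ∀ n, Ag (l n) (f n) (f (n + 1))) :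
    ∃ x, ∀ n, n ≤ l n ∧ Ag (l n) (f n) x := by
  have h3 : ∀ n, n ≤ l n := N.ind (by fun_prop) zero_le fun n ih =>
    N.succ_le_iff.2 (ih.trans_lt (h1 n))
  have h4 := chain (f := fun n => (l n, f n)) (by fun_prop)
    (R := fun p q => p.1 ≤ q.1 ∧ Ag p.1 p.2 q.2) (by fun_prop) (fun p => ⟨le_rfl, Ag.refl _ _⟩)
    (fun _ _ _ a b => ⟨a.1.trans b.1, a.2.trans (b.2.mono a.1)⟩) fun n => ⟨(h1 n).le, h2 n⟩
  refine ⟨⟨fun i => f (i + 1) i, by fun_prop⟩, fun n => ⟨h3 n, fun i hi => ?_⟩⟩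
  rcases le_total n (i + 1) with h | h
  · exact (h4 _ _ h).2 i hi
  · exact ((h4 _ _ h).2 i (i.lt_succ.trans_le (h3 _))).symm

/-- Koenig's lemma -/
theorem konig {P : Ca M → N M → Prop} (hP : DfF M fun p : Ca M × N M => P p.1 p.2)
    (hs : ∀ x k, P x k → ∃ b, P (upd x k b) (k + 1)) {x₀ : Ca M} (h0 : P x₀ 0) :
    ∃ x, ∀ k, ∃ y, Ag k y x ∧ P y k := by
  obtain ⟨f, -, hf⟩ := dc (M := M) (Q := fun n x => P x n) (R := fun n x y => Ag n x y)
    (by fun_prop) (by fun_prop)
    (fun n x h => (hs x n h).elim fun b hb => ⟨_, hb, ag_upd x n b⟩) h0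
  obtain ⟨x, hx⟩ := exists_limit (l := fun n => n) f.df DfF.id N.lt_succ fun n => (hf n).2
  exact ⟨x, fun k => ⟨f k, (hx k).2, (hf k).1⟩⟩

/-- compactness: a decreasing sequence of nonempty sets has a cluster point -/
theorem cluster {F : N M → Ca M → Prop} (hF : DfF M fun p : N M × Ca M => F p.1 p.2)
    (hm : ∀ n x, F (n + 1) x → F n x) (hne : ∀ n, ∃ x, F n x) :
    ∃ x, ∀ n k, ∃ y, F n y ∧ Ag k x y := by
  have h1 : ∀ m n, m ≤ n → ∀ x, F n x → F m x := fun m =>
    N.le_ind (P := fun n => ∀ x, F n x → F m x) (by simp only [imp_iff, all_iff]; fun_prop)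
      (fun _ h => h) fun n _ ih x h => ih x (hm n x h)
  obtain ⟨x, hx⟩ := konig (P := fun x k => ∀ n, ∃ y, F n y ∧ Ag k x y)
    (by simp only [all_iff]; fun_prop) (x₀ := Classical.arbitrary _) (fun x k h => by
      by_contra hc
      push Not at hc
      obtain ⟨m, h2⟩ := hc true
      obtain ⟨n, h3⟩ := hc false
      obtain ⟨y, a1, a2⟩ := h (max m n)
      have key : ∀ b, y k = b → Ag (k + 1) (upd x k b) y := fun b e =>
        ag_succ.2 ⟨(ag_upd x k b).symm.trans a2, by rw [upd_self, e]⟩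
      cases e : y k
      · exact h3 y (h1 _ _ (le_max_right _ _) y a1) (key _ e)
      · exact h2 y (h1 _ _ (le_max_left _ _) y a1) (key _ e))
    fun n => (hne n).imp fun y h => ⟨h, ag_zero _ _⟩
  refine ⟨x, fun n k => ?_⟩
  obtain ⟨z, a1, a2⟩ := hx k
  obtain ⟨y, b1, b2⟩ := a2 n
  exact ⟨y, b1, a1.symm.trans b2⟩

/-- compactness, as an induction principle for properties of initial segments -/
theorem bar_ind {P : Ca M → N M → Prop} (hP : DfF M fun p : Ca M × N M => P p.1 p.2)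
    (hs : ∀ x k, (∀ b, P (upd x k b) (k + 1)) → P x k)
    (h : ∀ x, ∃ k, ∀ y, Ag k y x → P y k) (x₀ : Ca M) : P x₀ 0 := by
  by_contra hc
  obtain ⟨x, hx⟩ := konig (P := fun x k => ¬ P x k) (by fun_prop)
    (fun x k a => not_forall.1 fun b => a (hs x k b)) hc
  obtain ⟨k, hk⟩ := h x
  obtain ⟨y, a1, a2⟩ := hx k
  exact a2 (hk y a1)

/-- definable and uniformly continuous -/
structure Cont (f : Ca M → Ca M) : Prop where
  df : DfF M f
  uc : ∀ n, ∃ k, ∀ x y, Ag k x y → Ag n (f x) (f y)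

theorem Cont.of_bit {f : Ca M → Ca M} (hf : DfF M f)
    (h : ∀ n, ∃ k, ∀ x y, Ag k x y → f x n = f y n) : Cont f := by
  refine ⟨hf, fun n => ?_⟩
  obtain ⟨k, hk⟩ := N.exists_bound (P := fun i k => ∀ x y, Ag k x y → f x i = f y i)
    (by simp only [imp_iff, all_iff]; fun_prop) (fun _ _ _ a b x y c => b x y (c.mono a)) n
    fun i _ => h i
  exact ⟨k, fun x y a i hi => hk i hi x y a⟩

theorem Cont.id : Cont fun x : Ca M => x := ⟨DfF.id, fun n => ⟨n, fun _ _ h => h⟩⟩

theorem Cont.comp {f g : Ca M → Ca M} (hf : Cont f) (hg : Cont g) : Cont fun x => f (g x) :=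
  ⟨hf.df.comp hg.df, fun n =>
    let ⟨k, hk⟩ := hf.uc n
    let ⟨l, hl⟩ := hg.uc k
    ⟨l, fun _ _ h => hk _ _ (hl _ _ h)⟩⟩

theorem Cont.const (a : Ca M) : Cont fun _ : Ca M => a :=
  ⟨by fun_prop, fun n => ⟨n, fun _ _ _ => Ag.refl _ _⟩⟩

theorem Cont.ev {f : Ca M → Ca M} (hf : Cont f) : Cont fun x => ev (f x) :=
  Cont.comp (f := TZ.ev) ⟨DfF.ev DfF.id, fun n => ⟨n + n, fun _ _ h => h.ev⟩⟩ hf

theorem Cont.od {f : Ca M → Ca M} (hf : Cont f) : Cont fun x => od (f x) :=
  Cont.comp (f := TZ.od) ⟨DfF.od DfF.id, fun n => ⟨n + n, fun _ _ h => h.od⟩⟩ hf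

theorem Cont.join {f g : Ca M → Ca M} (hf : Cont f) (hg : Cont g) :
    Cont fun x => join (f x) (g x) :=
  ⟨hf.df.join hg.df, fun n =>
    let ⟨k, hk⟩ := hf.uc n
    let ⟨l, hl⟩ := hg.uc n
    ⟨max k l, fun _ _ h =>
      (hk _ _ (h.mono (le_max_left _ _))).join (hl _ _ (h.mono (le_max_right _ _)))⟩⟩

theorem Cont.col {f : Ca M → Ca M} (hf : Cont f) (c : N M) : Cont fun x => col (f x) c :=
  Cont.comp (f := fun x => TZ.col x c) (Cont.of_bit (by fun_prop) fun n =>
    ⟨N.pair c n + 1, fun _ _ h => h _ (N.lt_succ _)⟩) hf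

/-- the range of a continuous map is closed -/
theorem Cont.closed_range {f : Ca M → Ca M} (hf : Cont f) {y : Ca M}
    (h : ∀ n, ∃ x, Ag n (f x) y) : ∃ x, f x = y := by
  have := hf.df
  obtain ⟨x, hx⟩ := cluster (F := fun n x => Ag n (f x) y) (by fun_prop)
    (fun n _ a => a.mono n.lt_succ.le) h
  refine ⟨x, eq_of_ag fun n => ?_⟩
  obtain ⟨k, hk⟩ := hf.uc n
  obtain ⟨z, a1, a2⟩ := hx n k
  exact (hk _ _ a2).trans a1

/-- a continuous injection into a basic neighbourhood -/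
theorem exists_inj_box (u : Ca M) (k : N M) :
    ∃ r : Ca M → Ca M, Cont r ∧ Injective r ∧ ∀ x, Ag k u (r x) := by
  have := u.df
  let r : Ca M → Ca M := fun x =>
    ⟨fun p => if p < k then u p else x (N.unpair p).1, by have := x.df; fun_prop⟩
  have e : ∀ x p, r x p = if p < k then u p else x (N.unpair p).1 := fun _ _ => rfl
  refine ⟨r, ⟨DfF.of_ap (by simp only [e]; fun_prop), fun n => ⟨n, fun x y h p hp => ?_⟩⟩,
    fun x y h => Fn.ext fun i => ?_, fun x p hp => by rw [e, if_pos hp]⟩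
  · rw [e, e, h _ ((N.unpair_le p).1.trans_lt hp)]
  · have := congrArg (fun z : Ca M => z (N.pair i k)) h
    simpa only [e, (N.right_le_pair i k).not_gt, if_false, N.unpair_pair] using this

end Pool.Agent.MP_057cde_lc.TZ
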