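import Pool.Agent.MP_057cde_lc.zf.Defs

/-! Definability with parameters over a model of ZF + DC. -/

open FirstOrder

namespace Pool.Agent.MP_057cde_lc.TZ

/-- A model of ZF + DC with its omega. -/
class Mdl (M : Type) where
  mem : M → M → Prop
  zf : ZF mem
  om : M
  hom : Omega mem om
  dc : DC mem om

variable {M : Type} [Mdl M]

/-- membership -/
abbrev E (x y : M) : Prop := Mdl.mem x y

/-- Put a new value in front of an assignment. -/
def cons (x : M) (v : ℕ → M) : ℕ → M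
  | 0 => x
  | n + 1 => v n

omit [Mdl M] in
@[simp] theorem cons_zero (x : M) (v : ℕ → M) : cons x v 0 = x := rfl
omit [Mdl M] in
@[simp] theorem cons_succ (x : M) (v : ℕ → M) (n : ℕ) : cons x v (n + 1) = v n := rfl

/-- Definable with parameters. -/
def DP (M : Type) [Mdl M] (S : (ℕ → M) → Prop) : Prop :=
  @Set.Definable M Set.univ Language.graph (str E) ℕ {v | S v}

theorem DP.congr {S S' : (ℕ → M) → Prop} (h : DP M S) (e : ∀ v, S' v ↔ S v) : DP M S' := by
  have : S' = S := funext fun v => propext (e v)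
  rwa [this]

theorem DP.not {S : (ℕ → M) → Prop} (h : DP M S) : DP M (fun v => ¬ S v) :=
  @Set.Definable.compl M _ _ (str E) _ _ h

theorem DP.and {S S' : (ℕ → M) → Prop} (h : DP M S) (h' : DP M S') :
    DP M (fun v => S v ∧ S' v) :=
  @Set.Definable.inter M _ _ (str E) _ _ _ h h'

theorem DP.ren {S : (ℕ → M) → Prop} (h : DP M S) (f : ℕ → ℕ) : DP M (fun v => S (v ∘ f)) :=
  @Set.Definable.preimage_comp M _ _ (str E) _ _ f _ h

theorem DP.ex {S : (ℕ → M) → Prop} (h : DP M S) : DP M (fun v => ∃ x, S (cons x v)) := by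
  let := str (E : M → M → Prop)
  have h1 := Set.Definable.exists_of_finite (β := Unit) (Set.Definable.preimage_comp
    (fun n : ℕ => (Nat.casesOn n (Sum.inr ()) Sum.inl : ℕ ⊕ Unit)) h)
  refine DP.congr h1 fun v => ?_
  have e : ∀ u : Unit → M, (Sum.elim v u ∘ fun n : ℕ =>
      (Nat.casesOn n (Sum.inr ()) Sum.inl : ℕ ⊕ Unit)) = cons (u ()) v := fun u => by
    funext n; cases n <;> rfl
  constructor
  · rintro ⟨x, hx⟩
    exact ⟨fun _ => x, by simpa only [Set.mem_preimage, e, Set.mem_ofPred_eq] using hx⟩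
  · rintro ⟨u, hu⟩
    exact ⟨u (), by simpa only [Set.mem_preimage, e, Set.mem_ofPred_eq] using hu⟩

theorem DP.all {S : (ℕ → M) → Prop} (h : DP M S) : DP M (fun v => ∀ x, S (cons x v)) :=
  h.not.ex.not.congr fun v => by simp

theorem DP.or {S S' : (ℕ → M) → Prop} (h : DP M S) (h' : DP M S') :
    DP M (fun v => S v ∨ S' v) :=
  (h.not.and h'.not).not.congr fun v => by tauto

theorem DP.iff {S S' : (ℕ → M) → Prop} (h : DP M S) (h' : DP M S') :
    DP M (fun v => S v ↔ S' v) :=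
  ((h.and h').or (h.not.and h'.not)).congr fun v => by tauto

theorem DP.const (i : ℕ) (a : M) : DP M (fun v => v i = a) := by
  let := str (E : M → M → Prop)
  exact ⟨(Language.Term.var i).equal
    (Language.graph.con (⟨a, trivial⟩ : (Set.univ : Set M))).term, rfl⟩

theorem DP.eq (i j : ℕ) : DP M (fun v => v i = v j) := by
  let := str (E : M → M → Prop)
  exact ⟨(Language.Term.var i).equal (Language.Term.var j), rfl⟩

theorem DP.mem (i j : ℕ) : DP M (fun v => E (v i) (v j)) := by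
  let := str (E : M → M → Prop)
  refine Set.Definable.mono (A := ∅) ?_ (Set.empty_subset _)
  rw [Set.empty_definable_iff]
  refine ⟨Language.adj.formula₂ (Language.Term.var i) (Language.Term.var j), ?_⟩
  ext v
  simp only [Set.mem_ofPred_eq, Language.Formula.realize_rel₂]
  rfl

theorem DP.top : DP M (fun _ => True) := (DP.eq 0 0).congr fun _ => by simp

theorem DP.sep {P : M → Prop} (h : DP M (fun v => P (v 0))) (a : M) :
    ∃ b, ∀ z, E z b ↔ E z a ∧ P z :=
  Mdl.zf.sep {z | P z}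
    (@Set.Definable.preimage_comp M _ _ (str E) _ _ (fun _ : ℕ => (0 : Fin 1)) _ h) a

theorem ext' {x y : M} (h : ∀ z, E z x ↔ E z y) : x = y :=
  Mdl.zf.ext x y (fun z => (h z).1) fun z => (h z).2

theorem mem_irrefl (x : M) : ¬ E x x := by
  intro h
  obtain ⟨y, hy⟩ := Mdl.zf.pair x x
  obtain ⟨z, h1, h2⟩ := Mdl.zf.found y x ((hy x).2 (Or.inl rfl))
  obtain rfl : z = x := by simpa using (hy z).1 h1
  exact h2 z h h1

/-- the empty set -/
noncomputable def emp (M : Type) [Mdl M] : M := (Mdl.hom (M := M)).1.1.choose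

theorem not_mem_emp (z : M) : ¬ E z (emp M) := (Mdl.hom (M := M)).1.1.choose_spec.2 z

theorem emp_mem_om : E (emp M) Mdl.om := (Mdl.hom (M := M)).1.1.choose_spec.1

theorem zero_iff {z : M} : Emp E z ↔ z = emp M :=
  ⟨fun h => ext' fun t => ⟨fun a => (h t a).elim, fun a => (not_mem_emp t a).elim⟩,
    fun h => h ▸ not_mem_emp⟩

/-- unordered pair -/
noncomputable def upr (a b : M) : M := (Mdl.zf.pair a b).choose

theorem mem_upr {a b t : M} : E t (upr a b) ↔ t = a ∨ t = b := (Mdl.zf.pair a b).choose_spec t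

theorem eq_upr {a b z : M} : (∀ t, E t z ↔ t = a ∨ t = b) ↔ z = upr a b :=
  ⟨fun h => ext' fun t => (h t).trans mem_upr.symm, fun h _ => h ▸ mem_upr⟩

/-- ordered pair -/
noncomputable def pr (a b : M) : M := upr (upr a a) (upr a b)

theorem pr_iff {a b p : M} : Pr E a b p ↔ p = pr a b := by
  have e : ∀ z : M, (∀ t, E t z ↔ t = a) ↔ z = upr a a := fun z => by
    rw [← eq_upr]; simp
  simp only [Pr, e, eq_upr]
  rfl

theorem upr_eq {a b c d : M} (h : upr a b = upr c d) : (a = c ∨ a = d) ∧ (b = c ∨ b = d) :=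
  ⟨mem_upr.1 (h ▸ mem_upr.2 (Or.inl rfl)), mem_upr.1 (h ▸ mem_upr.2 (Or.inr rfl))⟩

theorem pr_inj {a b c d : M} : pr a b = pr c d ↔ a = c ∧ b = d := by
  refine ⟨fun h => ?_, fun h => by rw [h.1, h.2]⟩
  have h1 := upr_eq h
  have h2 := upr_eq h.symm
  have e : a = c := by
    rcases h1.1 with k | k
    · simpa using (upr_eq k).1
    · simpa [eq_comm] using (upr_eq k.symm).1
  subst e
  refine ⟨rfl, ?_⟩
  rcases h1.2 with k | k
  · obtain rfl : b = a := by simpa using (upr_eq k).2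
    rcases h2.2 with k' | k' <;> simpa [eq_comm] using (upr_eq k').2
  · rcases (upr_eq k).2 with rfl | k'
    · simpa [eq_comm] using (upr_eq k.symm).2
    · exact k'

theorem app_iff {f a b : M} : App E f a b ↔ E (pr a b) f := by
  simp [App, pr_iff]

theorem exists_union (x y : M) : ∃ u, ∀ z, E z u ↔ E z x ∨ E z y := by
  obtain ⟨u, hu⟩ := Mdl.zf.union (upr x y)
  refine ⟨u, fun z => (hu z).trans ⟨?_, ?_⟩⟩
  · rintro ⟨b, h1, h2⟩
    rcases mem_upr.1 h2 with rfl | rfl
    · exact Or.inl h1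
    · exact Or.inr h1
  · rintro (h | h)
    · exact ⟨x, h, mem_upr.2 (Or.inl rfl)⟩
    · exact ⟨y, h, mem_upr.2 (Or.inr rfl)⟩

theorem exists_power (x : M) : ∃ y, ∀ z, E z y ↔ ∀ t, E t z → E t x := Mdl.zf.power x

theorem DP.upr (i j k : ℕ) : DP M (fun v => v i = upr (v j) (v k)) :=
  ((DP.mem 0 (i + 1)).iff ((DP.eq 0 (j + 1)).or (DP.eq 0 (k + 1)))).all.congr fun _ => eq_upr.symm

theorem DP.pair (i j k : ℕ) : DP M (fun v => v i = pr (v j) (v k)) := by
  refine ((DP.upr 1 (j + 2) (j + 2)).and ((DP.upr 0 (j + 2) (k + 2)).and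
    (DP.upr (i + 2) 1 0))).ex.ex.congr fun v => ?_
  simp only [cons_zero, cons_succ]
  exact ⟨fun h => ⟨_, _, rfl, rfl, h⟩, fun ⟨a, b, h1, h2, h⟩ => by rw [h, h1, h2]; rfl⟩

end Pool.Agent.MP_057cde_lc.TZ
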