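import Mathlib.ModelTheory.Graph

/-!
ZF, DC, Turing determinacy and the perfect set property read inside an arbitrary structure
`(M, E)`, where `E a b` means `a ∈ b`.  Reals are subsets of omega.
-/

open FirstOrder

namespace Pool.Agent.MP_057cde_lc.TZ

variable {M : Type} (E : M → M → Prop)

/-- `(M, E)` as a first-order structure for the language with one binary relation -/
@[reducible] def str : Language.graph.Structure M where
  RelMap | .adj => fun v => E (v 0) (v 1)

/-- `x ⊆ y` -/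
def Incl (x y : M) : Prop := ∀ z, E z x → E z y

/-- `x = ∅` -/
def Emp (x : M) : Prop := ∀ z, ¬ E z x

/-- `y = x ∪ {x}` -/
def Suc (x y : M) : Prop := ∀ z, E z y ↔ E z x ∨ z = x

/-- `w` is inductive -/
def Ind (w : M) : Prop := (∃ e, E e w ∧ Emp E e) ∧ ∀ x, E x w → ∃ y, E y w ∧ Suc E x y

/-- `w = ω` -/
def Omega (w : M) : Prop := Ind E w ∧ ∀ v, Ind E v → Incl E w v

/-- `p` is the ordered pair `{{a}, {a, b}}` -/
def Pr (a b p : M) : Prop :=
  ∀ z, E z p ↔ (∀ t, E t z ↔ t = a) ∨ (∀ t, E t z ↔ t = a ∨ t = b)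

/-- `(a, b) ∈ f` -/
def App (f a b : M) : Prop := ∃ p, E p f ∧ Pr E a b p

/-- `f` is a function from `x` to `y` -/
def Func (f x y : M) : Prop :=
  (∀ p, E p f → ∃ a b, E a x ∧ E b y ∧ Pr E a b p) ∧ ∀ a, E a x → ∃! b, App E f a b

/-- `(M, E)` is a model of ZF; the two schemes range over all first-order definitions with
parameters. -/
structure ZF : Prop where
  ext : ∀ x y, Incl E x y → Incl E y x → x = y
  found : ∀ x a, E a x → ∃ y, E y x ∧ ∀ z, E z y → ¬ E z x
  pair : ∀ a b, ∃ y, ∀ t, E t y ↔ t = a ∨ t = b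
  union : ∀ x, ∃ y, ∀ a, E a y ↔ ∃ b, E a b ∧ E b x
  power : ∀ x, ∃ y, ∀ z, E z y ↔ Incl E z x
  inf : ∃ w, Ind E w
  sep : ∀ P : Set M, @Set.Definable₁ M Set.univ Language.graph (str E) P →
    ∀ x, ∃ y, ∀ z, E z y ↔ E z x ∧ z ∈ P
  repl : ∀ R : Set (M × M), @Set.Definable₂ M Set.univ Language.graph (str E) R →
    ∀ x, (∀ a, E a x → ∃! b, (a, b) ∈ R) → ∃ y, ∀ b, E b y ↔ ∃ a, E a x ∧ (a, b) ∈ R

variable (w : M)

/-- dependent choice (`w` is `ω`) -/
def DC : Prop :=
  ∀ X R, (∃ a, E a X) → (∀ a, E a X → ∃ b, E b X ∧ App E R a b) →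
    ∃ f, Func E f w X ∧
      ∀ n n' a b, Suc E n n' → App E f n a → App E f n' b → App E R a b

/-- the register contents `r'` arise from `r` by writing `v` into register `m` -/
def Upd (r m v r' : M) : Prop :=
  App E r' m v ∧ ∀ j u, j ≠ m → (App E r' j u ↔ App E r j u)

/-- One step `(i, r) ↦ (i', r')` of a register machine with oracle `y`.  Instruction `i` looks at
register `m = A i`, with content `v`, and has jump address `q = Q i`.  If `i ∈ I` it adds one.
Else, if `i ∈ D`, it jumps if `v = 0` and subtracts one otherwise.  Else it jumps if `v ∈ y`. -/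
def Step (y I D A Q i r i' r' : M) : Prop :=
  ∃ m q v, App E A i m ∧ App E Q i q ∧ App E r m v ∧
    ((E i I ∧ Suc E i i' ∧ ∃ u, Suc E v u ∧ Upd E r m u r') ∨
     (¬ E i I ∧ E i D ∧
        ((Emp E v ∧ i' = q ∧ r' = r) ∨ (Suc E i i' ∧ ∃ u, Suc E u v ∧ Upd E r m u r'))) ∨
     (¬ E i I ∧ ¬ E i D ∧ r' = r ∧ ((E v y ∧ i' = q) ∨ (¬ E v y ∧ Suc E i i'))))

/-- The program `(l, I, D, A, Q)` with instructions `i ∈ l` and oracle `y`, started at instruction
`0` with `n` in register `0` and `0` in the other registers, halts after `T` steps with `v` in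
register `0`; `c t` is the instruction number and `s t` the register contents at time `t`. -/
def Run (y l I D A Q n v : M) : Prop :=
  ∃ T c s F, E T w ∧ Func E c w w ∧ Func E s w F ∧ (∀ r, E r F → Func E r w w) ∧
    (∀ z i r, Emp E z → App E c z i → App E s z r →
      i = z ∧ App E r z n ∧ ∀ j, E j w → j ≠ z → App E r j z) ∧
    (∀ t t' i r i' r', E t T → Suc E t t' → App E c t i → App E s t r → App E c t' i' →
      App E s t' r' → E i l ∧ Step E y I D A Q i r i' r') ∧
    ∀ z i r, Emp E z → App E c T i → App E s T r → ¬ E i l ∧ App E r z v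

/-- `x ≤_T y` -/
def LeT (x y : M) : Prop :=
  ∃ l I D A Q, E l w ∧ Func E A l w ∧ Func E Q l w ∧
    ∀ n, E n w → ∃ v, Run E w y l I D A Q n v ∧ (E n x ↔ ¬ Emp E v)

/-- `B` is Turing invariant -/
def Invar (B : M) : Prop := ∀ x y, E x B → Incl E y w → LeT E w x y → LeT E w y x → E y B

/-- `n` is even -/
def Ev (n : M) : Prop :=
  ∀ S, (∀ z, Emp E z → E z S) → (∀ k k' k'', E k S → Suc E k k' → Suc E k' k'' → E k'' S) → E n S

/-- bit `n` of `a` is the move of the strategy `σ`, a set of positions `(n, a ∩ n)` -/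
def Obeys (σ a n : M) : Prop := ∀ s, (∀ z, E z s ↔ E z a ∧ E z n) → (E n a ↔ App E σ n s)

/-- the Gale-Stewart game with payoff set `B` is determined -/
def Det (B : M) : Prop :=
  (∃ σ, ∀ a, Incl E a w → (∀ n, E n w → Ev E n → Obeys E σ a n) → E a B) ∨
  (∃ τ, ∀ a, Incl E a w → (∀ n, E n w → ¬ Ev E n → Obeys E τ a n) → ¬ E a B)

/-- Turing determinacy -/
def TD : Prop := ∀ B, (∀ x, E x B → Incl E x w) → Invar E w B → Det E w B

/-- `A` is countable -/
def Ctbl (A : M) : Prop := ∃ f, Func E f A w ∧ ∀ a b n, App E f a n → App E f b n → a = b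

/-- `x` and `y` have the same first `n` bits -/
def Agree (n x y : M) : Prop := ∀ i, E i n → (E i x ↔ E i y)

/-- the set of reals `P` is nonempty, closed and has no isolated point -/
def Perf (P : M) : Prop :=
  (∃ x, E x P) ∧ (∀ x, Incl E x w → (∀ n, E n w → ∃ y, E y P ∧ Agree E n x y) → E x P) ∧
    ∀ x n, E x P → E n w → ∃ y, E y P ∧ y ≠ x ∧ Agree E n x y

end Pool.Agent.MP_057cde_lc.TZ
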