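import Pool.Agent.MP_057cde_lc.zf.DP

/-! Sorts coded in the model and definable maps between them. -/

namespace Pool.Agent.MP_057cde_lc.TZ

open Function
open scoped Classical

/-- A type whose elements are coded by the elements of a definable class of `M`. -/
class Srt (M : Type) [Mdl M] (X : Type) where
  code : X → M
  inj : Injective code
  dom : DP M (fun v => ∃ x, v 0 = code x)

variable {M : Type} [Mdl M]

def cd (M : Type) [Mdl M] {X : Type} [Srt M X] (x : X) : M := Srt.code x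

section

variable {X Y Z : Type} [Srt M X] [Srt M Y] [Srt M Z]

theorem cd_inj {x y : X} : cd M x = cd M y ↔ x = y := Srt.inj.eq_iff

theorem dom_at (X : Type) [Srt M X] (i : ℕ) : DP M (fun v => ∃ x : X, v i = cd M x) :=
  (Srt.dom (M := M) (X := X)).ren (fun _ => i)

def Gr (M : Type) [Mdl M] {X Y : Type} [Srt M X] [Srt M Y] (f : X → Y) (a b : M) : Prop :=
  ∃ x, a = cd M x ∧ b = cd M (f x)

/-- Definable maps. -/
@[fun_prop]
def DfF (M : Type) [Mdl M] {X Y : Type} [Srt M X] [Srt M Y] (f : X → Y) : Prop :=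
  DP M (fun v => Gr M f (v 0) (v 1))

/-- Definable predicates. -/
def Df (M : Type) [Mdl M] {X : Type} [Srt M X] (P : X → Prop) : Prop :=
  DP M (fun v => ∃ x, v 0 = cd M x ∧ P x)

theorem DfF.at {f : X → Y} (h : DfF M f) (i j : ℕ) : DP M (fun v => Gr M f (v i) (v j)) :=
  DP.ren h (fun k => if k = 0 then i else j)

theorem Df.at {P : X → Prop} (h : Df M P) (i : ℕ) : DP M (fun v => ∃ x, v i = cd M x ∧ P x) :=
  DP.ren h (fun _ => i)

theorem DfF.congr' {f g : X → Y} (h : DfF M f) (e : ∀ x, g x = f x) : DfF M g := by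
  have : g = f := funext e
  rwa [this]

theorem Df.congr {P Q : X → Prop} (h : Df M P) (e : ∀ x, Q x ↔ P x) : Df M Q := by
  have : Q = P := funext fun x => propext (e x)
  rwa [this]

@[fun_prop]
theorem DfF.comp {f : Y → Z} {g : X → Y} (hf : DfF M f) (hg : DfF M g) :
    DfF M (fun x => f (g x)) := by
  refine ((hg.at 1 0).and (hf.at 0 2)).ex.congr fun v => ?_
  simp only [cons_zero, cons_succ]
  constructor
  · rintro ⟨x, h1, h2⟩
    exact ⟨_, ⟨x, h1, rfl⟩, ⟨g x, rfl, h2⟩⟩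
  · rintro ⟨_, ⟨x, h1, rfl⟩, ⟨y, h2, h3⟩⟩
    obtain rfl := cd_inj.1 h2
    exact ⟨x, h1, h3⟩

@[fun_prop]
theorem DfF.const (c : Y) : DfF M (fun _ : X => c) :=
  ((dom_at X 0).and (DP.const 1 (cd M c))).congr fun v => by simp [Gr]

theorem Df.comp {P : Y → Prop} (hP : Df M P) {f : X → Y} (hf : DfF M f) :
    Df M (fun x => P (f x)) := by
  refine ((hf.at 1 0).and (hP.at 0)).ex.congr fun v => ?_
  simp only [cons_zero, cons_succ]
  constructor
  · rintro ⟨x, h1, h2⟩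
    exact ⟨_, ⟨x, h1, rfl⟩, ⟨f x, rfl, h2⟩⟩
  · rintro ⟨_, ⟨x, h1, rfl⟩, ⟨y, h2, h3⟩⟩
    exact ⟨x, h1, cd_inj.1 h2 ▸ h3⟩

theorem Df.and {P Q : X → Prop} (hP : Df M P) (hQ : Df M Q) : Df M (fun x => P x ∧ Q x) := by
  refine (DP.and hP hQ).congr fun v => ⟨fun ⟨x, h1, h2, h3⟩ => ⟨⟨x, h1, h2⟩, ⟨x, h1, h3⟩⟩, ?_⟩
  rintro ⟨⟨x, h1, h2⟩, ⟨y, h3, h4⟩⟩
  obtain rfl := cd_inj.1 (h1.symm.trans h3)
  exact ⟨x, h1, h2, h4⟩

theorem Df.not {P : X → Prop} (hP : Df M P) : Df M (fun x => ¬ P x) := by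
  refine ((dom_at X 0).and (DP.not hP)).congr fun v => ⟨?_, ?_⟩
  · rintro ⟨x, h1, h2⟩
    refine ⟨⟨x, h1⟩, ?_⟩
    rintro ⟨y, h3, h4⟩
    obtain rfl := cd_inj.1 (h1.symm.trans h3)
    exact h2 h4
  · rintro ⟨⟨x, h1⟩, h2⟩
    exact ⟨x, h1, fun h => h2 ⟨x, h1, h⟩⟩

theorem Df.or {P Q : X → Prop} (hP : Df M P) (hQ : Df M Q) : Df M (fun x => P x ∨ Q x) :=
  (hP.not.and hQ.not).not.congr (fun x => by tauto)

theorem Df.iff {P Q : X → Prop} (hP : Df M P) (hQ : Df M Q) : Df M (fun x => P x ↔ Q x) :=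
  ((hP.and hQ).or (hP.not.and hQ.not)).congr (fun x => by tauto)

theorem DfF.of_cd_eq {c : X → Y} (h : ∀ x, cd M (c x) = cd M x) : DfF M c :=
  ((dom_at X 0).and (DP.eq 1 0)).congr fun v => by
    simp only [Gr, h]
    exact ⟨fun ⟨x, h1, h2⟩ => ⟨⟨x, h1⟩, h2.trans h1.symm⟩,
      fun ⟨⟨x, h1⟩, h2⟩ => ⟨x, h1, h2.trans h1⟩⟩

theorem DfF.of_comp_cd_eq {c : Y → Z} (h : ∀ x, cd M (c x) = cd M x) {f : X → Y}
    (hf : DfF M (fun x => c (f x))) : DfF M f :=
  DP.congr hf fun v => by simp only [Gr, h]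

@[fun_prop]
theorem DfF.id : DfF M (fun x : X => x) := DfF.of_cd_eq fun _ => rfl

theorem Df.eq {f g : X → Y} (hf : DfF M f) (hg : DfF M g) : Df M (fun x => f x = g x) := by
  refine ((hf.at 1 0).and (hg.at 1 0)).ex.congr fun v => ?_
  simp only [cons_zero, cons_succ]
  constructor
  · rintro ⟨x, h1, h2⟩
    exact ⟨_, ⟨x, h1, rfl⟩, ⟨x, h1, h2 ▸ rfl⟩⟩
  · rintro ⟨_, ⟨x, h1, rfl⟩, ⟨y, h2, h3⟩⟩
    obtain rfl := cd_inj.1 (h1.symm.trans h2)
    exact ⟨x, h1, cd_inj.1 h3⟩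

noncomputable instance instSrtProd (X Y : Type) [Srt M X] [Srt M Y] : Srt M (X × Y) where
  code p := pr (cd M p.1) (cd M p.2)
  inj p q h := by
    obtain ⟨h1, h2⟩ := pr_inj.1 h
    exact Prod.ext (cd_inj.1 h1) (cd_inj.1 h2)
  dom := by
    refine ((DP.pair 2 1 0).and ((dom_at X 1).and (dom_at Y 0))).ex.ex.congr fun v => ?_
    simp only [cons_zero, cons_succ]
    constructor
    · rintro ⟨p, hp⟩
      exact ⟨_, _, hp, ⟨_, rfl⟩, ⟨_, rfl⟩⟩
    · rintro ⟨_, _, h, ⟨x, rfl⟩, ⟨y, rfl⟩⟩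
      exact ⟨(x, y), h⟩

theorem cd_prod (p : X × Y) : cd M p = pr (cd M p.1) (cd M p.2) := rfl

@[fun_prop]
theorem DfF.fst {f : X → Y × Z} (hf : DfF M f) : DfF M (fun x => (f x).1) := by
  refine ((hf.at 2 0).and (DP.pair 0 3 1)).ex.ex.congr fun v => ?_
  simp only [cons_zero, cons_succ]
  constructor
  · rintro ⟨x, h1, h2⟩
    exact ⟨cd M (f x).2, cd M (f x), ⟨x, h1, rfl⟩, h2 ▸ rfl⟩
  · rintro ⟨b, _, ⟨x, h1, rfl⟩, h2⟩
    exact ⟨x, h1, (pr_inj.1 h2).1.symm⟩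

@[fun_prop]
theorem DfF.snd {f : X → Y × Z} (hf : DfF M f) : DfF M (fun x => (f x).2) := by
  refine ((hf.at 2 0).and (DP.pair 0 1 3)).ex.ex.congr fun v => ?_
  simp only [cons_zero, cons_succ]
  constructor
  · rintro ⟨x, h1, h2⟩
    exact ⟨cd M (f x).1, cd M (f x), ⟨x, h1, rfl⟩, h2 ▸ rfl⟩
  · rintro ⟨b, _, ⟨x, h1, rfl⟩, h2⟩
    exact ⟨x, h1, (pr_inj.1 h2).2.symm⟩

@[fun_prop]
theorem DfF.mk {f : X → Y} {g : X → Z} (hf : DfF M f) (hg : DfF M g) :
    DfF M (fun x => (f x, g x)) := by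
  refine ((hf.at 2 1).and ((hg.at 2 0).and (DP.pair 3 1 0))).ex.ex.congr fun v => ?_
  simp only [cons_zero, cons_succ]
  constructor
  · rintro ⟨x, h1, h2⟩
    exact ⟨_, _, ⟨x, h1, rfl⟩, ⟨x, h1, rfl⟩, h2⟩
  · rintro ⟨_, _, ⟨x, h1, rfl⟩, ⟨y, h2, rfl⟩, h3⟩
    obtain rfl := cd_inj.1 (h1.symm.trans h2)
    exact ⟨x, h1, h3⟩

theorem Df.ex {P : X → Y → Prop} (h : Df M (fun p : X × Y => P p.1 p.2)) :
    Df M (fun x => ∃ y, P x y) := by
  refine ((DP.pair 0 2 1).and (h.at 0)).ex.ex.congr fun v => ?_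
  simp only [cons_zero, cons_succ]
  constructor
  · rintro ⟨x, h1, y, h2⟩
    exact ⟨cd M y, cd M (x, y), h1 ▸ rfl, ⟨(x, y), rfl, h2⟩⟩
  · rintro ⟨b, _, h1, ⟨p, rfl, h2⟩⟩
    exact ⟨p.1, (pr_inj.1 h1).1.symm, p.2, h2⟩

noncomputable instance instSrtProp : Srt M Prop where
  code p := if p then upr (emp M) (emp M) else emp M
  inj p q h := by
    have h1 : upr (emp M) (emp M) ≠ emp M := fun e =>
      not_mem_emp (emp M) (e.subst (motive := fun t => E (emp M) t) (mem_upr.2 (Or.inl rfl)))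
    have h2 := h1.symm
    by_cases hp : p <;> by_cases hq : q <;> simp_all
  dom := by
    refine ((DP.const 0 (upr (emp M) (emp M))).or (DP.const 0 (emp M))).congr fun v => ?_
    constructor
    · rintro ⟨p, hp⟩
      split_ifs at hp
      · exact Or.inl hp
      · exact Or.inr hp
    · rintro (h | h)
      · exact ⟨True, by simpa using h⟩
      · exact ⟨False, by simpa using h⟩

theorem dfF_iff {P : X → Prop} : DfF M P ↔ Df M P := by
  constructor
  · intro h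
    exact (Df.eq h (DfF.const True)).congr fun x => by simp
  · intro h
    refine (((h.at 0).and (DP.const 1 (cd M True))).or
      ((h.not.at 0).and (DP.const 1 (cd M False)))).congr fun v => ?_
    constructor
    · rintro ⟨x, h1, h2⟩
      by_cases hp : P x
      · exact Or.inl ⟨⟨x, h1, hp⟩, by simpa [hp] using h2⟩
      · exact Or.inr ⟨⟨x, h1, hp⟩, by simpa [hp] using h2⟩
    · rintro (⟨⟨x, h1, hp⟩, h2⟩ | ⟨⟨x, h1, hp⟩, h2⟩)
      · exact ⟨x, h1, by simpa [hp] using h2⟩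
      · exact ⟨x, h1, by simpa [hp] using h2⟩

theorem DfF.congr {P Q : X → Prop} (h : DfF M P) (e : ∀ x, Q x ↔ P x) : DfF M Q :=
  h.congr' fun x => propext (e x)

theorem DfF.of_graph {f : X → Y} (h : DfF M (fun p : X × Y => f p.1 = p.2)) : DfF M f := by
  refine ((DP.pair 0 1 2).and ((dfF_iff.1 h).at 0)).ex.congr fun v => ?_
  simp only [cons_zero, cons_succ]
  constructor
  · rintro ⟨x, h1, h2⟩
    exact ⟨_, h1 ▸ h2 ▸ rfl, (x, f x), rfl, rfl⟩
  · rintro ⟨_, h1, p, rfl, h2⟩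
    exact ⟨p.1, (pr_inj.1 h1).1.symm, h2 ▸ (pr_inj.1 h1).2.symm⟩

theorem DfF.of_rel {f : X → Y} {P : X → Y → Prop} (h : DfF M (fun p : X × Y => P p.1 p.2))
    (e : ∀ x y, f x = y ↔ P x y) : DfF M f :=
  DfF.of_graph (h.congr fun p => e p.1 p.2)

@[fun_prop]
theorem DfF.eq {f g : X → Y} (hf : DfF M f) (hg : DfF M g) : DfF M (fun x => f x = g x) :=
  dfF_iff.2 (Df.eq hf hg)

@[fun_prop]
theorem DfF.and {P Q : X → Prop} (hP : DfF M P) (hQ : DfF M Q) : DfF M (fun x => P x ∧ Q x) :=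
  dfF_iff.2 ((dfF_iff.1 hP).and (dfF_iff.1 hQ))

@[fun_prop]
theorem DfF.or {P Q : X → Prop} (hP : DfF M P) (hQ : DfF M Q) : DfF M (fun x => P x ∨ Q x) :=
  dfF_iff.2 ((dfF_iff.1 hP).or (dfF_iff.1 hQ))

@[fun_prop]
theorem DfF.not {P : X → Prop} (hP : DfF M P) : DfF M (fun x => ¬ P x) :=
  dfF_iff.2 (dfF_iff.1 hP).not

@[fun_prop]
theorem DfF.ne {f g : X → Y} (hf : DfF M f) (hg : DfF M g) : DfF M (fun x => f x ≠ g x) :=
  (hf.eq hg).not

@[fun_prop]
theorem DfF.iff {P Q : X → Prop} (hP : DfF M P) (hQ : DfF M Q) : DfF M (fun x => P x ↔ Q x) :=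
  dfF_iff.2 ((dfF_iff.1 hP).iff (dfF_iff.1 hQ))

@[fun_prop]
theorem DfF.ex {P : X → Y → Prop} (h : DfF M (fun p : X × Y => P p.1 p.2)) :
    DfF M (fun x => ∃ y, P x y) :=
  dfF_iff.2 (Df.ex (dfF_iff.1 h))

/-- Universal quantifier, as a constant. -/
def All {Y : Type} (P : Y → Prop) : Prop := ∀ y, P y

/-- Implication, as a constant. -/
def Imp (P Q : Prop) : Prop := P → Q

theorem imp_iff (P Q : Prop) : (P → Q) ↔ Imp P Q := Iff.rfl
theorem all_iff {Y : Type} (P : Y → Prop) : (∀ y, P y) ↔ All fun y => P y := Iff.rfl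

@[fun_prop]
theorem DfF.all {P : X → Y → Prop} (h : DfF M (fun p : X × Y => P p.1 p.2)) :
    DfF M (fun x => All fun y => P x y) :=
  (DfF.ex (P := fun x y => ¬ P x y) h.not).not.congr (fun x => by simp [All])

@[fun_prop]
theorem DfF.imp {P Q : X → Prop} (hP : DfF M P) (hQ : DfF M Q) :
    DfF M (fun x => Imp (P x) (Q x)) :=
  (hP.not.or hQ).congr (fun x => by unfold Imp; tauto)

@[fun_prop]
theorem DfF.ite {P : X → Prop} {d : ∀ x, Decidable (P x)} {f g : X → Y} (hP : DfF M P)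
    (hf : DfF M f) (hg : DfF M g) : DfF M (fun x => @ite _ (P x) (d x) (f x) (g x)) :=
  DfF.of_rel (P := fun x y => (P x ∧ f x = y) ∨ (¬ P x ∧ g x = y)) (by fun_prop) fun x y => by
    by_cases h : P x <;> simp [h]

/-- finite disjunctions; the index type need not be a sort -/
theorem DfF.ex_fin {ι : Type} [Finite ι] {P : ι → X → Prop} (h : ∀ i, DfF M (P i)) :
    DfF M (fun x => ∃ i, P i x) := by
  have := Fintype.ofFinite ι
  have h1 : ∀ s : Finset ι, DfF M (fun x => ∃ i ∈ s, P i x) := fun s => by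
    induction s using Finset.induction_on with
    | empty => exact (DfF.const False).congr fun x => by simp
    | insert a s _ ih => exact ((h a).or ih).congr fun x => by simp
  exact (h1 Finset.univ).congr fun x => by simp

theorem DfF.all_fin {ι : Type} [Finite ι] {P : ι → X → Prop} (h : ∀ i, DfF M (P i)) :
    DfF M (fun x => ∀ i, P i x) :=
  (DfF.ex_fin fun i => (h i).not).not.congr fun x => by simp

/-- definition by finitely many cases -/
theorem DfF.cases_fin {ι : Type} [Finite ι] {p : X → ι} (hp : ∀ o, DfF M (fun x => p x = o))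
    {g : ι → X → Y} (hg : ∀ o, DfF M (g o)) : DfF M (fun x => g (p x) x) :=
  DfF.of_rel (P := fun x y => ∃ o, p x = o ∧ g o x = y)
    (DfF.ex_fin fun o => ((hp o).comp DfF.id.fst).and (((hg o).comp DfF.id.fst).eq DfF.id.snd))
    fun x y => by simp

/-- a finite family of definable maps is jointly definable -/
theorem DfF.of_fin [Finite Z] {g : Z → X → Y} (hg : ∀ o, DfF M (g o)) :
    DfF M (fun p : X × Z => g p.2 p.1) :=
  DfF.cases_fin (p := fun p : X × Z => p.2) (fun _ => by fun_prop) (g := fun o p => g o p.1)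
    fun o => by have := hg o; fun_prop

end

/-- The home sort. -/
instance instSrtHome : Srt M M where
  code x := x
  inj _ _ h := h
  dom := DP.top.congr fun v => ⟨fun _ => trivial, fun _ => ⟨v 0, rfl⟩⟩

@[simp] theorem cd_home (x : M) : cd M x = x := rfl

section

variable {X Y Z : Type} [Srt M X] [Srt M Y] [Srt M Z]

@[fun_prop]
theorem DfF.cd {f : X → Y} (hf : DfF M f) : DfF M (fun x => cd M (f x)) :=
  (DfF.of_cd_eq (c := (TZ.cd M : Y → M)) fun _ => rfl).comp hf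

/-- Membership. -/
@[fun_prop]
theorem DfF.E {f g : X → M} (hf : DfF M f) (hg : DfF M g) : DfF M (fun x => E (f x) (g x)) := by
  refine dfF_iff.2 (((hf.at 2 1).and ((hg.at 2 0).and (DP.mem 1 0))).ex.ex.congr fun v => ?_)
  simp only [cons_zero, cons_succ]
  constructor
  · rintro ⟨x, h1, h2⟩
    exact ⟨_, _, ⟨x, h1, rfl⟩, ⟨x, h1, rfl⟩, h2⟩
  · rintro ⟨_, _, ⟨x, h1, rfl⟩, ⟨y, h2, rfl⟩, h3⟩
    obtain rfl := cd_inj.1 (h1.symm.trans h2)
    exact ⟨x, h1, h3⟩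

@[fun_prop]
theorem DfF.pr {f g : X → M} (hf : DfF M f) (hg : DfF M g) : DfF M (fun x => pr (f x) (g x)) :=
  (hf.mk hg).cd

/-- A sort from an injection with definable range. -/
@[instance_reducible]
def Srt.ofInj {W : Type} (c : W → Y) (hc : Injective c) (hr : DfF M (fun y => ∃ x, c x = y)) :
    Srt M W where
  code x := cd M (c x)
  inj _ _ h := hc (cd_inj.1 h)
  dom := DP.congr (dfF_iff.1 hr) fun _ =>
    ⟨fun ⟨x, h⟩ => ⟨c x, h, x, rfl⟩, fun ⟨_, h, x, e⟩ => ⟨x, e ▸ h⟩⟩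

/-- Sets coded by an element of `M`. -/
def IsM (M : Type) [Mdl M] {X : Type} [Srt M X] (s : Set X) : Prop :=
  ∃ a, ∀ z, E z a ↔ ∃ x ∈ s, z = cd M x

/-- The sort is coded by a set. -/
class Sm (M : Type) [Mdl M] (X : Type) [Srt M X] : Prop where
  out : IsM M (Set.univ : Set X)

theorem isM_of_subset {P : X → Prop} (hP : DfF M P) {a : M}
    (h : ∀ x, P x → E (cd M x) a) : IsM M {x | P x} := by
  obtain ⟨b, hb⟩ := DP.sep (P := fun z => ∃ x, z = cd M x ∧ P x) (dfF_iff.1 hP) a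
  refine ⟨b, fun z => (hb z).trans ?_⟩
  exact ⟨fun ⟨_, x, h1, h2⟩ => ⟨x, h2, h1⟩, fun ⟨x, h2, h1⟩ => ⟨h1 ▸ h x h2, x, h1, h2⟩⟩

theorem sm_of_subset (a : M) (h : ∀ x : X, E (cd M x) a) : Sm M X :=
  ⟨isM_of_subset (P := fun _ => True) (DfF.const _) fun x _ => h x⟩

/-- The set of codes of a small sort. -/
noncomputable def un (M : Type) [Mdl M] (X : Type) [Srt M X] [S : Sm M X] : M := S.out.choose

theorem mem_un [S : Sm M X] {z : M} : E z (un M X) ↔ ∃ x : X, z = cd M x :=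
  (S.out.choose_spec z).trans (by simp)

theorem isM_of [Sm M X] {P : X → Prop} (hP : DfF M P) : IsM M {x | P x} :=
  isM_of_subset hP fun x _ => mem_un.2 ⟨x, rfl⟩

theorem IsM.df {s : Set X} (h : IsM M s) : DfF M (fun x => x ∈ s) := by
  obtain ⟨a, h⟩ := h
  refine DfF.congr (P := fun x => E (cd M x) a) (by fun_prop) fun x => ?_
  rw [h]
  exact ⟨fun hx => ⟨x, hx, rfl⟩, fun ⟨y, hy, e⟩ => cd_inj.1 e ▸ hy⟩

instance [Sm M X] [Sm M Y] : Sm M (X × Y) := by
  obtain ⟨u, hu⟩ := exists_union (un M X) (un M Y)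
  obtain ⟨a, h⟩ := exists_power u
  obtain ⟨b, h'⟩ := exists_power a
  refine sm_of_subset b fun p => (h' _).2 fun z hz => (h z).2 fun w hw => (hu w).2 ?_
  have h1 : E (cd M p.1) (un M X) := mem_un.2 ⟨_, rfl⟩
  have h2 : E (cd M p.2) (un M Y) := mem_un.2 ⟨_, rfl⟩
  rcases mem_upr.1 hz with rfl | rfl <;> rcases mem_upr.1 hw with rfl | rfl <;> simp [h1, h2]

instance : Sm M Prop := sm_of_subset (upr (upr (emp M) (emp M)) (emp M)) fun p => by
  show E (if p then upr (emp M) (emp M) else emp M) _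
  split_ifs <;> simp [mem_upr]

end

/-- Subsets of a sort that belong to `M`. -/
structure PS (M : Type) [Mdl M] (X : Type) [Srt M X] where
  s : Set X
  isM : IsM M s

section

variable {X Y Z : Type} [Srt M X] [Srt M Y] [Srt M Z]

instance : SetLike (PS M X) X where
  coe := PS.s
  coe_injective := by rintro ⟨a, _⟩ ⟨b, _⟩ h; congr

theorem PS.ext {A B : PS M X} (h : ∀ x, x ∈ A ↔ x ∈ B) : A = B := SetLike.ext h

theorem PS.ext_iff {A B : PS M X} : A = B ↔ ∀ x, x ∈ A ↔ x ∈ B := SetLike.ext_iff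

@[simp] theorem PS.mem_mk {s : Set X} {h : IsM M s} {x : X} : x ∈ (⟨s, h⟩ : PS M X) ↔ x ∈ s :=
  Iff.rfl

noncomputable instance instSrtPS (X : Type) [Srt M X] : Srt M (PS M X) where
  code A := A.isM.choose
  inj A B h := by
    have h' : A.isM.choose = B.isM.choose := h
    refine PS.ext fun x => ⟨fun hx => ?_, fun hx => ?_⟩
    · obtain ⟨y, hy, e⟩ := (B.isM.choose_spec _).1 (h' ▸ (A.isM.choose_spec _).2 ⟨x, hx, rfl⟩)
      obtain rfl := cd_inj.1 e
      exact hy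
    · obtain ⟨y, hy, e⟩ := (A.isM.choose_spec _).1 (h' ▸ (B.isM.choose_spec _).2 ⟨x, hx, rfl⟩)
      obtain rfl := cd_inj.1 e
      exact hy
  dom := by
    refine ((DP.mem 0 1).not.or (dom_at X 0)).all.congr fun v => ?_
    simp only [cons_zero, cons_succ]
    constructor
    · rintro ⟨A, hA⟩ z
      refine or_iff_not_imp_left.2 fun hz => ?_
      obtain ⟨x, -, e⟩ := (A.isM.choose_spec z).1 (hA ▸ not_not.1 hz)
      exact ⟨x, e⟩
    · intro h
      have h1 : ∀ z, E z (v 0) ↔ ∃ x ∈ {x : X | E (cd M x) (v 0)}, z = cd M x := fun z =>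
        ⟨fun hz => by
          obtain ⟨x, rfl⟩ := (h z).resolve_left (not_not.2 hz)
          exact ⟨x, hz, rfl⟩, fun ⟨x, hx, e⟩ => e ▸ hx⟩
      refine ⟨⟨_, v 0, h1⟩, ext' fun z => ?_⟩
      rw [h1]
      exact ((PS.isM ⟨_, v 0, h1⟩).choose_spec z).symm

theorem mem_cd_ps {A : PS M X} {z : M} : E z (cd M A) ↔ ∃ x ∈ A, z = cd M x :=
  A.isM.choose_spec z

theorem cd_mem_cd_ps {A : PS M X} {x : X} : E (cd M x) (cd M A) ↔ x ∈ A := by
  rw [mem_cd_ps]
  exact ⟨fun ⟨y, hy, e⟩ => cd_inj.1 e ▸ hy, fun hx => ⟨x, hx, rfl⟩⟩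

theorem exists_ps {a : M} (h : ∀ z, E z a → ∃ x : X, z = cd M x) : ∃ A : PS M X, cd M A = a := by
  have h1 : ∀ z, E z a ↔ ∃ x ∈ {x : X | E (cd M x) a}, z = cd M x := fun z =>
    ⟨fun hz => by
      obtain ⟨x, rfl⟩ := h z hz
      exact ⟨x, hz, rfl⟩, fun ⟨x, hx, e⟩ => e ▸ hx⟩
  refine ⟨⟨_, a, h1⟩, ext' fun z => ?_⟩
  rw [mem_cd_ps, h1]; rfl

@[fun_prop]
theorem DfF.mem_ps {f : X → Y} {A : X → PS M Y} (hf : DfF M f) (hA : DfF M A) :
    DfF M (fun x => f x ∈ A x) :=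
  (DfF.E hf.cd hA.cd).congr fun _ => cd_mem_cd_ps.symm

instance [Sm M X] : Sm M (PS M X) := by
  obtain ⟨a, h⟩ := exists_power (un M X)
  refine sm_of_subset a fun A => (h _).2 fun z hz => ?_
  obtain ⟨x, -, e⟩ := mem_cd_ps.1 hz
  exact mem_un.2 ⟨x, e⟩

/-- The member of `PS` given by a definable predicate. -/
noncomputable def PS.of (M : Type) [Mdl M] {X : Type} [Srt M X] (P : X → Prop) : PS M X :=
  if h : IsM M {x | P x} then ⟨_, h⟩ else ⟨∅, emp M, by simpa using not_mem_emp⟩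

theorem PS.mem_of [Sm M X] {P : X → Prop} (h : DfF M P) {x : X} : x ∈ PS.of M P ↔ P x := by
  rw [PS.of, dif_pos (isM_of h)]; rfl

@[fun_prop]
theorem DfF.psOf [Sm M Y] {P : X → Y → Prop} (h : DfF M (fun p : X × Y => P p.1 p.2)) :
    DfF M (fun x => PS.of M fun y => P x y) :=
  DfF.of_rel (P := fun x A => All fun y => (P x y ↔ y ∈ A)) (by fun_prop) fun x A => by
    rw [PS.ext_iff]
    exact forall_congr' fun y => by rw [PS.mem_of (by fun_prop)]

instance : Nonempty (PS M X) := ⟨PS.of M fun _ => False⟩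

end

/-- Functions between small sorts that belong to `M`. -/
structure Fn (M : Type) [Mdl M] (X Y : Type) [Srt M X] [Srt M Y] where
  ap : X → Y
  df : DfF M ap

section

variable {X Y Z : Type} [Srt M X] [Srt M Y] [Srt M Z]

instance : CoeFun (Fn M X Y) (fun _ => X → Y) := ⟨Fn.ap⟩

attribute [coe] Fn.ap

theorem Fn.ext {F G : Fn M X Y} (h : ∀ x, F x = G x) : F = G := by
  obtain ⟨f, _⟩ := F
  obtain ⟨g, _⟩ := G
  obtain rfl : f = g := funext h
  rfl

theorem Fn.ext_iff {F G : Fn M X Y} : F = G ↔ ∀ x, F x = G x := ⟨fun e _ => e ▸ rfl, Fn.ext⟩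

instance [Nonempty Y] : Nonempty (Fn M X Y) := ⟨⟨fun _ => Classical.arbitrary Y, DfF.const _⟩⟩

/-- The member of `Fn` given by a definable map. -/
noncomputable def Fn.of (M : Type) [Mdl M] {X Y : Type} [Srt M X] [Srt M Y] [Nonempty Y]
    (f : X → Y) : Fn M X Y :=
  if h : DfF M f then ⟨f, h⟩ else Classical.arbitrary _

theorem Fn.of_ap [Nonempty Y] {f : X → Y} (h : DfF M f) (x : X) : Fn.of M f x = f x := by
  rw [Fn.of, dif_pos h]

variable [Sm M X] [Sm M Y]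

/-- The graph. -/
noncomputable def Fn.gr (F : Fn M X Y) : PS M (X × Y) := PS.of M fun p => F p.1 = p.2

theorem Fn.mem_gr {F : Fn M X Y} {p : X × Y} : p ∈ F.gr ↔ F p.1 = p.2 :=
  PS.mem_of (by have := F.df; fun_prop)

noncomputable instance instSrtFn (X Y : Type) [Srt M X] [Srt M Y] [Sm M X] [Sm M Y] :
    Srt M (Fn M X Y) := by
  refine Srt.ofInj Fn.gr (fun F G h => Fn.ext fun x => ?_) ?_
  · exact (Fn.mem_gr (p := (x, G x))).1 (h ▸ Fn.mem_gr.2 rfl)
  · refine DfF.congr (P := fun A : PS M (X × Y) => All fun x => ∃ y, (x, y) ∈ A ∧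
      All fun y' => Imp ((x, y') ∈ A) (y = y')) (by fun_prop) fun A => ?_
    constructor
    · rintro ⟨F, rfl⟩ x
      exact ⟨F x, Fn.mem_gr.2 rfl, fun y' h => Fn.mem_gr.1 h⟩
    · intro h
      choose f h1 h2 using h
      have e : ∀ x y, f x = y ↔ (x, y) ∈ A := fun x y => ⟨fun e => e ▸ h1 x, h2 x y⟩
      exact ⟨⟨f, DfF.of_rel (by fun_prop) e⟩, PS.ext fun p => Fn.mem_gr.trans (e _ _)⟩

theorem cd_fn (F : Fn M X Y) : cd M F = cd M F.gr := rfl

theorem mem_cd_fn {F : Fn M X Y} {z : M} :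
    E z (cd M F) ↔ ∃ x, z = pr (cd M x) (cd M (F x)) := by
  rw [cd_fn, mem_cd_ps]
  constructor
  · rintro ⟨p, hp, rfl⟩
    exact ⟨p.1, by rw [Fn.mem_gr.1 hp]; rfl⟩
  · rintro ⟨x, rfl⟩
    exact ⟨(x, F x), Fn.mem_gr.2 rfl, rfl⟩

theorem app_cd_fn {F : Fn M X Y} {a b : M} :
    App E (cd M F) a b ↔ ∃ x, a = cd M x ∧ b = cd M (F x) := by
  simp only [app_iff, mem_cd_fn, pr_inj]

@[fun_prop]
theorem DfF.ap {F : Z → Fn M X Y} {g : Z → X} (hF : DfF M F) (hg : DfF M g) :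
    DfF M (fun z => (F z).ap (g z)) := by
  have h1 : DfF M (Fn.gr : Fn M X Y → _) := DfF.of_cd_eq fun _ => rfl
  exact DfF.of_rel (P := fun z y => (g z, y) ∈ (F z).gr) (by fun_prop) fun z y =>
    (Fn.mem_gr (p := (g z, y))).symm

instance : Sm M (Fn M X Y) :=
  sm_of_subset (un M (PS M (X × Y))) fun F => mem_un.2 ⟨F.gr, rfl⟩

@[fun_prop]
theorem DfF.fnOf [Nonempty Y] {f : Z → X → Y} (h : DfF M (fun p : Z × X => f p.1 p.2)) :
    DfF M (fun z => Fn.of M fun x => f z x) :=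
  DfF.of_rel (P := fun z G => All fun x => f z x = G x) (by fun_prop) fun z G => by
    rw [Fn.ext_iff]
    exact forall_congr' fun x => by rw [Fn.of_ap (by fun_prop)]

/-- a function of the model between the code sets of two sorts is a member of `Fn` -/
theorem exists_fn {f : M} (h : Func E f (un M X) (un M Y)) : ∃ F : Fn M X Y, cd M F = f := by
  have h1 : ∀ x : X, ∃ y : Y, E (pr (cd M x) (cd M y)) f := fun x => by
    obtain ⟨b, hb, -⟩ := h.2 _ (mem_un.2 ⟨x, rfl⟩)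
    obtain ⟨a', b', -, h2, h3⟩ := h.1 _ (app_iff.1 hb)
    obtain ⟨y, rfl⟩ := mem_un.1 h2
    exact ⟨y, (pr_inj.1 (pr_iff.1 h3)).2 ▸ app_iff.1 hb⟩
  choose g hg using h1
  have h2 : ∀ x b, E (pr (cd M x) b) f ↔ b = cd M (g x) := fun x b =>
    ⟨fun hb => (h.2 _ (mem_un.2 ⟨x, rfl⟩)).unique (app_iff.2 hb) (app_iff.2 (hg x)),
      fun e => e ▸ hg x⟩
  refine ⟨⟨g, DfF.of_rel (P := fun x y => E (pr (cd M x) (cd M y)) f) (by fun_prop) fun x y => by
    rw [h2, cd_inj, eq_comm]⟩, ext' fun z => mem_cd_fn.trans ⟨?_, fun hz => ?_⟩⟩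
  · rintro ⟨x, rfl⟩
    exact hg x
  · obtain ⟨a, b, h3, -, h4⟩ := h.1 z hz
    obtain ⟨x, rfl⟩ := mem_un.1 h3
    obtain rfl := pr_iff.1 h4
    exact ⟨x, by rw [(h2 x b).1 hz]⟩

theorem func_cd_fn (F : Fn M X Y) : Func E (cd M F) (un M X) (un M Y) := by
  refine ⟨fun p hp => ?_, fun a ha => ?_⟩
  · obtain ⟨x, rfl⟩ := mem_cd_fn.1 hp
    exact ⟨_, _, mem_un.2 ⟨_, rfl⟩, mem_un.2 ⟨_, rfl⟩, pr_iff.2 rfl⟩
  · obtain ⟨x, rfl⟩ := mem_un.1 ha
    refine ⟨_, app_cd_fn.2 ⟨x, rfl, rfl⟩, fun b hb => ?_⟩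
    obtain ⟨y, h1, rfl⟩ := app_cd_fn.1 hb
    rw [cd_inj.1 h1]

end

/-- The elements of an element of `M`. -/
structure El (M : Type) [Mdl M] (a : M) where
  x : M
  mem : E x a

instance instSrtEl (a : M) : Srt M (El M a) where
  code x := x.x
  inj := by rintro ⟨x, _⟩ ⟨y, _⟩ h; congr
  dom := ((DP.const 0 a).and (DP.mem 1 0)).ex.congr fun v => by
    simp only [cons_zero, cons_succ]
    exact ⟨fun ⟨x, h⟩ => ⟨_, rfl, h ▸ x.mem⟩, fun ⟨_, e, h⟩ => ⟨⟨_, e ▸ h⟩, rfl⟩⟩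

instance (a : M) : Sm M (El M a) := sm_of_subset a fun x => x.mem

theorem un_el (a : M) : un M (El M a) = a := ext' fun z => by
  rw [mem_un]
  exact ⟨fun ⟨x, h⟩ => h ▸ x.mem, fun h => ⟨⟨z, h⟩, rfl⟩⟩

/-! Booleans -/

noncomputable instance instSrtBool : Srt M Bool :=
  Srt.ofInj (fun b => b = true) (fun a b h => by cases a <;> cases b <;> simp_all)
    ((DfF.const True).congr fun p => by
      by_cases h : p
      · exact iff_of_true ⟨true, by simp [h]⟩ trivial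
      · exact iff_of_true ⟨false, by simp [h]⟩ trivial)

instance : Sm M Bool := sm_of_subset (un M Prop) fun _ => mem_un.2 ⟨_, rfl⟩

section

variable {X Y : Type} [Srt M X] [Srt M Y]

@[fun_prop]
theorem DfF.decide {P : X → Prop} {d : ∀ x, Decidable (P x)} (hP : DfF M P) :
    DfF M (fun x => @decide (P x) (d x)) :=
  (DfF.ite (d := d) hP (DfF.const true) (DfF.const false)).congr' fun x => by
    by_cases h : P x <;> simp [h]

@[fun_prop]
theorem DfF.bnot {f : X → Bool} (hf : DfF M f) : DfF M (fun x => !f x) :=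
  DfF.of_rel (P := fun x y => f x ≠ y) (by fun_prop) fun x y => by
    cases f x <;> cases y <;> simp

@[fun_prop]
theorem DfF.cond {p : X → Bool} {f g : X → Y} (hp : DfF M p) (hf : DfF M f) (hg : DfF M g) :
    DfF M (fun x => cond (p x) (f x) (g x)) :=
  (DfF.ite (d := fun _ => inferInstance) (hp.eq (DfF.const true)) hf hg).congr' fun x => by
    cases p x <;> simp

end

example {X : Type} [Srt M X] [Sm M X] (r : X → X → Prop) (hr : DfF M fun p : X × X => r p.1 p.2) :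
    DfF M (fun A : PS M X => ∀ x ∈ A, ∃ y ∈ A, ∀ F : Fn M X X, r (F x) y → x ≠ y) := by
  simp only [imp_iff, all_iff]; fun_prop

end Pool.Agent.MP_057cde_lc.TZ
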