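import Pool.Agent.MP_057cde_lc.zf.Quot
import Pool.Agent.MP_057cde_lc.zf.Ca

-- ======== part 0: formerly Pool.Agent.MP_057cde_lc.zf.Fun
section MrgPart0

/-! Closing a countable set of open functionals under composition, join and search. -/

namespace Pool.Agent.MP_057cde_lc.TZ

open Function
open scoped Classical

/-- functionals -/
abbrev Fu (M : Type) [Mdl M] : Type := PS M (Ca M × N M × Bool)

variable {M : Type} [Mdl M]

/-- outputs depend on finitely many bits of the oracle -/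
def Fu.Opn (G : Fu M) : Prop := ∀ x n b, (x, n, b) ∈ G → ∃ k, ∀ y, Ag k x y → (y, n, b) ∈ G

/-- `G` computes `a` from `x` -/
def Fu.Cmp (G : Fu M) (x a : Ca M) : Prop := ∀ n b, (x, n, b) ∈ G ↔ a n = b

/-- composition -/
noncomputable def Fu.comp (G H : Fu M) : Fu M := PS.of M fun p =>
  ∃ k, ∃ z : Ca M, (∀ i < k, (p.1, i, z i) ∈ H) ∧ ∀ z', Ag k z z' → (z', p.2) ∈ G

/-- join -/
noncomputable def Fu.jn (G H : Fu M) : Fu M := PS.of M fun p =>
  ∃ m, (p.2.1 = m + m ∧ (p.1, m, p.2.2) ∈ G) ∨ (p.2.1 = m + m + 1 ∧ (p.1, m, p.2.2) ∈ H)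

/-- search -/
noncomputable def Fu.srch (c d : N M) (G : Fu M) : Fu M := PS.of M fun p =>
  ∃ (g y a : Ca M) (l e : N M), code y l = c ∧ code a e = d ∧ Ag l y g ∧
    (∀ q, l ≤ q → (N.unpair q).1 < e → g q = a (N.unpair q).1) ∧ (join p.1 g, p.2) ∈ G

theorem Fu.mem_comp {G H : Fu M} {x : Ca M} {n : N M} {b : Bool} : (x, n, b) ∈ G.comp H ↔
    ∃ k, ∃ z : Ca M, (∀ i < k, (x, i, z i) ∈ H) ∧ ∀ z', Ag k z z' → (z', n, b) ∈ G :=
  PS.mem_of (by simp only [imp_iff, all_iff]; fun_prop)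

theorem Fu.mem_jn {G H : Fu M} {x : Ca M} {n : N M} {b : Bool} : (x, n, b) ∈ G.jn H ↔
    ∃ m, (n = m + m ∧ (x, m, b) ∈ G) ∨ (n = m + m + 1 ∧ (x, m, b) ∈ H) :=
  PS.mem_of (by fun_prop)

theorem Fu.mem_srch {G : Fu M} {y a x : Ca M} {l e n : N M} {b : Bool} :
    (x, n, b) ∈ G.srch (code y l) (code a e) ↔ ∃ g, Ag l y g ∧
      (∀ q, l ≤ q → (N.unpair q).1 < e → g q = a (N.unpair q).1) ∧ (join x g, n, b) ∈ G := by
  refine (PS.mem_of (by simp only [imp_iff, all_iff]; fun_prop)).trans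
    ⟨?_, fun ⟨g, h⟩ => ⟨g, y, a, l, e, rfl, rfl, h⟩⟩
  rintro ⟨g, y', a', l', e', h1, h2, h3, h4, h5⟩
  obtain ⟨rfl, h6⟩ := code_eq.1 h1
  obtain ⟨rfl, h7⟩ := code_eq.1 h2
  exact ⟨g, h6.symm.trans h3, fun q a b => (h4 q a b).trans (h7 _ b), h5⟩

theorem Fu.Opn.comp {H : Fu M} (hH : H.Opn) (G : Fu M) : (G.comp H).Opn := fun x n b h => by
  obtain ⟨k, z, h1, h2⟩ := Fu.mem_comp.1 h
  obtain ⟨l, hl⟩ := N.exists_bound (P := fun i l => ∀ y, Ag l x y → (y, i, z i) ∈ H)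
    (by have := z.df; simp only [imp_iff, all_iff]; fun_prop)
    (fun _ _ _ a b y c => b y (c.mono a)) k fun i hi => hH _ _ _ (h1 i hi)
  exact ⟨l, fun y hy => Fu.mem_comp.2 ⟨k, z, fun i hi => hl i hi y hy, h2⟩⟩

theorem Fu.Opn.jn {G H : Fu M} (hG : G.Opn) (hH : H.Opn) : (G.jn H).Opn := fun x n b h => by
  obtain ⟨m, ⟨h1, h2⟩ | ⟨h1, h2⟩⟩ := Fu.mem_jn.1 h
  · exact (hG _ _ _ h2).imp fun k hk y hy => Fu.mem_jn.2 ⟨m, Or.inl ⟨h1, hk y hy⟩⟩
  · exact (hH _ _ _ h2).imp fun k hk y hy => Fu.mem_jn.2 ⟨m, Or.inr ⟨h1, hk y hy⟩⟩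

theorem Fu.Opn.srch {G : Fu M} (hG : G.Opn) (y a : Ca M) (l e : N M) :
    (G.srch (code y l) (code a e)).Opn := fun x n b h => by
  obtain ⟨g, h1, h2, h3⟩ := Fu.mem_srch.1 h
  exact (hG _ _ _ h3).imp fun k hk x' hx =>
    Fu.mem_srch.2 ⟨g, h1, h2, hk _ (hx.join (Ag.refl _ _))⟩

theorem Fu.Cmp.comp {G H : Fu M} {x y z : Ca M} (hG : G.Opn) (h : G.Cmp y x) (h' : H.Cmp z y) :
    (G.comp H).Cmp z x := fun n b => by
  refine Fu.mem_comp.trans ⟨fun ⟨k, u, h1, h2⟩ => (h n b).1 (h2 y fun i hi => ?_), fun e => ?_⟩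
  · exact ((h' _ _).1 (h1 i hi)).symm
  · obtain ⟨k, hk⟩ := hG _ _ _ ((h n b).2 e)
    exact ⟨k, y, fun i _ => (h' _ _).2 rfl, hk⟩

theorem Fu.Cmp.jn {G H : Fu M} {x a b : Ca M} (h : G.Cmp x a) (h' : H.Cmp x b) :
    (G.jn H).Cmp x (join a b) := fun n c => by
  refine Fu.mem_jn.trans ⟨?_, fun e => ?_⟩
  · rintro ⟨m, ⟨rfl, h1⟩ | ⟨rfl, h1⟩⟩
    · rw [join_even, (h _ _).1 h1]
    · rw [join_odd, (h' _ _).1 h1]
  · obtain ⟨m, rfl | rfl⟩ := n.even_or_odd
    · exact ⟨m, Or.inl ⟨rfl, (h _ _).2 (by rwa [join_even] at e)⟩⟩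
    · exact ⟨m, Or.inr ⟨rfl, (h' _ _).2 (by rwa [join_odd] at e)⟩⟩

theorem exists_fam {A : Fu M → Prop} (hA : Ctb M A) :
    ∃ F : Fam M, (∀ G, A G → G.Opn → ∀ x a, G.Cmp x a → F.Le a x) ∧
      (∀ {x y z}, F.Le x y → F.Le y z → F.Le x z) ∧
      (∀ {a b x}, F.Le a x → F.Le b x → F.Le (join a b) x) ∧
      ∀ (i : N M) (y : Ca M) (l : N M) (a : Ca M) (e : N M), ∃ j, ∀ w n b, F.out j w n b ↔
        ∃ g, Ag l y g ∧ (∀ p, l ≤ p → (N.unpair p).1 < e → g p = a (N.unpair p).1) ∧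
          F.out i (join w g) n b := by
  obtain ⟨e₀, h₀⟩ := hA
  have := e₀.df
  obtain ⟨C, ⟨e, he⟩, h1, h2⟩ := exists_closure (M := M) (A := fun G => ∃ n, e₀ n = G)
    (by fun_prop) ⟨e₀, fun _ h => h⟩ (T := Bool × Bool × N M × N M)
    (f := fun t G H => cond t.1 (cond t.2.1 (G.comp H) (G.jn H)) (G.srch t.2.2.1 t.2.2.2))
    (by simp only [Fu.comp, Fu.jn, Fu.srch, imp_iff, all_iff]; fun_prop)
  have := e.df
  let F : Fam M := ⟨fun i x n b => (e i ∈ C ∧ (e i).Opn) ∧ (x, n, b) ∈ e i,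
    by simp only [Fu.Opn, imp_iff, all_iff]; fun_prop,
    fun h => (h.1.2 _ _ _ h.2).imp fun k hk y hy => ⟨h.1, hk y hy⟩⟩
  have k1 : ∀ G ∈ C, Fu.Opn G → ∃ i, ∀ x n b, F.out i x n b ↔ (x, n, b) ∈ G := fun G a b => by
    obtain ⟨i, rfl⟩ := he G a
    exact ⟨i, fun x n c => and_iff_right ⟨a, b⟩⟩
  have k2 : ∀ a x, F.Le a x ↔ ∃ G ∈ C, Fu.Opn G ∧ Fu.Cmp G x a := fun a x =>
    ⟨fun ⟨i, hi⟩ => have h := ((hi 0 _).2 rfl).1
      ⟨e i, h.1, h.2, fun n b => (and_iff_right h).symm.trans (hi n b)⟩,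
    fun ⟨G, a1, a2, a3⟩ => (k1 G a1 a2).imp fun i hi n b => (hi x n b).trans (a3 n b)⟩
  refine ⟨F, fun G a b x c d => (k2 _ _).2 ⟨G, h1 G (h₀ G a), b, d⟩, fun a b => ?_,
    fun a b => ?_, fun i y l a d => ?_⟩
  · obtain ⟨G, a1, a2, a3⟩ := (k2 _ _).1 a
    obtain ⟨H, b1, b2, b3⟩ := (k2 _ _).1 b
    exact (k2 _ _).2 ⟨_, h2 (true, true, 0, 0) G a1 H b1, b2.comp G, a3.comp a2 b3⟩
  · obtain ⟨G, a1, a2, a3⟩ := (k2 _ _).1 a
    obtain ⟨H, b1, b2, b3⟩ := (k2 _ _).1 b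
    exact (k2 _ _).2 ⟨_, h2 (true, false, 0, 0) G a1 H b1, a2.jn b2, a3.jn b3⟩
  · by_cases h : e i ∈ C ∧ (e i).Opn
    · obtain ⟨j, hj⟩ := k1 _ (h2 (false, false, code y l, code a d) _ h.1 _ h.1) (h.2.srch y a l d)
      refine ⟨j, fun w n b => (hj w n b).trans (Fu.mem_srch.trans (exists_congr fun g => ?_))⟩
      exact and_congr_right fun _ => and_congr_right fun _ => (and_iff_right h).symm
    · exact ⟨i, fun w n b => iff_of_false (fun a => h a.1) fun ⟨_, _, _, a⟩ => h a.1⟩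

/-- bit `m` of the output is the oracle bit at the place given by `h` from the earlier bits -/
noncomputable def Fu.rd (h : Fn M (N M × N M) (N M)) : Fu M := PS.of M fun p =>
  ∃ a : Ca M, (∀ m < p.2.1 + 1, a m = p.1 (h (code a m, m))) ∧ a p.2.1 = p.2.2

theorem Fu.mem_rd {h : Fn M (N M × N M) (N M)} {x : Ca M} {n : N M} {b : Bool} :
    (x, n, b) ∈ Fu.rd h ↔ ∃ a : Ca M, (∀ m < n + 1, a m = x (h (code a m, m))) ∧ a n = b :=
  PS.mem_of (by simp only [imp_iff, all_iff]; fun_prop)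

theorem Fu.df_rd : DfF M (Fu.rd : _ → Fu M) := by
  unfold Fu.rd; simp only [imp_iff, all_iff]; fun_prop

theorem Fu.opn_rd (h : Fn M (N M × N M) (N M)) : (Fu.rd h).Opn := fun x n b hx => by
  obtain ⟨a, h1, h2⟩ := Fu.mem_rd.1 hx
  obtain ⟨k, hk⟩ := N.exists_bound (P := fun m k => h (code a m, m) < k) (by fun_prop)
    (fun _ _ _ a b => b.trans_le a) (n + 1) fun m _ => ⟨_, N.lt_succ _⟩
  exact ⟨k, fun y hy => Fu.mem_rd.2 ⟨a, fun m hm => (h1 m hm).trans (hy _ (hk m hm)), h2⟩⟩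

theorem Fu.cmp_rd {h : Fn M (N M × N M) (N M)} {x a : Ca M}
    (ha : ∀ m, a m = x (h (code a m, m))) : (Fu.rd h).Cmp x a := fun n b => by
  refine Fu.mem_rd.trans ⟨fun ⟨a', h1, h2⟩ => ?_, fun e => ⟨a, fun m _ => ha m, e⟩⟩
  have : ∀ k, k ≤ n + 1 → Ag k a a' := N.ind (by simp only [imp_iff]; fun_prop)
    (fun _ => ag_zero _ _) fun k ih hk => by
      have h3 := ih (k.lt_succ.le.trans hk)
      refine ag_succ.2 ⟨h3, ?_⟩
      rw [ha, h1 k (N.succ_le_iff.1 hk), code_eq.2 ⟨rfl, h3⟩]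
  rw [this _ le_rfl n n.lt_succ, h2]

theorem exists_rd (h : Fn M (N M × N M) (N M)) (x : Ca M) :
    ∃ a : Ca M, ∀ m, a m = x (h (code a m, m)) := by
  obtain ⟨a, ha⟩ := konig (P := fun a k => ∀ m < k, a m = x (h (code a m, m)))
    (by simp only [imp_iff, all_iff]; fun_prop) (x₀ := x) (fun a k hk =>
      ⟨x (h (code a k, k)), fun m hm => by
        have h1 : m ≤ k := N.lt_succ_iff.1 hm
        rw [← code_eq.2 ⟨rfl, (ag_upd a k _).mono h1⟩]
        rcases h1.lt_or_eq with h2 | rfl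
        · rw [upd_ne _ _ h2.ne, hk m h2]
        · exact upd_self _ _ _⟩) fun m hm => absurd hm zero_le.not_gt
  refine ⟨a, fun m => ?_⟩
  obtain ⟨y, h1, h2⟩ := ha (m + 1)
  rw [← h1 m m.lt_succ, h2 m m.lt_succ, code_eq.2 ⟨rfl, h1.mono m.lt_succ.le⟩]

/-- A countable set of open functionals for which invariant sets are determined generates a good
family. -/
theorem exists_good {A : Fu M → Prop} (hA : Ctb M A) (hO : ∀ G, A G → G.Opn)
    (hD : ∀ B : Ca M → Prop, DfF M B →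
      (∀ x y, B x → (∃ G, A G ∧ G.Cmp y x) → (∃ G, A G ∧ G.Cmp x y) → B y) →
      ∃ σ : Ca M, (∀ a : Ca M, (∀ n, a (n + n) = σ (code a (n + n))) → B a) ∨
        ∀ a : Ca M, (∀ n, a (n + n + 1) = σ (code a (n + n + 1))) → ¬ B a) :
    ∃ F : Fam M, F.Good := by
  let h : (Bool × Bool) × Bool × N M → Fn M (N M × N M) (N M) := fun t =>
    ⟨fun p => cond t.1.1 (cond t.1.2 (cond t.2.1 (p.2 + p.2) (p.2 + p.2 + 1))
      (cond t.2.1 p.2 (N.pair t.2.2 p.2)))
      (if (∃ k, p.2 = k + k) ↔ t.2.1 = true then p.1 + p.1 else p.2 + p.2 + 1), by fun_prop⟩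
  have dh : DfF M h := DfF.of_ap (by dsimp only [h]; fun_prop)
  obtain ⟨F, h1, h2, h3, h4⟩ := exists_fam
    (hA.union ((Ctb.of_cnt fun _ => True).image (Fu.df_rd.comp dh)))
  have k : ∀ t (x a : Ca M), (∀ m, a m = x (h t (code a m, m))) → F.Le a x := fun t x a ha =>
    h1 _ (Or.inr ⟨t, trivial, rfl⟩) (Fu.opn_rd _) x a (Fu.cmp_rd ha)
  have kr : ∀ x, F.Le x x := fun x => k ((true, false), true, 0) x x fun _ => rfl
  have ke : ∀ x, F.Le (ev x) x := fun x => k ((true, true), true, 0) x _ fun _ => rfl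
  have ko : ∀ x, F.Le (od x) x := fun x => k ((true, true), false, 0) x _ fun _ => rfl
  have kp : ∀ (j : Bool) σ x, F.Le σ x → ∃ a : Ca M, F.Le a x ∧ ∀ m,
      a m = if (∃ k, m = k + k) ↔ j = true then σ (code a m) else join x x m := fun j σ x hx => by
    obtain ⟨a, ha⟩ := exists_rd (h ((false, false), j, 0)) (join σ (join x x))
    refine ⟨a, h2 (k _ _ _ ha) (h3 hx (h3 (kr x) (kr x))), fun m => (ha m).trans ?_⟩
    dsimp only [h, cond_false]
    split_ifs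
    · exact join_even _ _ _
    · exact join_odd _ _ _
  refine ⟨F, kr, h2, ke, ko, fun x c => k ((true, false), false, c) x _ fun _ => rfl, h4,
    fun {K} dK hI hc => ?_⟩
  have e1 : ∀ n : N M, ∃ k, n + n = k + k := fun n => ⟨n, rfl⟩
  have e2 : ∀ n : N M, ¬ ∃ k, n + n + 1 = k + k := fun n ⟨k, e⟩ => N.even_ne_odd _ _ e.symm
  obtain ⟨σ, hσ | hσ⟩ := hD K dK fun x y a ⟨G, b1, b2⟩ ⟨H, c1, c2⟩ =>
    hI x y a (h1 G (Or.inl b1) (hO G b1) _ _ b2) (h1 H (Or.inl c1) (hO H c1) _ _ c2)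
  · refine ⟨σ, fun x hx => ?_⟩
    obtain ⟨a, a1, a2⟩ := kp true σ x hx
    refine hI a x (hσ a fun n => by rw [a2, if_pos (by simp [e1])]) a1 ?_
    have : od a = x := Fn.ext fun n => by rw [od_ap, a2, if_neg (by simp [e2]), join_odd]
    exact this ▸ ko a
  · obtain ⟨x, b, hx⟩ := hc σ
    obtain ⟨a, a1, a2⟩ := kp false σ x hx
    refine (hσ a (fun n => by rw [a2, if_pos (by simp [e2])]) (hI x a b ?_ a1)).elim
    have : ev a = x := Fn.ext fun n => by rw [ev_ap, a2, if_neg (by simp [e1]), join_even]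
    exact this ▸ ke a

end Pool.Agent.MP_057cde_lc.TZ

end MrgPart0

-- ======== part 1: formerly Pool.Agent.MP_057cde_lc.zf.Mach
section MrgPart1

/-! Register machines with an oracle as open functionals; Turing determinacy gives a good family. -/

namespace Pool.Agent.MP_057cde_lc.TZ

open Function
open scoped Classical

variable {M : Type} [Mdl M]
variable {X : Type} [Srt M X]

/-- there are countably many finitely supported sequences -/
theorem ctb_fin [Sm M X] [Cnt M X] (x₀ : X) :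
    Ctb M fun P : Fn M (N M) X => ∃ l, ∀ i, l ≤ i → P i = x₀ := by
  refine Ctb.iUnion (by simp only [imp_iff, all_iff]; fun_prop) (N.ind
    (by simp only [imp_iff, all_iff]; fun_prop) ?_ fun l ih => ?_)
  · exact (Ctb.single ⟨fun _ => x₀, by fun_prop⟩).mono fun P h => Fn.ext fun i => h i zero_le
  · let u : Fn M (N M) X × X → Fn M (N M) X := fun p =>
      ⟨fun i => if i = l then p.2 else p.1 i, by fun_prop⟩
    have du : DfF M u := DfF.of_ap (by dsimp only [u]; fun_prop)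
    refine ((ih.prod (Ctb.of_cnt fun _ : X => True)).image du).mono fun P h =>
      ⟨(u (P, x₀), P l), ⟨fun i hi => ?_, trivial⟩, Fn.ext fun i => ?_⟩
    · dsimp only [u]
      split_ifs with e
      · rfl
      · exact h i (N.succ_le_iff.2 (hi.lt_of_ne' e))
    · dsimp only [u]
      split_ifs with e
      · rw [e]
      · rfl

/-- register contents -/
abbrev Reg (M : Type) [Mdl M] : Type := Fn M (N M) (N M)

/-- programs -/
abbrev Prog (M : Type) [Mdl M] : Type := Fn M (N M) ((Bool × Bool) × N M × N M)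

/-- write into a register -/
noncomputable def wr (r : Reg M) (m v : N M) : Reg M :=
  ⟨fun j => if j = m then v else r j, by fun_prop⟩

@[fun_prop]
theorem DfF.wr {r : X → Reg M} {m v : X → N M} (hr : DfF M r) (hm : DfF M m) (hv : DfF M v) :
    DfF M fun a => wr (r a) (m a) (v a) :=
  DfF.of_ap (by dsimp only [TZ.wr]; fun_prop)

/-- one instruction -/
noncomputable def act (a : (Bool × Bool) × N M × N M) (y : Ca M) (c : N M × Reg M) :
    N M × Reg M :=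
  cond a.1.1
    (cond a.1.2 (c.1 + 1, wr c.2 a.2.1 (c.2 a.2.1 + 1))
      (if c.2 a.2.1 = 0 then (a.2.2, c.2)
        else (c.1 + 1, wr c.2 a.2.1 (N.least fun u => c.2 a.2.1 = u + 1))))
    (cond a.1.2 (cond (y (c.2 a.2.1)) (a.2.2, c.2) (c.1 + 1, c.2)) c)

/-- the configuration after `t` steps -/
noncomputable def run (P : Prog M) (y : Ca M) (n t : N M) : N M × Reg M :=
  N.rc (0, wr ⟨fun _ => 0, by fun_prop⟩ 0 n) (fun _ c => act (P c.1) y c) t

@[fun_prop]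
theorem DfF.run {P : X → Prog M} {y : X → Ca M} {n t : X → N M} (hP : DfF M P) (hy : DfF M y)
    (hn : DfF M n) (ht : DfF M t) : DfF M fun a => run (P a) (y a) (n a) (t a) := by
  unfold TZ.run act; fun_prop

theorem run_succ (P : Prog M) (y : Ca M) (n t : N M) :
    run P y n (t + 1) = act (P (run P y n t).1) y (run P y n t) :=
  N.rc_succ (by unfold act; fun_prop) t

/-- the functional of a program -/
noncomputable def mach (P : Prog M) : Fu M := PS.of M fun p => ∃ t,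
  (P (run P p.1 p.2.1 t).1).1 = (false, false) ∧ decide ((run P p.1 p.2.1 t).2 0 ≠ 0) = p.2.2

theorem mem_mach {P : Prog M} {y : Ca M} {n : N M} {b : Bool} : (y, n, b) ∈ mach P ↔
    ∃ t, (P (run P y n t).1).1 = (false, false) ∧ decide ((run P y n t).2 0 ≠ 0) = b :=
  PS.mem_of (by fun_prop)

theorem opn_mach (P : Prog M) : (mach P).Opn := fun x n b h => by
  obtain ⟨t, h⟩ := mem_mach.1 h
  have : ∀ t, ∃ k, ∀ y, Ag k x y → run P y n t = run P x n t := N.ind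
    (by simp only [imp_iff, all_iff]; fun_prop) ⟨0, fun _ _ => N.rc_zero.trans N.rc_zero.symm⟩
    fun t ⟨k, hk⟩ => ⟨max k ((run P x n t).2 (P (run P x n t).1).2.1 + 1), fun y hy => by
      rw [run_succ, run_succ, hk y (hy.mono (le_max_left _ _)), act, act,
        hy _ ((N.lt_succ _).trans_le (le_max_right _ _))]⟩
  exact (this t).imp fun k hk y hy => mem_mach.2 ⟨t, by rwa [hk y hy]⟩

theorem mach_unique {P : Prog M} {y : Ca M} {n : N M} {b c : Bool} (h : (y, n, b) ∈ mach P)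
    (h' : (y, n, c) ∈ mach P) : b = c := by
  have key : ∀ s, (P (run P y n s).1).1 = (false, false) → ∀ t, s ≤ t →
      run P y n t = run P y n s := fun s hs => N.le_ind (by fun_prop) rfl fun t _ ih => by
    rw [run_succ, ih, act, hs]; rfl
  obtain ⟨s, h1, rfl⟩ := mem_mach.1 h
  obtain ⟨t, h2, rfl⟩ := mem_mach.1 h'
  rcases le_total s t with e | e
  · rw [key s h1 t e]
  · rw [key t h2 s e]

/-- the subset of omega given by a real -/
noncomputable def rl (x : Ca M) : M := cd M (PS.of M fun n => x n = true)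

@[fun_prop]
theorem DfF.rl {x : X → Ca M} (hx : DfF M x) : DfF M fun a => rl (x a) := by
  unfold TZ.rl; fun_prop

theorem cd_mem_rl {x : Ca M} {n : N M} : E (cd M n) (rl x) ↔ x n = true :=
  cd_mem_cd_ps.trans (PS.mem_of (by fun_prop))

theorem rl_incl (x : Ca M) : Incl E (rl x) Mdl.om := fun _ hz =>
  let ⟨n, _, e⟩ := mem_cd_ps.1 hz
  mem_om.2 ⟨n, e⟩

theorem rl_inj {x y : Ca M} (h : rl x = rl y) : x = y :=
  Fn.ext fun _ => Bool.eq_iff_iff.2 (by rw [← cd_mem_rl, ← cd_mem_rl, h])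

theorem exists_rl {u : M} (h : Incl E u Mdl.om) : ∃ x, rl x = u := by
  refine ⟨⟨fun n => decide (E (cd M n) u), by fun_prop⟩, ext' fun z => ⟨fun a => ?_, fun a => ?_⟩⟩
  · obtain ⟨n, rfl⟩ := mem_om.1 (rl_incl _ z a)
    exact of_decide_eq_true (cd_mem_rl.1 a)
  · obtain ⟨n, rfl⟩ := mem_om.1 (h z a)
    exact cd_mem_rl.2 (decide_eq_true a)

theorem agree_rl {x y : Ca M} {k : N M} : Agree E (cd M k) (rl x) (rl y) ↔ Ag k x y :=
  ⟨fun h i hi => Bool.eq_iff_iff.2 (by rw [← cd_mem_rl, ← cd_mem_rl]; exact h _ hi),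
    fun h z hz => by
      obtain ⟨i, hi, rfl⟩ := N.mem_cd.1 hz
      rw [cd_mem_rl, cd_mem_rl, h i hi]⟩

/-- a definable set of reals as an element of the model -/
theorem exists_rls {B : Ca M → Prop} (hB : DfF M B) :
    ∃ b : M, ∀ z, E z b ↔ ∃ x, B x ∧ rl x = z := by
  obtain ⟨p, hp⟩ := exists_power (Mdl.om : M)
  obtain ⟨b, hb⟩ := isM_of_subset (M := M) (P := fun u : M => ∃ x, B x ∧ rl x = u) (by fun_prop)
    (a := p) fun u ⟨x, _, e⟩ => (hp _).2 (e ▸ rl_incl x)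
  exact ⟨b, fun z => (hb z).trans ⟨fun ⟨_, h, e⟩ => e ▸ h, fun h => ⟨z, h, rfl⟩⟩⟩

theorem app_cd {Y : Type} [Srt M Y] [Sm M X] [Sm M Y] {F : Fn M X Y} {x : X} {b : M} :
    App E (cd M F) (cd M x) b ↔ b = cd M (F x) :=
  app_cd_fn.trans ⟨fun ⟨_, h, e⟩ => cd_inj.1 h ▸ e, fun e => ⟨x, rfl, e⟩⟩

theorem emp_cd {n : N M} : Emp E (cd M n) ↔ n = 0 := by rw [zero_iff, ← N.cd_zero, cd_inj]

theorem upd_cd {r r' : Reg M} {m u : N M} (h : Upd E (cd M r) (cd M m) (cd M u) (cd M r')) :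
    r' = wr r m u := Fn.ext fun j => by
  dsimp only [wr]
  split_ifs with e
  · exact e ▸ (cd_inj.1 (app_cd.1 h.1)).symm
  · exact (cd_inj.1 (app_cd.1 ((h.2 _ _ (mt cd_inj.1 e)).2 (app_cd.2 rfl)))).symm

theorem least_app {A l m : M} {i : N M} (hA : Func E A l Mdl.om) (hi : E (cd M i) l)
    (h : App E A (cd M i) m) : m = cd M (N.least fun u : N M => App E A (cd M i) (cd M u)) := by
  obtain ⟨a, b, -, h1, h2⟩ := hA.1 _ (app_iff.1 h)
  obtain ⟨u, rfl⟩ := mem_om.1 ((pr_inj.1 (pr_iff.1 h2)).2 ▸ h1)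
  exact (hA.2 _ hi).unique h
    (N.least_spec (P := fun u : N M => App E A (cd M i) (cd M u))
      (by simp only [app_iff]; fun_prop) ⟨u, h⟩).1

theorem step_cd {y : Ca M} {l I D A Q : M} (hA : Func E A l Mdl.om) (hQ : Func E Q l Mdl.om)
    {i i' : N M} {r r' : Reg M} (hi : E (cd M i) l)
    (h : Step E (rl y) I D A Q (cd M i) (cd M r) (cd M i') (cd M r')) :
    act ((decide (E (cd M i) I ∨ E (cd M i) D), decide (E (cd M i) I ∨ ¬ E (cd M i) D)),
      N.least fun u => App E A (cd M i) (cd M u), N.least fun u => App E Q (cd M i) (cd M u))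
      y (i, r) = (i', r') := by
  obtain ⟨m, q, v, h1, h2, h3, h4⟩ := h
  obtain rfl := least_app hA hi h1
  obtain rfl := least_app hQ hi h2
  obtain rfl := app_cd.1 h3
  generalize (N.least fun u : N M => App E A (cd M i) (cd M u)) = m at *
  generalize (N.least fun u : N M => App E Q (cd M i) (cd M u)) = q at *
  simp only [N.suc_iff, cd_inj, emp_cd, cd_mem_rl] at h4
  rcases h4 with ⟨a, rfl, _, rfl, b⟩ | ⟨a, b, ⟨c, rfl, rfl⟩ | ⟨rfl, u, c, d⟩⟩ |
    ⟨a, b, rfl, ⟨c, rfl⟩ | ⟨c, rfl⟩⟩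
  · simp [act, a, upd_cd b]
  · simp [act, a, b, c]
  · obtain ⟨u, -, rfl⟩ := N.mem_cd.1 ((c u).2 (Or.inr rfl))
    rw [N.suc_iff, cd_inj] at c
    have e : (N.least fun w => u = w) = u :=
      (N.least_eq (by fun_prop)).2 (Or.inl ⟨rfl, fun _ h => h.ne'⟩)
    simp [act, a, b, c, N.succ_ne_zero, upd_cd d, e, -add_eq_zero]
  · simp [act, a, b, c]
  · simp [act, a, b, c]

theorem mach_of_leT {x y : Ca M} (h : LeT E Mdl.om (rl x) (rl y)) :
    ∃ P : Prog M, (∃ l, ∀ i, l ≤ i → P i = ((false, false), 0, 0)) ∧ (mach P).Cmp y x := by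
  obtain ⟨l, I, D, A, Q, hl, hA, hQ, h⟩ := h
  obtain ⟨l, rfl⟩ := mem_om.1 hl
  let P : Prog M := ⟨fun i => if i < l then
    ((decide (E (cd M i) I ∨ E (cd M i) D), decide (E (cd M i) I ∨ ¬ E (cd M i) D)),
      N.least fun u => App E A (cd M i) (cd M u), N.least fun u => App E Q (cd M i) (cd M u))
    else ((false, false), 0, 0), by simp only [app_iff]; fun_prop⟩
  have key : ∀ n, (y, n, x n) ∈ mach P := fun n => by
    obtain ⟨v, ⟨T, c, s, F, hT, hc, hs, hF, h0, h1, h2⟩, hv⟩ := h _ (mem_om.2 ⟨n, rfl⟩)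
    obtain ⟨T, rfl⟩ := mem_om.1 hT
    rw [← un_N] at hc hs hF
    obtain ⟨c, rfl⟩ := exists_fn hc
    obtain ⟨s, rfl⟩ := exists_fn (Y := Reg M) ⟨fun p hp =>
      let ⟨a, b, a1, a2, a3⟩ := hs.1 p hp
      let ⟨r, hr⟩ := exists_fn (hF b a2)
      ⟨a, b, a1, mem_un.2 ⟨r, hr.symm⟩, a3⟩, hs.2⟩
    have e0 : Emp E (cd M (0 : N M)) := emp_cd.2 rfl
    have h3 : ∀ t, t ≤ T → run P y n t = (c t, s t) := by
      refine N.ind (by simp only [imp_iff]; fun_prop) (fun _ => ?_) fun t ih ht => ?_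
      · obtain ⟨a1, a2, a3⟩ := h0 _ _ _ e0 (app_cd.2 rfl) (app_cd.2 rfl)
        refine N.rc_zero.trans (Prod.ext (cd_inj.1 a1).symm (Fn.ext fun j => ?_))
        dsimp only [wr]
        split_ifs with e
        · rw [e]
          exact cd_inj.1 (app_cd.1 a2)
        · exact cd_inj.1 (app_cd.1 (a3 _ (mem_om.2 ⟨j, rfl⟩) (mt cd_inj.1 e)))
      · obtain ⟨a1, a2⟩ := h1 _ _ _ _ _ _ (N.lt_iff.1 (N.succ_le_iff.1 ht)) (N.suc_iff.2 rfl)
          (app_cd.2 rfl) (app_cd.2 rfl) (app_cd.2 rfl) (app_cd.2 rfl)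
        rw [run_succ, ih (t.lt_succ.le.trans ht), ← step_cd hA hQ a1 a2]
        exact congrArg (act · y _) (if_pos a1)
    obtain ⟨a1, a2⟩ := h2 _ _ _ e0 (app_cd.2 rfl) (app_cd.2 rfl)
    refine mem_mach.2 ⟨T, ?_⟩
    rw [h3 T le_rfl]
    refine ⟨congrArg Prod.fst (if_neg a1), Bool.eq_iff_iff.2 ?_⟩
    rw [app_cd.1 a2, emp_cd, cd_mem_rl] at hv
    rw [hv, decide_eq_true_iff]
  exact ⟨P, ⟨l, fun i hi => if_neg hi.not_gt⟩, fun n b =>
    ⟨mach_unique (key n), fun e => e ▸ key n⟩⟩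

theorem ev_cd {m : N M} : Ev E (cd M m) ↔ ∃ k, m = k + k := by
  have e : ∀ m : N M, E (cd M m) (cd M (PS.of M fun m : N M => ∃ k, m = k + k)) ↔
      ∃ k, m = k + k := fun m => cd_mem_cd_ps.trans (PS.mem_of (by fun_prop))
  constructor
  · refine fun h => (e m).1 (h _ (fun z hz => ?_) fun k k' k'' a b c => ?_)
    · rw [zero_iff.1 hz, ← N.cd_zero]
      exact (e 0).2 ⟨0, by simp⟩
    · obtain ⟨k, -, rfl⟩ := mem_cd_ps.1 a
      obtain ⟨j, rfl⟩ := (e k).1 a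
      obtain rfl := N.suc_iff.1 b
      obtain rfl := N.suc_iff.1 c
      exact (e _).2 ⟨j + 1, by abel⟩
  · rintro ⟨k, rfl⟩ S h0 hs
    refine N.ind (P := fun k => E (cd M (k + k)) S) (by fun_prop)
      (h0 _ (emp_cd.2 (add_zero 0))) (fun k ih => ?_) k
    exact hs _ _ _ ih (N.suc_iff.2 rfl) (N.suc_iff.2 (congrArg _ (by abel)))

theorem exists_strat (σ : M) : ∃ τ : Ca M, ∀ (a : Ca M) m, a m = τ (code a m) →
    Obeys E σ (rl a) (cd M m) := by
  refine ⟨⟨fun c => decide (∃ (a : Ca M) (k : N M) (s : M), code a k = c ∧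
    (∀ z, E z s ↔ E z (rl a) ∧ E z (cd M k)) ∧ App E σ (cd M k) s),
    by simp only [all_iff, app_iff]; fun_prop⟩, fun a m h s hs => ?_⟩
  rw [cd_mem_rl, h, decide_eq_true_iff]
  refine ⟨fun ⟨a', k, s', h1, h2, h3⟩ => ?_, fun h => ⟨a, m, s, rfl, hs, h⟩⟩
  obtain ⟨rfl, h4⟩ := code_eq.1 h1
  rwa [ext' fun z => (hs z).trans
    ((and_congr_left fun hz => (agree_rl.2 h4 z hz).symm).trans (h2 z).symm)]

theorem good_of_td (hTD : TD E (Mdl.om : M)) : ∃ F : Fam M, F.Good := by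
  refine exists_good ((ctb_fin ((false, false), (0 : N M), (0 : N M))).image
    (f := mach) (by unfold mach; fun_prop)) (fun G ⟨P, _, e⟩ => e ▸ opn_mach P) fun B dB hI => ?_
  obtain ⟨b, hb⟩ := exists_rls dB
  have e : ∀ x, E (rl x) b ↔ B x := fun x =>
    (hb _).trans ⟨fun ⟨y, h, e⟩ => rl_inj e ▸ h, fun h => ⟨x, h, rfl⟩⟩
  rcases hTD b (fun x hx => let ⟨y, _, e⟩ := (hb x).1 hx; e ▸ rl_incl y) (fun x y h1 h2 h3 h4 => by
    obtain ⟨x, h5, rfl⟩ := (hb x).1 h1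
    obtain ⟨y, rfl⟩ := exists_rl h2
    obtain ⟨P, a1, a2⟩ := mach_of_leT h3
    obtain ⟨Q, b1, b2⟩ := mach_of_leT h4
    exact (e y).2 (hI x y h5 ⟨_, ⟨P, a1, rfl⟩, a2⟩ ⟨_, ⟨Q, b1, rfl⟩, b2⟩)) with ⟨σ, h⟩ | ⟨σ, h⟩
  · obtain ⟨τ, hτ⟩ := exists_strat σ
    refine ⟨τ, Or.inl fun a ha => (e a).1 (h _ (rl_incl a) fun n h1 h2 => ?_)⟩
    obtain ⟨m, rfl⟩ := mem_om.1 h1
    obtain ⟨k, rfl⟩ := ev_cd.1 h2
    exact hτ a _ (ha k)
  · obtain ⟨τ, hτ⟩ := exists_strat σ
    refine ⟨τ, Or.inr fun a ha => mt (e a).2 (h _ (rl_incl a) fun n h1 h2 => ?_)⟩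
    obtain ⟨m, rfl⟩ := mem_om.1 h1
    obtain ⟨k, rfl | rfl⟩ := m.even_or_odd
    · exact absurd (ev_cd.2 ⟨k, rfl⟩) h2
    · exact hτ a _ (ha k)

end Pool.Agent.MP_057cde_lc.TZ

end MrgPart1

-- ======== part 2: formerly Pool.Agent.MP_057cde_lc.zf.Fuse
section MrgPart2

/-! Chains and binary schemes of conditions. -/

namespace Pool.Agent.MP_057cde_lc.TZ

open Function
open scoped Classical

variable {M : Type} [Mdl M]

theorem exists_split {x y : Ca M} (h : x ≠ y) : ∃ k, Ag k x y ∧ x k ≠ y k := by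
  obtain ⟨k, h1, h2⟩ := N.exists_least (P := fun k => x k ≠ y k) (by fun_prop)
    (not_forall.1 fun hc => h (Fn.ext hc))
  exact ⟨k, fun i hi => not_not.1 (h2 i hi), h1⟩

/-- `x` agrees with the condition `p` on the positions of small level -/
def Mem (c : N M → N M) (p : Ca M × N M) (x : Ca M) : Prop := ∀ i, c i < p.2 → x i = p.1 i

/-- extension of conditions -/
def Ext (c : N M → N M) (q p : Ca M × N M) : Prop := p.2 ≤ q.2 ∧ Mem c p q.1

variable {Z : Type} [Srt M Z] {c : N M → N M}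

@[fun_prop] theorem DfF.cmem {p : Z → Ca M × N M} {x : Z → Ca M} (hc : DfF M c) (hp : DfF M p)
    (hx : DfF M x) : DfF M fun z => Mem c (p z) (x z) := by
  simp only [Mem, imp_iff, all_iff]; fun_prop

@[fun_prop] theorem DfF.cext {p q : Z → Ca M × N M} (hc : DfF M c) (hq : DfF M q)
    (hp : DfF M p) : DfF M fun z => Ext c (q z) (p z) := by
  unfold Ext; fun_prop

theorem Ext.refl (p : Ca M × N M) : Ext c p p := ⟨le_rfl, fun _ _ => rfl⟩

theorem Ext.mem {q p : Ca M × N M} (h : Ext c q p) {x : Ca M} (hx : Mem c q x) : Mem c p x :=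
  fun i hi => by rw [hx i (hi.trans_le h.1), h.2 i hi]

theorem Ext.trans {p q r : Ca M × N M} (h : Ext c p q) (h' : Ext c q r) : Ext c p r :=
  ⟨h'.1.trans h.1, h'.mem h.2⟩

theorem chain_mono (hc : DfF M c) {f : N M → Ca M × N M} (hf : DfF M f)
    (h : ∀ k, Ext c (f (k + 1)) (f k)) {n m : N M} (hn : n ≤ m) : Ext c (f m) (f n) :=
  N.le_ind (P := fun m => Ext c (f m) (f n)) (by fun_prop) (Ext.refl _)
    (fun k _ ih => (h k).trans ih) m hn

theorem chain_mem (hc : DfF M c) (hc' : ∀ i, c i ≤ i) {f : N M → Ca M × N M} (hf : DfF M f)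
    (h : ∀ k, Ext c (f (k + 1)) (f k) ∧ k < (f (k + 1)).2) (n : N M) :
    Mem c (f n) (Fn.of M fun i => (f (i + 1)).1 i) := by
  intro i hi
  rw [Fn.of_ap (by fun_prop)]
  rcases le_total n (i + 1) with h1 | h1
  · exact (chain_mono hc hf (fun k => (h k).1) h1).2 i hi
  · exact ((chain_mono hc hf (fun k => (h k).1) h1).2 i ((hc' i).trans_lt (h i).2)).symm

/-- a binary scheme of conditions and its branches -/
theorem exists_tree (hc : DfF M c) (hc' : ∀ i, c i ≤ i)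
    {R : N M → Ca M × N M → Ca M × N M → Prop}
    (hR : DfF M fun t : N M × (Ca M × N M) × (Ca M × N M) => R t.1 t.2.1 t.2.2)
    (h : ∀ k p, ∃ q q', Ext c q p ∧ Ext c q' p ∧ R k q q') (p₀ : Ca M × N M) :
    ∃ (f : N M → Ca M → Ca M × N M) (g : Ca M → Ca M),
      DfF M (fun t : N M × Ca M => f t.1 t.2) ∧ Cont g ∧ (∀ s, f 0 s = p₀) ∧
      (∀ s n m, n ≤ m → Ext c (f m s) (f n s)) ∧
      (∀ n s s', Ag n s s' → f n s = f n s') ∧ (∀ n s, Mem c (f n s) (g s)) ∧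
      ∀ k s s', Ag k s s' → s k = false → s' k = true → R k (f (k + 1) s) (f (k + 1) s') := by
  have e1 : (1 : N M) ≠ 0 := by simpa using N.succ_ne_zero (0 : N M)
  obtain ⟨G, g0, g1⟩ := dc (M := M) (Y := Fn M (N M) (Ca M × N M)) (Q := fun _ _ => True)
    (R := fun k g g' => ∀ j, (Ext c (g' (N.pair j 0)) (g j) ∧ k < (g' (N.pair j 0)).2) ∧
      (Ext c (g' (N.pair j 1)) (g j) ∧ k < (g' (N.pair j 1)).2) ∧
      R k (g' (N.pair j 0)) (g' (N.pair j 1)))
    (by fun_prop) (by simp only [all_iff]; fun_prop) (fun k g _ => by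
      have := g.df
      obtain ⟨H, h2⟩ := cc (M := M) (R := fun j (t : (Ca M × N M) × (Ca M × N M)) =>
        (Ext c t.1 (g j) ∧ k < t.1.2) ∧ (Ext c t.2 (g j) ∧ k < t.2.2) ∧ R k t.1 t.2)
        (by fun_prop) fun j => by
          obtain ⟨q, q', a1, a2, a3⟩ := h k ((g j).1, max (g j).2 (k + 1))
          have e : Ext c ((g j).1, max (g j).2 (k + 1)) (g j) :=
            ⟨le_max_left _ _, fun _ _ => rfl⟩
          exact ⟨(q, q'), ⟨a1.trans e, N.succ_le_iff.1 ((le_max_right _ _).trans a1.1)⟩,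
            ⟨a2.trans e, N.succ_le_iff.1 ((le_max_right _ _).trans a2.1)⟩, a3⟩
      have := H.df
      exact ⟨⟨fun i => if (N.unpair i).2 = 0 then (H (N.unpair i).1).1 else (H (N.unpair i).1).2,
        by fun_prop⟩, trivial, fun j => by simpa [e1] using h2 j⟩)
    (y₀ := ⟨fun _ => p₀, by fun_prop⟩) trivial
  have := G.df
  let I : N M → Ca M → N M := fun k s => N.rc 0 (fun k j => N.pair j (cond (s k) 1 0)) k
  have dI : DfF M fun t : N M × Ca M => I t.1 t.2 := by fun_prop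
  have i1 : ∀ k s, I (k + 1) s = N.pair (I k s) (cond (s k) 1 0) :=
    fun k s => N.rc_succ (by fun_prop) k
  have loc : ∀ n s s', Ag n s s' → I n s = I n s' := fun n s s' =>
    N.ind (P := fun n => Ag n s s' → I n s = I n s') (by simp only [imp_iff]; fun_prop)
      (fun _ => N.rc_zero.trans N.rc_zero.symm)
      (fun n ih h => by rw [i1, i1, ih (ag_succ.1 h).1, (ag_succ.1 h).2]) n
  clear_value I
  have st : ∀ s k, Ext c (G (k + 1) (I (k + 1) s)) (G k (I k s)) ∧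
      k < (G (k + 1) (I (k + 1) s)).2 := by
    intro s k
    rw [i1]
    cases s k
    · exact ((g1 k).2 _).1
    · exact ((g1 k).2 _).2.1
  refine ⟨fun k s => G k (I k s), fun s => Fn.of M fun i => (G (i + 1) (I (i + 1) s)).1 i,
    by fun_prop, Cont.of_bit (by fun_prop) fun n => ⟨n + 1, fun x y hy => ?_⟩,
    fun s => by simp only [g0], fun s n m => chain_mono hc (by fun_prop) fun k => (st s k).1,
    fun n s s' h => by simp only [loc n s s' h],
    fun n s => chain_mem hc hc' (f := fun k => G k (I k s)) (by fun_prop) (st s) n,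
    fun k s s' h h0 h1 => ?_⟩
  · rw [Fn.of_ap (by fun_prop), Fn.of_ap (by fun_prop), loc _ x y hy]
  · simp only [i1, h0, h1, loc k s s' h]
    exact ((g1 k).2 _).2.2

/-- a comeagre part of a box contains the range of a continuous injection -/
theorem exists_inj {V : N M → Ca M → Prop} (hV : DfF M fun t : N M × Ca M => V t.1 t.2)
    (h : ∀ n x k, ∃ y j, Ag k x y ∧ ∀ u, Ag j y u → V n u) (x : Ca M) (k : N M) :
    ∃ g : Ca M → Ca M, Cont g ∧ Injective g ∧ ∀ s, Ag k x (g s) ∧ ∀ n, V n (g s) := by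
  have key : ∀ n (p : Ca M × N M) b, ∃ q : Ca M × N M, Ext (fun i => i) q p ∧ p.2 < q.2 ∧
      q.1 p.2 = b ∧ ∀ u, Ag q.2 q.1 u → V n u := by
    intro n p b
    obtain ⟨y', j, a3, a4⟩ := h n (upd p.1 p.2 b) (p.2 + 1)
    exact ⟨(y', max j (p.2 + 1)), ⟨p.2.lt_succ.le.trans (le_max_right _ _),
      ((ag_upd _ _ b).trans (ag_succ.1 a3).1).symm⟩, p.2.lt_succ.trans_le (le_max_right _ _),
      (ag_succ.1 a3).2.symm.trans (upd_self _ _ _), fun u hu => a4 u (hu.mono (le_max_left _ _))⟩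
  obtain ⟨f, g, -, h2, h3, -, -, h4, h5⟩ := exists_tree (c := fun i => i) (by fun_prop)
    (fun _ => le_rfl) (R := fun n q q' => (∀ u, Ag q.2 q.1 u → V n u) ∧
      (∀ u, Ag q'.2 q'.1 u → V n u) ∧ ∃ i, i < q.2 ∧ i < q'.2 ∧ q.1 i ≠ q'.1 i)
    (by simp only [imp_iff, all_iff]; fun_prop) (fun n p => by
      obtain ⟨q, a1, a2, a3, a4⟩ := key n p false
      obtain ⟨q', b1, b2, b3, b4⟩ := key n p true
      exact ⟨q, q', a1, b1, a4, b4, p.2, a2, b2, by simp [a3, b3]⟩) (x, k)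
  have h6 : ∀ k s s', Ag k s s' → s k = false → s' k = true → g s ≠ g s' := by
    intro k s s' a1 a2 a3 e
    obtain ⟨-, -, i, b1, b2, b3⟩ := h5 k s s' a1 a2 a3
    exact b3 (by rw [← h4 _ s i b1, ← h4 _ s' i b2, e])
  refine ⟨g, h2, fun s s' e => ?_, fun s => ⟨?_, fun n => ?_⟩⟩
  · by_contra hne
    obtain ⟨k, a1, a2⟩ := exists_split hne
    cases hs : s k
    · exact h6 k s s' a1 hs (by simpa [hs] using a2) e
    · exact h6 k s' s a1.symm (by simpa [hs] using a2) hs e.symm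
  · have := h4 0 s
    rw [h3] at this
    exact Ag.symm this
  · cases hs : s n
    · exact (h5 n s _ (ag_upd s n true) hs (upd_self _ _ _)).1 _ (Ag.symm (h4 _ s))
    · exact (h5 n _ s (ag_upd s n false).symm (upd_self _ _ _) hs).2.1 _ (Ag.symm (h4 _ s))

theorem inj_of_dense {V : N M → Ca M → Prop} (hV : DfF M fun p : N M × Ca M => V p.1 p.2)
    (ho : ∀ j x, V j x → ∃ k, ∀ y, Ag k x y → V j y) (hd : ∀ j x k, ∃ y, Ag k x y ∧ V j y)
    (u : Ca M) (k : N M) :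
    ∃ g, Cont g ∧ Injective g ∧ ∀ x, Ag k u (g x) ∧ ∀ j, V j (g x) :=
  exists_inj hV (fun n x k =>
    let ⟨y, a, b⟩ := hd n x k; let ⟨j, c⟩ := ho n y b; ⟨y, j, a, c⟩) u k

end Pool.Agent.MP_057cde_lc.TZ

end MrgPart2

-- ======== part 3: formerly Pool.Agent.MP_057cde_lc.zf.Scheme
section MrgPart3

/-! If `A` is Marczewski null then the complement of `NewIn A` is cofinal.  A condition fixes
finitely many columns of a real. -/

namespace Pool.Agent.MP_057cde_lc.TZ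

open Function
open scoped Classical

variable {M : Type} [Mdl M] {Z : Type} [Srt M Z]

/-- the column of a position -/
noncomputable def lv (i : N M) : N M := (N.unpair i).1

@[fun_prop] theorem df_lv : DfF M (lv : N M → N M) := by unfold lv; fun_prop

theorem lv_le (i : N M) : lv i ≤ i := (N.unpair_le i).1

theorem lv_pair (i j : N M) : lv (N.pair i j) = i := by simp [lv]

/-- dense and closed under extension -/
def DO (A : Ca M × N M → Prop) : Prop :=
  (∀ p, ∃ q, Ext lv q p ∧ A q) ∧ ∀ p q, A p → Ext lv q p → A q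

theorem DO.and {A B : Ca M × N M → Prop} (hA : DO A) (hB : DO B) : DO fun p => A p ∧ B p := by
  refine ⟨fun p => ?_, fun p q h hq => ⟨hA.2 p q h.1 hq, hB.2 p q h.2 hq⟩⟩
  obtain ⟨q, h1, h2⟩ := hA.1 p
  obtain ⟨r, h3, h4⟩ := hB.1 q
  exact ⟨r, h3.trans h1, hA.2 q r h2 h3, h4⟩

/-- the condition decides the property `Q` -/
def Dcs (Q : Ca M × N M → Prop) (q : Ca M × N M) : Prop := Q q ∨ ∀ r, Ext lv r q → ¬ Q r

theorem do_dcs {Q : Ca M × N M → Prop} (h : ∀ p q, Q p → Ext lv q p → Q q) : DO (Dcs Q) := by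
  refine ⟨fun p => ?_, fun p q a b => a.imp (h p q · b) fun c r d => c r (d.trans b)⟩
  by_cases hp : ∀ r, Ext lv r p → ¬ Q r
  · exact ⟨p, Ext.refl p, Or.inr hp⟩
  · push Not at hp
    exact hp.imp fun r a => ⟨a.1, Or.inl a.2⟩

namespace Fam

variable (F : Fam M)

/-- `a` is the limit of the approximation computed by functional `e` from `x` -/
def Lim (e : N M) (x a : Ca M) : Prop :=
  ∀ n, ∃ s₀, ∀ s, s₀ ≤ s → ∀ b, F.out e x (N.pair n s) b ↔ a n = b

/-- from stage `s₀` on the approximation to bit `n` never takes the value opposite to `i` -/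
def Stab (e n : N M) (i : Bool) (s₀ : N M) (x : Ca M) : Prop :=
  ∀ s, s₀ ≤ s → ¬ F.out e x (N.pair n s) (!i)

/-- the condition decides bit `n` of the limit -/
def Dec (e : N M) (p : Ca M × N M) (n : N M) (i : Bool) : Prop :=
  ∃ s₀, ∀ x, Mem lv p x → F.Stab e n i s₀ x

@[fun_prop] theorem df_lim {e : Z → N M} {x a : Z → Ca M} (he : DfF M e) (hx : DfF M x)
    (ha : DfF M a) : DfF M fun z => F.Lim (e z) (x z) (a z) := by
  simp only [Lim, imp_iff, all_iff]; fun_prop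

@[fun_prop] theorem df_stab {e n s : Z → N M} {i : Z → Bool} {x : Z → Ca M} (he : DfF M e)
    (hn : DfF M n) (hi : DfF M i) (hs : DfF M s) (hx : DfF M x) :
    DfF M fun z => F.Stab (e z) (n z) (i z) (s z) (x z) := by
  simp only [Stab, imp_iff, all_iff]; fun_prop

@[fun_prop] theorem df_dec {e n : Z → N M} {i : Z → Bool} {p : Z → Ca M × N M} (he : DfF M e)
    (hp : DfF M p) (hn : DfF M n) (hi : DfF M i) :
    DfF M fun z => F.Dec (e z) (p z) (n z) (i z) := by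
  simp only [Dec, imp_iff, all_iff]; fun_prop

/-- contradictory decisions -/
def Incons (e : N M) (q : Ca M × N M) : Prop := ∃ n, F.Dec e q n true ∧ F.Dec e q n false

/-- some bit is never decided -/
def Undec (e : N M) (q : Ca M × N M) : Prop := ∃ n, ∀ r, Ext lv r q → ∀ i, ¬ F.Dec e r n i

/-- all decisions are coded in a column of the condition -/
def Coded (e : N M) (q : Ca M × N M) : Prop :=
  ∃ c, c < q.2 ∧ ∀ r, Ext lv r q → ∀ n i, F.Dec e r n i → q.1 (N.pair c n) = i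

/-- the pair is split, or can never be split -/
def PairOk (e : N M) (p q : Ca M × N M) : Prop :=
  (∃ n i, F.Dec e p n i ∧ F.Dec e q n (!i)) ∨
    ∀ p' q', Ext lv p' p → Ext lv q' q → ∀ n i, ¬ (F.Dec e p' n i ∧ F.Dec e q' n (!i))

/-- the dense sets -/
def Task (e n s : N M) (q : Ca M × N M) : Prop :=
  Dcs (fun r => ∀ x, Mem lv r x → ¬ F.Stab e n true s x) q ∧
  Dcs (fun r => ∀ x, Mem lv r x → ¬ F.Stab e n false s x) q ∧
  Dcs (fun r => ∃ i, F.Dec e r n i) q ∧ Dcs (F.Incons e) q ∧ Dcs (F.Undec e) q ∧ Dcs (F.Coded e) q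

@[fun_prop] theorem df_pairOk {e : Z → N M} {p q : Z → Ca M × N M} (he : DfF M e)
    (hp : DfF M p) (hq : DfF M q) : DfF M fun z => F.PairOk (e z) (p z) (q z) := by
  simp only [PairOk, imp_iff, all_iff]; fun_prop

@[fun_prop] theorem df_task {e n s : Z → N M} {q : Z → Ca M × N M} (he : DfF M e)
    (hn : DfF M n) (hs : DfF M s) (hq : DfF M q) :
    DfF M fun z => F.Task (e z) (n z) (s z) (q z) := by
  simp only [Task, Dcs, Incons, Undec, Coded, imp_iff, all_iff]; fun_prop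

variable {F} {e n : N M} {p q : Ca M × N M} {i : Bool}

theorem Dec.mono (h : F.Dec e p n i) (hq : Ext lv q p) : F.Dec e q n i :=
  h.imp fun _ hs x hx => hs x (hq.mem hx)

theorem Dec.eq (h : F.Dec e p n i) {x a : Ca M} (hx : Mem lv p x) (ha : F.Lim e x a) :
    a n = i := by
  obtain ⟨s₀, hs⟩ := h
  obtain ⟨s₁, hs₁⟩ := ha n
  by_contra hne
  exact hs x hx (max s₀ s₁) (le_max_left _ _)
    ((hs₁ _ (le_max_right _ _) _).2 (Bool.eq_not.2 hne))

theorem do_task (e n s : N M) : DO (F.Task e n s) :=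
  (do_dcs fun _ _ a b x c => a x (b.mem c)).and <| (do_dcs fun _ _ a b x c => a x (b.mem c)).and <|
  (do_dcs fun _ _ a b => a.imp fun _ c => c.mono b).and <|
  (do_dcs fun _ _ a b => a.imp fun _ c => ⟨c.1.mono b, c.2.mono b⟩).and <|
  (do_dcs fun _ _ a b => a.imp fun _ c r d => c r (d.trans b)).and <|
  do_dcs fun _ _ ⟨c, a, a'⟩ b => ⟨c, a.trans_le b.1, fun r d n i k => by
    rw [b.2 _ (by rwa [lv_pair])]
    exact a' r (d.trans b) n i k⟩

theorem stab_of {s : N M} (h : ∀ r, Ext lv r q → ¬ ∀ x, Mem lv r x → ¬ F.Stab e n i s x)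
    {x : Ca M} (hx : Mem lv q x) : F.Stab e n i s x := by
  intro t ht ho
  obtain ⟨k, hk⟩ := F.opn ho
  refine h (x, max q.2 k) ⟨le_max_left _ _, hx⟩ fun y hy h' => h' t ht (hk y fun m hm => ?_)
  exact (hy m ((lv_le m).trans_lt (hm.trans_le (le_max_right _ _)))).symm

theorem PairOk.mono {p' q' : Ca M × N M} (h : F.PairOk e p q) (hp : Ext lv p' p)
    (hq : Ext lv q' q) : F.PairOk e p' q' :=
  h.imp (fun ⟨n, i, h1, h2⟩ => ⟨n, i, h1.mono hp, h2.mono hq⟩)
    fun h a b ha hb => h a b (ha.trans hp) (hb.trans hq)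

theorem pairOk_dense (k : N M) (p q : Ca M × N M) :
    ∃ p' q', Ext lv p' p ∧ Ext lv q' q ∧ ∀ e, e < k → F.PairOk e p' q' := by
  refine N.ind (P := fun k => ∃ p' q', Ext lv p' p ∧ Ext lv q' q ∧ ∀ e, e < k → F.PairOk e p' q')
    (by simp only [imp_iff, all_iff]; fun_prop)
    ⟨p, q, Ext.refl p, Ext.refl q, fun e he => absurd he zero_le.not_gt⟩ ?_ k
  rintro k ⟨p₁, q₁, a1, a2, a3⟩
  obtain ⟨p₂, q₂, b1, b2, b3⟩ : ∃ p₂ q₂, Ext lv p₂ p₁ ∧ Ext lv q₂ q₁ ∧ F.PairOk k p₂ q₂ := by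
    by_cases h : ∀ p' q', Ext lv p' p₁ → Ext lv q' q₁ →
      ∀ n i, ¬ (F.Dec k p' n i ∧ F.Dec k q' n (!i))
    · exact ⟨p₁, q₁, Ext.refl _, Ext.refl _, Or.inr h⟩
    · simp only [not_forall, not_not] at h
      obtain ⟨p', q', h1, h2, n, i, h3⟩ := h
      exact ⟨p', q', h1, h2, Or.inl ⟨n, i, h3⟩⟩
  refine ⟨p₂, q₂, b1.trans a1, b2.trans a2, fun e he => ?_⟩
  rcases (N.lt_succ_iff.1 he).lt_or_eq with he | rfl
  · exact (a3 e he).mono b1 b2
  · exact b3

theorem exists_dec_split (h1 : ¬ F.Undec e q) (h2 : ∀ r, Ext lv r p → ¬ F.Coded e r) :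
    ∃ p' q' n i, Ext lv p' p ∧ Ext lv q' q ∧ F.Dec e p' n i ∧ F.Dec e q' n (!i) := by
  by_contra h3
  push Not at h3
  let y : Ca M := ⟨fun m => if lv m < p.2 then p.1 m else
    decide (∃ r, Ext lv r q ∧ F.Dec e r (N.unpair m).2 true), by fun_prop⟩
  have hle : Ext lv (y, p.2 + 1) p := ⟨p.2.lt_succ.le, fun m hm => if_pos hm⟩
  refine h2 _ hle ⟨p.2, p.2.lt_succ, fun r hr n i hi => ?_⟩
  simp only [y, lv_pair, lt_irrefl, if_false, N.unpair_pair]
  cases i
  · exact decide_eq_false fun ⟨r', a1, a2⟩ => h3 r r' n false (hr.trans hle) a1 hi a2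
  · simp only [Undec, not_exists, not_forall, not_not] at h1
    obtain ⟨r', a1, j, a2⟩ := h1 n
    cases j
    · exact absurd a2 (h3 r r' n true (hr.trans hle) a1 hi)
    · exact decide_eq_true ⟨r', a1, a2⟩

theorem Good.exists_avoid (hF : F.Good) {A : Ca M → Prop} (dA : DfF M A)
    (hA : ∀ f, Cont f → Injective f → ∃ g, Cont g ∧ Injective g ∧ ∀ s, ¬ A (f (g s)))
    (z : Ca M) : ∃ x, F.Le z x ∧ ¬ F.NewIn A x := by
  obtain ⟨f, g, df, cg, h0, h1, h2, hmem, h3⟩ := exists_tree df_lv lv_le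
    (R := fun k q q' => F.Task (lv k) (lv (N.unpair k).2) (N.unpair (N.unpair k).2).2 q ∧
      F.Task (lv k) (lv (N.unpair k).2) (N.unpair (N.unpair k).2).2 q' ∧
      ∀ e, e < k → F.PairOk e q q')
    (by simp only [imp_iff, all_iff]; fun_prop) (fun k p => by
      obtain ⟨q, a1, a2⟩ := (do_task (F := F) (lv k) (lv (N.unpair k).2)
        (N.unpair (N.unpair k).2).2).1 p
      obtain ⟨r, r', b1, b2, b3⟩ := pairOk_dense (F := F) k q q
      exact ⟨r, r', b1.trans a1, b2.trans a1, (do_task _ _ _).2 _ _ a2 b1,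
        (do_task _ _ _).2 _ _ a2 b2, b3⟩)
    (⟨fun i => z (N.unpair i).2, by fun_prop⟩, 0 + 1)
  have dg := cg.df
  have h4 : ∀ e n t s, F.Task e n t (f (N.pair e (N.pair n t) + 1) s) := by
    intro e n t s
    cases hs : s (N.pair e (N.pair n t))
    · simpa only [lv_pair, N.unpair_pair] using
        (h3 _ s _ (ag_upd s _ true) hs (upd_self _ _ _)).1
    · simpa only [lv_pair, N.unpair_pair] using
        (h3 _ _ s (ag_upd s _ false).symm (upd_self _ _ _) hs).2.1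
  have hdec : ∀ e s a, F.Lim e (g s) a → ∀ n m₀, ∃ m, m₀ ≤ m ∧ F.Dec e (f m s) n (a n) := by
    intro e s a ha n m₀
    obtain ⟨s₀, hs₀⟩ := ha n
    have h5 : Dcs (fun r => ∀ x, Mem lv r x → ¬ F.Stab e n (a n) s₀ x)
        (f (N.pair e (N.pair n s₀) + 1) s) := by
      cases a n
      · exact (h4 e n s₀ s).2.1
      · exact (h4 e n s₀ s).1
    rcases h5 with h | h
    · exact absurd (fun t ht ho => by simpa using (hs₀ t ht _).1 ho) (h _ (hmem _ s))
    · exact ⟨max m₀ _, le_max_left _ _,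
        Dec.mono ⟨s₀, fun x hx => stab_of h hx⟩ (h1 s _ _ (le_max_right _ _))⟩
  have step : ∀ e t (H : Ca M → Ca M), Cont H → Injective H →
      (∀ s, Ag (N.pair e (N.pair 0 0) + 1) t (H s)) → ∃ h, Cont h ∧ Injective h ∧
        ∀ s a, F.Lim e (g (H (h s))) a → ¬ A a ∨ F.Le a (g (H (h s))) := by
    intro e t H cH iH hH
    obtain ⟨-, -, -, t1, t2, t3⟩ := h4 e 0 0 t
    have he : e < N.pair e (N.pair 0 0) + 1 := N.lt_succ_iff.2 (N.left_le_pair _ _)
    generalize N.pair e (N.pair 0 0) + 1 = m at *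
    have hle : ∀ s k, m ≤ k → Ext lv (f k (H s)) (f m t) :=
      fun s k hk => h2 m t _ (hH s) ▸ h1 _ _ _ hk
    rcases t1 with ⟨n, d1, d2⟩ | t1
    · refine ⟨_, Cont.id, injective_id, fun s a ha => ?_⟩
      have e1 := d1.eq ((hle s m le_rfl).mem (hmem m _)) ha
      have e2 := d2.eq ((hle s m le_rfl).mem (hmem m _)) ha
      simp [e1] at e2
    rcases t2 with ⟨n, d⟩ | t2
    · refine ⟨_, Cont.id, injective_id, fun s a ha => ?_⟩
      obtain ⟨k, hk, hd⟩ := hdec _ _ a ha n m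
      exact absurd hd (d _ (hle s k hk) _)
    rcases t3 with ⟨c, hc, d⟩ | t3
    · refine ⟨_, Cont.id, injective_id, fun s a ha => Or.inr ?_⟩
      refine (Fn.ext fun n => ?_ : TZ.col (g (H s)) c = a) ▸ hF.col _ c
      obtain ⟨k, hk, hd⟩ := hdec _ _ a ha n m
      rw [col_ap, (hle s m le_rfl).mem (hmem m _) _ (by rwa [lv_pair]), d _ (hle s k hk) n _ hd]
    have dH := cH.df
    let φ : Ca M → Ca M := fun s => ⟨fun n => decide (∃ k, F.Dec e (f k (H s)) n true),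
      by fun_prop⟩
    have dφ : DfF M φ := DfF.of_ap (by dsimp only [φ]; fun_prop)
    have hcons : ∀ s k n i, F.Dec e (f k (H s)) n i → φ s n = i := by
      intro s k n i hi
      cases i
      · exact decide_eq_false fun ⟨j, hj⟩ => t1 _ (hle s (max m (max j k)) (le_max_left _ _))
          ⟨n, hj.mono (h1 _ _ _ (by order)), hi.mono (h1 _ _ _ (by order))⟩
      · exact decide_eq_true ⟨k, hi⟩
    clear_value φ
    have key : ∀ k s s', Ag k (H s) (H s') → H s k = false → H s' k = true → φ s ≠ φ s' := by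
      intro k s s' a1 a2 a3 a4
      have hk : m ≤ k := not_lt.1 fun c => by
        rw [← hH s k c, hH s' k c, a3] at a2
        simp at a2
      have hk' := hk.trans k.lt_succ.le
      rcases (h3 k _ _ a1 a2 a3).2.2 e (he.trans_le hk) with ⟨n, b, b1, b2⟩ | h
      · have e1 := hcons _ _ n _ b1
        rw [a4, hcons _ _ n _ b2] at e1
        simp at e1
      · obtain ⟨r, r', n, b, b1, b2, b3⟩ := exists_dec_split (t2 _ (hle s' _ hk'))
          fun r hr => t3 r (hr.trans (hle s _ hk'))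
        exact h r r' b1 b2 n b b3
    obtain ⟨h, c1, c2, c3⟩ := hA φ (Cont.of_bit dφ fun n => by
      obtain ⟨k, hk⟩ := cH.uc (max m (N.pair e (N.pair n 0) + 1))
      refine ⟨k, fun x y a => ?_⟩
      rcases (h4 e n 0 (H x)).2.2.1 with ⟨i, b⟩ | b
      · have b' := b.mono (h1 _ _ _ (le_max_right m _))
        rw [hcons _ _ _ _ b', hcons _ _ _ _ (h2 _ _ _ (hk x y a) ▸ b')]
      · exact absurd ⟨n, fun r c i d => b r (c.trans (h1 _ _ _ (le_max_right m _))) ⟨i, d⟩⟩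
          (t2 _ (hle x _ (le_max_left _ _)))) fun s s' a => by
      by_contra hne
      obtain ⟨k, a1, a2⟩ := exists_split fun c => hne (iH c)
      cases hs : H s k
      · exact key k s s' a1 hs (by simpa [hs] using a2) a
      · exact key k s' s a1.symm (by simpa [hs] using a2) hs a.symm
    refine ⟨h, c1, c2, fun s a ha => Or.inl ?_⟩
    refine (Fn.ext fun n => ?_ : φ (h s) = a) ▸ c3 s
    obtain ⟨k, -, hd⟩ := hdec _ _ a ha n m
    exact hcons _ _ _ _ hd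
  obtain ⟨H, -, hH⟩ := dc (M := M) (Y := Fn M (Ca M) (Ca M))
    (Q := fun _ H => (∀ n, ∃ k, ∀ x y, Ag k x y → Ag n (H x) (H y)) ∧ ∀ x y, H x = H y → x = y)
    (R := fun e H H' => ∀ s, (∃ s', H s' = H' s) ∧
      ∀ a, F.Lim e (g (H' s)) a → ¬ A a ∨ F.Le a (g (H' s)))
    (by simp only [imp_iff, all_iff]; fun_prop) (by simp only [imp_iff, all_iff]; fun_prop)
    (fun e H ⟨a1, a2⟩ => by
      obtain ⟨k, hk⟩ := a1 (N.pair e (N.pair 0 0) + 1)
      obtain ⟨r, b1, b2, b3⟩ := exists_inj_box z k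
      have cH : Cont fun s => H (r s) := Cont.comp ⟨H.df, a1⟩ b1
      have iH : Injective fun s => H (r s) := fun x y a => b2 (a2 _ _ a)
      obtain ⟨h, c1, c2, c3⟩ := step e (H z) _ cH iH fun s => hk _ _ (b3 s)
      exact ⟨⟨fun s => H (r (h s)), (cH.comp c1).df⟩, ⟨(cH.comp c1).uc, fun x y a => c2 (iH a)⟩,
        fun s => ⟨⟨_, rfl⟩, c3 s⟩⟩)
    (y₀ := ⟨fun s => s, DfF.id⟩) ⟨Cont.id.uc, fun _ _ a => a⟩
  have := H.df
  obtain ⟨s, hs⟩ := cluster (F := fun n x => ∃ s, H n s = x) (by fun_prop)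
    (fun n x ⟨s, a⟩ => a ▸ ((hH n).2 s).1) fun n => ⟨_, z, rfl⟩
  refine ⟨g s, ?_, ?_⟩
  · refine (Fn.ext fun n => ?_ : TZ.col (g s) 0 = z) ▸ hF.col _ 0
    rw [col_ap, hmem 0 s _ (by rw [h0, lv_pair]; exact N.lt_succ 0), h0]
    simp
  · rintro ⟨a, a1, ⟨u, ⟨e, a2⟩, a3⟩, a4⟩
    obtain ⟨t, rfl⟩ := Cont.closed_range ⟨(H (e + 1)).df, (hH (e + 1)).1.1⟩ (y := s) fun k =>
      let ⟨_, ⟨t, b1⟩, b2⟩ := hs (e + 1) k; ⟨t, b1 ▸ b2.symm⟩
    refine (((hH e).2 t).2 a fun n => ?_).elim (fun b => b a1) a4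
    obtain ⟨s₀, b⟩ := a3 n
    exact ⟨s₀, fun s c v => b s c ▸ a2 _ v⟩

/-- an uncountable set meets the range of every continuous injection into the range of some
continuous injection -/
theorem Good.not_null (hF : F.Good) {A : Ca M → Prop} (dA : DfF M A) (hA : ¬ Ctb M A) :
    ∃ f, Cont f ∧ Injective f ∧ ∀ g, Cont g → Injective g → ∃ s, A (f (g s)) := by
  by_contra h
  push Not at h
  obtain ⟨z, hz⟩ := hF.cone_new dA hA
  obtain ⟨x, h1, h2⟩ := hF.exists_avoid dA h z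
  exact h2 (hz x h1)

theorem Good.psp_of_no_bern (hF : F.Good)
    (hB : ∀ B : Ca M → Prop, DfF M B → ∃ g, Cont g ∧ Injective g ∧
      ((∀ s, B (g s)) ∨ ∀ s, ¬ B (g s))) {A : Ca M → Prop} (dA : DfF M A) :
    Ctb M A ∨ ∃ g, Cont g ∧ Injective g ∧ ∀ s, A (g s) := by
  refine or_iff_not_imp_left.2 fun hA => ?_
  obtain ⟨f, a1, a2, a3⟩ := hF.not_null dA hA
  obtain ⟨g, b1, b2, b3 | b3⟩ := hB (fun s => A (f s)) (dA.comp a1.df)
  · exact ⟨_, a1.comp b1, a2.comp b2, b3⟩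
  · obtain ⟨s, hs⟩ := a3 g b1 b2
    exact absurd hs (b3 s)

end Fam

end Pool.Agent.MP_057cde_lc.TZ

end MrgPart3

-- ======== part 4: formerly Pool.Agent.MP_057cde_lc.zf.Mix
section MrgPart4

/-! Mixing two reals: eight candidates, one of which is generic for both sides. -/

namespace Pool.Agent.MP_057cde_lc.TZ.B

open Set

variable {M : Type} [Mdl M] {A : Type} [Srt M A]

theorem df_fin {X Y Z : Type} [Srt M X] [Srt M Y] [Srt M Z] [Finite Z] {g : Z → X → Y}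
    (hg : ∀ o, DfF M (g o)) : DfF M fun p : Z × X => g p.1 p.2 :=
  (DfF.of_fin hg).comp (g := fun p : Z × X => (p.2, p.1)) (by fun_prop)

/-- the colour of position `i` coded in `w` -/
noncomputable def clr (w : Ca M) (i : N M) : Bool × Bool := (ev (ev w) i, od (ev w) i)

/-- the content of position `i` coded in `w` -/
noncomputable def cnt (w : Ca M) (i : N M) : Bool := od w i

/-- the run of `w` through `i` sees two colours of `v` -/
def Long (w v : Ca M) (i : N M) : Prop :=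
  ∃ j, (∀ k, min i j ≤ k → k ≤ max i j → clr w k = clr w i) ∧ clr v j ≠ clr v i

/-- indices of the candidates -/
abbrev Idx : Type := Bool × Bool × Bool

/-- the positions where the candidate copies its first argument -/
def Fst (r : Idx) (w v : Ca M) (i : N M) : Prop :=
  (r.1 = true ∧ clr v i ≠ r.2) ∨ (r.1 = false ∧ clr w i = r.2 ∧ Long w v i)

section

variable {w v : A → Ca M} {i : A → N M} (hw : DfF M w) (hi : DfF M i)
include hw hi

@[fun_prop] theorem df_clr : DfF M fun a => clr (w a) (i a) := by unfold clr; fun_prop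

@[fun_prop] theorem df_cnt : DfF M fun a => cnt (w a) (i a) := by unfold cnt; fun_prop

@[fun_prop] theorem df_fst (hv : DfF M v) {r : A → Idx} (hr : DfF M r) :
    DfF M fun a => Fst (r a) (w a) (v a) (i a) := by
  simp only [Fst, Long, imp_iff, all_iff]; fun_prop

end

open Classical in
/-- the candidates -/
noncomputable def mix (r : Idx) (w v : Ca M) : Ca M :=
  ⟨fun i => if Fst r w v i then cnt w i else cnt v i, by fun_prop⟩

@[fun_prop] theorem df_mix {w v : A → Ca M} {r : A → Idx} (hr : DfF M r) (hw : DfF M w)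
    (hv : DfF M v) : DfF M fun a => mix (r a) (w a) (v a) :=
  DfF.of_ap (by dsimp only [mix]; fun_prop)

/-- for each colour some interval of that colour kills all bad candidates -/
def GenP (w : Ca M) (c : Idx → Ca M) (G : Idx → Prop) : Prop :=
  ∀ k : Bool × Bool, ∃ a b : N M, (∀ i, a ≤ i → i < b → clr w i = k) ∧
    ∀ r, ¬ G r → ∃ i, a ≤ i ∧ i < b ∧ c r i ≠ cnt w i

@[fun_prop] theorem df_genP {w : A → Ca M} {c : A → Idx → Ca M} {G : A → Idx → Prop}
    (hw : DfF M w) (hc : DfF M fun z : A × Idx => c z.1 z.2)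
    (hG : DfF M fun z : A × Idx => G z.1 z.2) :
    DfF M fun a => GenP (w a) (fun r => c a r) fun r => G a r := by
  simp only [GenP, imp_iff, all_iff]; fun_prop

theorem fst_of_ne {r : Idx} {w v : Ca M} {i : N M} (h : mix r w v i ≠ cnt v i) : Fst r w v i := by
  by_contra hc
  exact h (if_neg hc)

theorem not_fst_of_ne {r : Idx} {w v : Ca M} {i : N M} (h : mix r w v i ≠ cnt w i) :
    ¬ Fst r w v i := fun hc => h (if_pos hc)

theorem common {w v : Ca M} {G G' : Idx → Prop} (h : GenP w (fun r => mix r w v) G)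
    (h' : GenP v (fun r => mix r w v) G') : ∃ r, G r ∧ G' r := by
  by_contra hn
  push Not at hn
  have hB : ∀ c, G' (true, c) := by
    intro c
    by_contra hc
    obtain ⟨a, b, h1, h2⟩ := h' c
    obtain ⟨i, a1, a2, a3⟩ := h2 _ hc
    rcases fst_of_ne a3 with d | d
    · exact d.2 (h1 i a1 a2)
    · simpa using d.1
  have hA : ∀ c, G (false, c) := by
    intro c
    by_contra hc
    obtain ⟨a, b, h1, h2⟩ := h c
    obtain ⟨i, a1, a2, a3⟩ := h2 _ hc
    obtain ⟨j, b1, b2, b3⟩ := h2 (true, !(clr v i).1, (clr v i).2) fun d => hn _ d (hB _)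
    refine not_fst_of_ne a3 (Or.inr ⟨rfl, h1 i a1 a2, j, fun k c1 c2 => ?_, fun d => ?_⟩)
    · rw [h1 i a1 a2, h1 k ((le_min a1 b1).trans c1) (c2.trans_lt (max_lt a2 b2))]
    · refine not_fst_of_ne b3 (Or.inl ⟨rfl, fun e => ?_⟩)
      rw [d] at e
      simpa using congrArg Prod.fst e
  obtain ⟨a, b, h1, h2⟩ := h' (true, true)
  have h3 : ∀ c, ∃ i, a ≤ i ∧ i < b ∧ clr w i = c ∧ Long w v i := by
    intro c
    obtain ⟨i, a1, a2, a3⟩ := h2 (false, c) (hn _ (hA c))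
    rcases fst_of_ne a3 with d | d
    · simpa using d.1
    · exact ⟨i, a1, a2, d.2⟩
  choose i i1 i2 i3 i4 using h3
  have ne : ∀ c c', c ≠ c' → i c ≠ i c' := fun c c' d e => d (by rw [← i3 c, e, i3 c'])
  have key : ∀ c c' c'', c ≠ c' → c'' ≠ c' → i c < i c' → i c' < i c'' → False := by
    intro c c' c'' d1 d2 d3 d4
    obtain ⟨j, e1, e2⟩ := i4 c'
    have := i1 c
    have := i2 c''
    by_cases f1 : j < a
    · exact d1 (by rw [← i3 c, e1 (i c) (by order) (by order), i3])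
    by_cases f2 : b ≤ j
    · exact d2 (by rw [← i3 c'', e1 (i c'') (by order) (by order), i3])
    exact e2 (by rw [h1 j (by order) (by order), h1 _ (i1 c') (i2 c')])
  rcases lt_or_gt_of_ne (ne (false, false) (false, true) (by simp)) with n1 | n1 <;>
    rcases lt_or_gt_of_ne (ne (false, false) (true, false) (by simp)) with n2 | n2 <;>
    rcases lt_or_gt_of_ne (ne (false, true) (true, false) (by simp)) with n3 | n3
  · exact key _ _ _ (by simp) (by simp) n1 n3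
  · exact key _ _ _ (by simp) (by simp) n2 n3
  · exact key _ _ _ (by simp) (by simp) n2 n1
  · exact key _ _ _ (by simp) (by simp) n2 n1
  · exact key _ _ _ (by simp) (by simp) n1 n2
  · exact key _ _ _ (by simp) (by simp) n1 n2
  · exact key _ _ _ (by simp) (by simp) n3 n2
  · exact key _ _ _ (by simp) (by simp) n3 n1

section meas

variable {w v : Ca M → Ca M}

theorem meas_clr (hw : Meas w) (i : N M) (k : Bool × Bool) : Ms fun x => clr (w x) i = k :=
  ((ms_eq (hw.ev.ev.bit i) ms_const).and (ms_eq (hw.ev.od.bit i) ms_const)).congr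
    fun _ => Prod.ext_iff

theorem meas_clr_eq (hw : Meas w) (i j : N M) : Ms fun x => clr (w x) i = clr (w x) j :=
  (Ms.ex_fin fun k => (meas_clr hw i k).and (meas_clr hw j k)).congr fun _ => by simp [eq_comm]

theorem meas_mix (r : Idx) (hw : Meas w) (hv : Meas v) : Meas fun x => mix r (w x) (v x) := by
  have := hw.df
  have := hv.df
  refine ⟨by fun_prop, fun i => ?_⟩
  have h : Ms fun x => Fst r (w x) (v x) i :=
    (ms_const.and (meas_clr hv i _).not).or (ms_const.and ((meas_clr hw i _).and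
      (Ms.ex (by simp only [imp_iff, all_iff]; fun_prop) fun j =>
        (Ms.all (by simp only [imp_iff]; fun_prop) fun k =>
          ms_const.imp (ms_const.imp (meas_clr_eq hw k i))).and (meas_clr_eq hv j i).not)))
  refine ((h.and (hw.od.bit i)).or (h.not.and (hv.od.bit i))).congr fun x => ?_
  by_cases a : Fst r (w x) (v x) i <;> simp [mix, cnt, a]

theorem meas_genP (hw : Meas w) {c : Idx → Ca M → Ca M} (hc : ∀ r, Meas (c r))
    {G : Idx → Ca M → Prop} (hG : ∀ r, Ms (G r)) :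
    Ms fun x => GenP (w x) (fun r => c r x) fun r => G r x := by
  have := hw.df
  have := df_fin fun r => (hc r).df
  have := df_fin fun r => (hG r).df
  exact Ms.all_fin fun _ => Ms.ex (by simp only [imp_iff, all_iff]; fun_prop) fun _ =>
    Ms.ex (by simp only [imp_iff, all_iff]; fun_prop) fun _ =>
    (Ms.all (by simp only [imp_iff]; fun_prop) fun i => ms_const.imp (ms_const.imp
      (meas_clr hw i _))).and
    (Ms.all_fin fun r => (hG r).not.imp (Ms.ex (by fun_prop) fun i =>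
      ms_const.and (ms_const.and (ms_eq ((hc r).bit i) (hw.od.bit i)).not)))

end meas

/-- nowhere dense -/
def Thin (Z : Set (Ca M)) : Prop := ∀ s, Clp s → s.Nonempty →
  ∃ s', Clp s' ∧ s' ⊆ s ∧ s'.Nonempty ∧ ∀ u ∈ Z, u ∉ s'

theorem Thin.mono {Z Z' : Set (Ca M)} (h : Thin Z) (e : Z' ⊆ Z) : Thin Z' := fun s a b =>
  (h s a b).imp fun _ c => ⟨c.1, c.2.1, c.2.2.1, fun u d => c.2.2.2 u (e d)⟩

theorem Thin.union {Z Z' : Set (Ca M)} (h : Thin Z) (h' : Thin Z') : Thin (Z ∪ Z') := by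
  intro s a b
  obtain ⟨s', a1, a2, a3, a4⟩ := h s a b
  obtain ⟨s'', b1, b2, b3, b4⟩ := h' s' a1 a3
  exact ⟨s'', b1, b2.trans a2, b3, fun u c => c.elim (fun d e => a4 u d (b2 e)) (b4 u)⟩

theorem Thin.fin {ι : Type} [Finite ι] {Z : ι → Set (Ca M)} (h : ∀ r, Thin (Z r)) :
    Thin {u | ∃ r, u ∈ Z r} := by
  classical
  have := Fintype.ofFinite ι
  have key : ∀ S : Finset ι, Thin {x | ∃ i ∈ S, x ∈ Z i} := fun S => by
    induction S using Finset.induction_on with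
    | empty => exact fun s a b => ⟨s, a, Subset.rfl, b, by simp⟩
    | insert i S _ ih => exact ((h i).union ih).mono fun _ => by simp
  exact (key Finset.univ).mono fun _ => by simp

theorem Thin.flip {Z : Set (Ca M)} (h : Thin Z) (a : N M) : Thin {u | upd u a (!u a) ∈ Z} := by
  have hc : Cont fun u : Ca M => upd u a (!u a) := Cont.of_bit (by fun_prop) fun n =>
    ⟨n + 1, fun x y b => by
      by_cases e : n = a
      · rw [e, upd_self, upd_self, b a (e ▸ n.lt_succ)]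
      · rw [upd_ne _ _ e, upd_ne _ _ e, b n n.lt_succ]⟩
  have hi : ∀ u : Ca M, upd (upd u a (!u a)) a (!upd u a (!u a) a) = u := fun u =>
    Fn.ext fun n => by
      by_cases e : n = a
      · rw [e, upd_self, upd_self, Bool.not_not]
      · rw [upd_ne _ _ e, upd_ne _ _ e]
  intro s a1 ⟨x, a2⟩
  obtain ⟨s', b1, b2, ⟨y, b3⟩, b4⟩ := h _ (a1.preimage hc) ⟨_, by rwa [mem_preimage, hi x]⟩
  exact ⟨_, b1.preimage hc, fun z c => by simpa only [mem_preimage, hi] using b2 c,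
    ⟨_, by rwa [mem_preimage, hi y]⟩, fun u c => b4 _ c⟩

theorem kill {Z : Set (Ca M)} (dZ : Ds M Z) (hZ : Thin Z) (a : N M) :
    ∃ (b : N M) (τ : Ca M), ∀ u ∈ Z, ∃ i, a ≤ i ∧ i < b ∧ u i ≠ τ i := by
  have h : Thin {u : Ca M | ∃ u' ∈ Z, ∀ i, a ≤ i → u' i = u i} := by
    refine N.ind (P := fun a => Thin {u : Ca M | ∃ u' ∈ Z, ∀ i, a ≤ i → u' i = u i})
      (by simp only [Thin, imp_iff, all_iff]; fun_prop) (hZ.mono ?_) (fun a ih => ?_) a
    · rintro u ⟨u', b, c⟩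
      exact Fn.ext (fun i => c i zero_le) ▸ b
    · refine (ih.union (ih.flip a)).mono ?_
      rintro u ⟨u', b, c⟩
      by_cases e : u' a = u a
      · exact Or.inl ⟨u', b, fun i d => d.lt_or_eq.elim (fun d => c i (N.succ_le_iff.2 d))
          fun d => d ▸ e⟩
      · refine Or.inr ⟨u', b, fun i d => d.lt_or_eq.elim (fun d => ?_) fun d => ?_⟩
        · rw [upd_ne _ _ d.ne', c i (N.succ_le_iff.2 d)]
        · rw [← d, upd_self]
          exact Bool.eq_not_iff.2 e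
  obtain ⟨s, a1, -, ⟨τ, a2⟩, a3⟩ := h _ clp_univ univ_nonempty
  obtain ⟨b, hb⟩ := a1.opn.ex τ a2
  refine ⟨b, τ, fun u hu => ?_⟩
  by_contra hc
  push Not at hc
  have := u.df
  have := τ.df
  refine a3 ⟨fun i => if i < a then τ i else u i, by fun_prop⟩
    ⟨u, hu, fun i d => (if_neg d.not_gt).symm⟩ (hb _ fun i d => ?_)
  by_cases e : i < a
  · exact (if_pos e).symm
  · exact ((if_neg e).trans (hc i (not_lt.1 e) d)).symm

theorem exists_killer {ι : Type} [Finite ι] {Z : ι → Set (Ca M)} (dZ : ∀ r, Ds M (Z r))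
    (hZ : ∀ r, Thin (Z r)) (k : Bool × Bool) {s₀ : Set (Ca M)} (hs : Clp s₀) (hne : s₀.Nonempty) :
    ∃ s, Clp s ∧ s ⊆ s₀ ∧ s.Nonempty ∧ ∃ a b : N M, ∀ v ∈ s,
      (∀ i, a ≤ i → i < b → clr v i = k) ∧
      ∀ r, ∀ u ∈ Z r, ∃ i, a ≤ i ∧ i < b ∧ u i ≠ cnt v i := by
  obtain ⟨v₀, h0⟩ := hne
  obtain ⟨a, ha⟩ := hs.opn.ex v₀ h0
  obtain ⟨b, τ, h⟩ := kill (Z := {u | ∃ r, u ∈ Z r}) (DfF.ex_fin dZ) (Thin.fin hZ) a
  have := τ.df
  let g : Ca M → (N M → Bool) → Ca M := fun x f => Fn.of M fun i => if i < a then x i else f i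
  have e : ∀ (x : Ca M) f, DfF M f → ∀ i, g x f i = if i < a then x i else f i := fun x f d i =>
    Fn.of_ap (by have := x.df; fun_prop) i
  have e1 : ∀ (x : Ca M) f, DfF M f → Ag a x (g x f) := fun x f d i c => by rw [e x f d, if_pos c]
  let v₁ := join (join (g (ev (ev v₀)) fun _ => k.1) (g (od (ev v₀)) fun _ => k.2)) (g (od v₀) τ)
  have h1 : Ag a v₀ v₁ := by
    refine Ag.of_ev_od (Ag.of_ev_od ?_ ?_) ?_ <;> simp only [v₁, ev_join, od_join] <;>
      exact e1 _ _ (by fun_prop)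
  refine ⟨_, (clp_box v₁ a).inter ((((clp_box (ev (ev v₁)) b).preimage Cont.id.ev.ev).inter
    ((clp_box (od (ev v₁)) b).preimage Cont.id.ev.od)).inter
    ((clp_box (od v₁) b).preimage Cont.id.od)), fun v hv => ha v (h1.trans hv.1),
    ⟨v₁, Ag.refl _ _, ⟨Ag.refl _ _, Ag.refl _ _⟩, Ag.refl _ _⟩, a, b,
    fun v hv => ⟨fun i h1 h2 => ?_, fun r u hu => ?_⟩⟩
  · unfold clr
    rw [← hv.2.1.1 i h2, ← hv.2.1.2 i h2]
    simp only [v₁, ev_join, od_join]
    rw [e _ _ (by fun_prop), e _ _ (by fun_prop), if_neg h1.not_gt, if_neg h1.not_gt]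
  · obtain ⟨i, a1, a2, a3⟩ := h u ⟨r, hu⟩
    refine ⟨i, a1, a2, ?_⟩
    unfold cnt
    rw [← hv.2.2 i a2]
    simp only [v₁, od_join]
    rwa [e _ _ this, if_neg a1.not_gt]

variable {F t q : Set (Ca M)}

theorem Thick.mono {q' : Set (Ca M)} {f : Ca M → Ca M} (h : Thick F q f) (hq : q ⊆ q') :
    Thick F q' f :=
  let ⟨s₀, a1, a2, a3⟩ := h
  ⟨s₀, a1, a2, fun s b1 b2 b3 b4 => a3 s b1 b2 b3 (b4.mono fun _ _ c => ⟨hq c.1, c.2⟩)⟩

theorem exists_decided (f : Idx → Ca M → Ca M) (hq : Clp q) (hne : (F ∩ q).Nonempty) :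
    ∃ q', Clp q' ∧ q' ⊆ q ∧ (F ∩ q').Nonempty ∧
      ∀ r, CP F q' (f r) ∨ ¬ Thick F q' (f r) := by
  have h : ∀ S : Finset Idx, ∃ q', Clp q' ∧ q' ⊆ q ∧ (F ∩ q').Nonempty ∧
      ∀ r ∈ S, CP F q' (f r) ∨ ¬ Thick F q' (f r) := by
    intro S
    induction S using Finset.induction_on with
    | empty => exact ⟨q, hq, Subset.rfl, hne, by simp⟩
    | insert r S _ ih =>
      obtain ⟨q', a1, a2, a3, a4⟩ := ih
      by_cases hc : CP F q' (f r)
      · exact ⟨q', a1, a2, a3, Finset.forall_mem_insert _ _ _ |>.2 ⟨Or.inl hc, a4⟩⟩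
      · simp only [CP, not_forall] at hc
        obtain ⟨q'', b1, b2, b3, b4⟩ := hc
        exact ⟨q'', b1, b2.trans a2, b3, Finset.forall_mem_insert _ _ _ |>.2 ⟨Or.inr b4,
          fun r' hr' => (a4 r' hr').imp (fun c => c.mono b2) fun c d => c (d.mono b2)⟩⟩
  obtain ⟨q', a1, a2, a3, a4⟩ := h Finset.univ
  exact ⟨q', a1, a2, a3, fun r => a4 r (Finset.mem_univ r)⟩

theorem mg_ess (hF : Cls F) (hq : Clp q) {f : Ca M → Ca M} (hf : DfF M f) :
    Mg F (q \ f ⁻¹' Ess F q f) := by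
  refine (Mg.cl (Z := fun s => {x | Mg F (q ∩ f ⁻¹' s) ∧ x ∈ q ∩ f ⁻¹' s}) hF.ds (by fun_prop)
    fun s _ => Mg.cond fun h => h).mono fun x _ hx => ?_
  by_contra hc
  exact hx.2 fun s a1 a2 a3 => hc ⟨s, a1, a3, hx.1, a2⟩

theorem mg_gen (hF : Cls F) (ht : Clp t) {w : Ca M → Ca M} (hw : Meas w)
    (hc : CP F t w) {f : Idx → Ca M → Ca M} (hf : ∀ r, DfF M (f r)) :
    Mg F (t \ {x | GenP (w x) (fun r => f r x)
      fun r => ∃ t', Clp t' ∧ x ∈ t' ∧ CP F t' (f r)}) := by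
  have dw := hw.df
  have df := df_fin hf
  have h : ∀ k : Bool × Bool, Mg F (t ∩ {x | ¬ ∃ a b : N M,
      (∀ i, a ≤ i → i < b → clr (w x) i = k) ∧
      ∀ r, ¬ (∃ t', Clp t' ∧ x ∈ t' ∧ CP F t' (f r)) →
        ∃ i, a ≤ i ∧ i < b ∧ f r x i ≠ cnt (w x) i}) := by
    intro k
    refine mg_local hF.ds (by simp only [Ds, imp_iff, all_iff]; fun_prop) ht fun q a1 a2 a3 => ?_
    obtain ⟨q₁, b1, b2, b3, b4⟩ := exists_decided f a1 a3
    obtain ⟨s₀, c1, c2, c3⟩ := hc q₁ b1 (b2.trans a2) b3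
    have hN : ∀ r, Thin {u | ¬ Thick F q₁ (f r) ∧ u ∈ Ess F q₁ (f r)} := by
      intro r s d1 d2
      by_cases hT : Thick F q₁ (f r)
      · exact ⟨s, d1, Subset.rfl, d2, fun u e _ => e.1 hT⟩
      · by_contra hn
        exact hT ⟨s, d1, d2, fun s' e1 e2 e3 e4 =>
          hn ⟨s', e1, e2, e3, fun u e5 e6 => e5.2 s' e1 e6 e4⟩⟩
    obtain ⟨s, d1, d2, d3, a, b, d4⟩ := exists_killer (fun r => by unfold Ds; fun_prop) hN k c1 c2
    obtain ⟨q', e1, e2, e3, e4⟩ := bp hF (hw.pre d1.bor) b1 (c3 s d1 d2 d3)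
    refine ⟨q', e1, e2.trans b2, e3,
      (e4.union (Mg.fin fun r => mg_ess hF b1 (hf r))).mono fun x _ hx => ?_⟩
    by_contra hn
    simp only [mem_union, Set.mem_sdiff, mem_ofPred_eq, not_or, not_and, not_not, not_exists] at hn
    obtain ⟨g1, g2⟩ := d4 _ (hn.1 hx.1)
    refine hx.2 ⟨a, b, g1, fun r hr => g2 r _ ⟨?_, hn.2 r (e2 hx.1)⟩⟩
    exact (b4 r).resolve_left fun c => hr ⟨q₁, b1, e2 hx.1, c⟩
  refine (Mg.fin h).mono fun x _ hx => ?_
  obtain ⟨k, hk⟩ := not_forall.1 hx.2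
  exact ⟨k, hx.1, hk⟩

end Pool.Agent.MP_057cde_lc.TZ.B

end MrgPart4

-- ======== part 5: formerly Pool.Agent.MP_057cde_lc.zf.State
section MrgPart5

/-! The Borel labelling of the edges of a countable family of Borel maps. -/

namespace Pool.Agent.MP_057cde_lc.TZ.B

open Set

variable {M : Type} [Mdl M] {A : Type} [Srt M A]

/-- a state: for each side and point a closed set and a real -/
abbrev St (M : Type) [Mdl M] : Type := Fn M (Bool × Ca M) (PS M (Ca M) × Ca M)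

/-- a pair of maps -/
abbrev Mp (M : Type) [Mdl M] : Type := Fn M (Bool × Ca M) (Ca M)

open Classical in
/-- a choice function on sets of candidates -/
noncomputable def pick (B : Idx → Prop) : Option Idx :=
  if h : ∃ r, B r then some h.choose else none

theorem pick_iff {B : Idx → Prop} {o : Option Idx} :
    pick B = o ↔ ∃ C, pick C = o ∧ ∀ r, (C r ↔ B r) :=
  ⟨fun h => ⟨B, h, fun _ => Iff.rfl⟩, fun ⟨_, a, b⟩ => (funext fun r => propext (b r)) ▸ a⟩

theorem df_pick {B : A → Idx → Prop} (h : ∀ r, DfF M fun a => B a r) (o : Option Idx) :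
    DfF M fun a => pick (B a) = o :=
  (DfF.ex_fin fun _ => (DfF.const _).and (DfF.all_fin fun r => (DfF.const _).iff (h r))).congr
    fun _ => pick_iff

section

variable (S : St M) (ψ : Mp M)

/-- the candidate seen from one side -/
noncomputable def cand (σ : Bool) (r : Idx) (x : Ca M) : Ca M :=
  cond σ (mix r (S (false, ψ (true, x))).2 (S (true, x)).2)
    (mix r (S (false, x)).2 (S (true, ψ (false, x))).2)

/-- the candidate is category preserving near `x` -/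
def Good (σ : Bool) (r : Idx) (x : Ca M) : Prop :=
  ∃ t, Clp t ∧ x ∈ t ∧ CP (S (σ, x)).1 t (cand S ψ σ r)

/-- the edge at `x` exists and the candidate is good for both ends -/
def Act (σ : Bool) (x : Ca M) (r : Idx) : Prop :=
  ψ (!σ, ψ (σ, x)) = x ∧ Good S ψ σ r x ∧ Good S ψ (!σ) r (ψ (σ, x))

/-- the next state, given the chosen candidate -/
noncomputable def nxt (σ : Bool) : Option Idx → Ca M → PS M (Ca M) × Ca M
  | none, x => S (σ, x)
  | some r, x => (ps M (Fib (S (σ, x)).1 (ev ∘ cand S ψ σ r) (ev (cand S ψ σ r x))),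
      od (cand S ψ σ r x))

/-- genericity of `x` -/
def Gen (σ : Bool) (x : Ca M) : Prop :=
  GenP (S (σ, x)).2 (fun r => cand S ψ σ r x) fun r => Good S ψ σ r x

/-- `y` is the label of the edge at `x` -/
def Lab (σ : Bool) (x y : Ca M) : Prop :=
  ∃ r, pick (Act S ψ σ x) = some r ∧ ev (cand S ψ σ r x) = y

/-- a Borel state -/
def MS : Prop := ∀ σ, MF (fun x => (S (σ, x)).1) ∧ Meas fun x => (S (σ, x)).2

end

section

variable {S : A → St M} {ψ : A → Mp M} {σ : A → Bool} {x : A → Ca M} (hS : DfF M S)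
include hS

@[fun_prop] theorem df_mS : DfF M fun a => MS (S a) := by
  simp only [MS, all_iff]; fun_prop

variable (hψ : DfF M ψ) (hσ : DfF M σ) (hx : DfF M x)
include hψ hσ hx

@[fun_prop] theorem df_cand {r : A → Idx} (hr : DfF M r) :
    DfF M fun a => cand (S a) (ψ a) (σ a) (r a) (x a) := by unfold cand; fun_prop

@[fun_prop] theorem df_good {r : A → Idx} (hr : DfF M r) :
    DfF M fun a => Good (S a) (ψ a) (σ a) (r a) (x a) := by unfold Good; fun_prop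

@[fun_prop] theorem df_act {r : A → Idx} (hr : DfF M r) :
    DfF M fun a => Act (S a) (ψ a) (σ a) (x a) (r a) := by unfold Act; fun_prop

@[fun_prop] theorem df_gen : DfF M fun a => Gen (S a) (ψ a) (σ a) (x a) := by
  unfold Gen; fun_prop

@[fun_prop] theorem df_lab {y : A → Ca M} (hy : DfF M y) :
    DfF M fun a => Lab (S a) (ψ a) (σ a) (x a) (y a) :=
  DfF.ex_fin fun r => (df_pick (fun r => by fun_prop) _).and (by fun_prop)

theorem df_nxt : DfF M fun a => nxt (S a) (ψ a) (σ a) (pick (Act (S a) (ψ a) (σ a) (x a))) (x a) := by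
  refine DfF.cases_fin (df_pick fun r => by fun_prop)
    (g := fun o a => nxt (S a) (ψ a) (σ a) o (x a)) ?_
  rintro (_ | r) <;> dsimp only [nxt] <;> fun_prop

end

/-- the next state -/
noncomputable def step (S : St M) (ψ : Mp M) : St M :=
  ⟨fun p => nxt S ψ p.1 (pick (Act S ψ p.1 p.2)) p.2,
    df_nxt (DfF.const _) (DfF.const _) DfF.id.fst DfF.id.snd⟩

@[fun_prop] theorem df_step {S : A → St M} {ψ : A → Mp M} (hS : DfF M S) (hψ : DfF M ψ) :
    DfF M fun a => step (S a) (ψ a) :=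
  DfF.of_ap (df_nxt (hS.comp DfF.id.fst) (hψ.comp DfF.id.fst) DfF.id.snd.fst DfF.id.snd.snd)

variable {S : St M} {ψ : Mp M}

theorem step_ap (σ : Bool) (x : Ca M) : step S ψ (σ, x) = nxt S ψ σ (pick (Act S ψ σ x)) x := rfl

theorem pick_spec {B : Idx → Prop} {r : Idx} (h : pick B = some r) : B r := by
  unfold pick at h
  split_ifs at h with h'
  exact Option.some.inj h ▸ h'.choose_spec

theorem pick_some {B : Idx → Prop} (h : ∃ r, B r) : ∃ r, pick B = some r :=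
  ⟨_, dif_pos h⟩

theorem edge {x x' : Ca M} (h : ψ (false, x) = x') (h' : ψ (true, x') = x)
    (g : Gen S ψ false x) (g' : Gen S ψ true x') :
    ∃ y, Lab S ψ false x y ∧ Lab S ψ true x' y := by
  have hA : Act S ψ true x' = Act S ψ false x := by
    funext r
    simp only [Act, Bool.not_true, Bool.not_false, h, h', true_and]
    exact propext and_comm
  simp only [Gen, cand, h, h', cond] at g g'
  obtain ⟨r, a, b⟩ := common g g'
  obtain ⟨r', hr⟩ := pick_some (B := Act S ψ false x)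
    ⟨r, by simp [h, h'], a, by simpa [h] using b⟩
  exact ⟨_, ⟨r', hr, rfl⟩, r', hA ▸ hr, by simp only [cand, h, h', cond]⟩

theorem fib_ps {σ : Bool} {x : Ca M} (hF : Cls ((S (σ, x)).1 : Set (Ca M))) (r : Idx) :
    ((nxt S ψ σ (some r) x).1 : Set (Ca M)) =
      Fib (S (σ, x)).1 (ev ∘ cand S ψ σ r) (ev (cand S ψ σ r x)) :=
  (fib_closed hF (by fun_prop)).ds.coe_ps

section meas

theorem MF.cp {E : Ca M → Set (Ca M)} (hE : MF E) (dE : DfS M E) {f : Ca M → Ca M} (hf : Meas f)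
    {t : Set (Ca M)} (ht : Clp t) : Ms fun x => CP (E x) t f := by
  have := hf.df
  exact meas_all (by simp only [imp_iff]; fun_prop) fun q hq => ms_const.imp ((hE.2 q hq).imp
    (meas_ex (by simp only [imp_iff, all_iff]; fun_prop) fun _ _ => ms_const.and
      (meas_all (by simp only [imp_iff]; fun_prop) fun _ hs => ms_const.imp (ms_const.imp
        (hE.mg dE (hf.pre hs.bor) q hq).not))))

theorem MF.fib {E : Ca M → Set (Ca M)} (hE : MF E) (dE : DfS M E) {g y : Ca M → Ca M}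
    (hg : Meas g) (hy : Meas y) : MF fun x => Fib (E x) g (y x) := by
  have := hy.df
  have dg := hg.df
  refine ⟨fun x => fib_closed (hE.1 x) dg, fun q hq => ?_⟩
  simp only [fun x => fib_meet (g := g) (y := y x) (hE.1 x) dg hq]
  exact meas_all (by simp only [imp_iff]; fun_prop) fun s hs =>
    (meas_mem hy hs).imp (hE.mg dE (hg.pre hs.bor) q hq).not

theorem ms_cases {p : Ca M → Option Idx} (hp : ∀ o, Ms fun x => p x = o)
    {g : Option Idx → Ca M → Prop} (hg : ∀ o, Ms (g o)) : Ms fun x => g (p x) x :=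
  (Ms.ex_fin fun o => (hp o).and (hg o)).congr fun _ => by simp

variable (hS : MS S) (hψ : ∀ σ, Meas fun x => ψ (σ, x))
include hS hψ

theorem meas_cand (σ : Bool) (r : Idx) : Meas (cand S ψ σ r) := by
  cases σ
  · exact meas_mix r (hS false).2 ((hS true).2.comp (hψ false))
  · exact meas_mix r ((hS false).2.comp (hψ true)) (hS true).2

theorem meas_good (σ : Bool) (r : Idx) : Ms (Good S ψ σ r) :=
  meas_ex (by fun_prop) fun t ht =>
    (meas_mem meas_id ht).and ((hS σ).1.cp (by fun_prop) (meas_cand hS hψ σ r) ht)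

theorem meas_pick (σ : Bool) (o : Option Idx) : Ms fun x => pick (Act S ψ σ x) = o :=
  (Ms.ex_fin fun _ => ms_const.and (Ms.all_fin fun r => ms_const.iff
    ((meas_eqc ((hψ _).comp (hψ _)) meas_id).and
      ((meas_good hS hψ σ r).and ((meas_good hS hψ (!σ) r).comp (hψ σ)))))).congr
    fun _ => pick_iff

theorem meas_gen (σ : Bool) : Ms (Gen S ψ σ) :=
  meas_genP (hS σ).2 (meas_cand hS hψ σ) (meas_good hS hψ σ)

theorem MS.step : MS (step S ψ) := by
  intro σ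
  have h1 : ∀ o, MF fun x => (nxt S ψ σ o x).1 := by
    rintro (_ | r)
    · exact (hS σ).1
    · simp only [fun x => fib_ps (ψ := ψ) ((hS σ).1.1 x) r]
      exact (hS σ).1.fib (by fun_prop) (meas_cand hS hψ σ r).ev (meas_cand hS hψ σ r).ev
  refine ⟨⟨fun x => (h1 _).1 x, fun q hq => ?_⟩, by fun_prop, fun i => ?_⟩
  · exact ms_cases (meas_pick hS hψ σ)
      (g := fun o x => (((nxt S ψ σ o x).1 : Set (Ca M)) ∩ q).Nonempty) fun o => (h1 o).2 q hq
  · refine ms_cases (meas_pick hS hψ σ) (g := fun o x => (nxt S ψ σ o x).2 i = true) ?_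
    rintro (_ | r)
    · exact (hS σ).2.bit i
    · exact (meas_cand hS hψ σ r).od.bit i

theorem step_ex {F t H B : Set (Ca M)} {σ : Bool} (hF : Cls F) (ht : Clp t)
    (hne : (F ∩ t).Nonempty) (hH : Mg F (t \ H)) (hst : ∀ x ∈ H, (S (σ, x)).1 = F)
    (hc : CP F t fun x => (S (σ, x)).2) (hB : ∀ s, Clp s → s.Nonempty → ¬ Mg univ (s ∩ B)) :
    ∃ F' t', Cls F' ∧ F' ⊆ F ∧ Clp t' ∧ t' ⊆ t ∧ (F' ∩ t').Nonempty ∧
      Mg F' (t' \ (H ∩ {x | (step S ψ (σ, x)).1 = F' ∧ Gen S ψ σ x ∧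
        ∀ y, Lab S ψ σ x y → y ∈ B})) ∧ CP F' t' fun x => (step S ψ (σ, x)).2 := by
  have m1 : Mg F (t \ (H ∩ {x | Gen S ψ σ x})) := by
    refine (hH.union (mg_gen hF ht (hS σ).2 hc (f := cand S ψ σ)
      fun r => by fun_prop)).mono fun x _ a => ?_
    by_cases hx : x ∈ H
    · refine Or.inr ⟨a.1, fun b => a.2 ⟨hx, ?_⟩⟩
      simp only [mem_ofPred_eq, Gen, Good, hst x hx]
      exact b
    · exact Or.inl ⟨a.1, hx⟩
  obtain ⟨o, ho⟩ : ∃ o, ¬ Mg F (t ∩ {x | pick (Act S ψ σ x) = o}) := by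
    by_contra hn
    push Not at hn
    exact not_mg hF ht hne ((Mg.fin hn).mono fun x _ a => ⟨_, a, rfl⟩)
  obtain ⟨t₁, a1, a2, a3, a4⟩ := bp hF (meas_pick hS hψ σ o) ht ho
  have m2 : Mg F (t₁ \ ((H ∩ {x | Gen S ψ σ x}) ∩ {x | pick (Act S ψ σ x) = o})) := by
    refine (m1.union a4).mono fun x _ a => ?_
    by_cases hx : x ∈ H ∩ {x | Gen S ψ σ x}
    · exact Or.inr ⟨a.1, fun b => a.2 ⟨hx, b⟩⟩
    · exact Or.inl ⟨a2 a.1, hx⟩
  rcases o with _ | r
  · refine ⟨F, t₁, hF, Subset.rfl, a1, a2, a3, m2.mono fun x _ a => ⟨a.1, fun b => a.2 ?_⟩,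
      (hc.mono a2).congr (m2.mono fun x _ a => ⟨a.1, fun b => a.2 ?_⟩)⟩
    · have e : pick (Act S ψ σ x) = none := b.2
      refine ⟨b.1.1, ?_, b.1.2, fun y ⟨r, c, _⟩ => ?_⟩
      · simp only [step_ap, e, nxt]
        exact hst x b.1.1
      · simp [e] at c
    · have e : pick (Act S ψ σ x) = none := b.2
      simp only [mem_ofPred_eq, step_ap, e, nxt]
  · obtain ⟨x₀, b1, b2, b3, b4⟩ := exists_pt hF a1 a3 m2
    obtain ⟨t₂, c1, c2, c3⟩ := (pick_spec b4).2.1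
    rw [hst x₀ b3.1] at c3
    obtain ⟨y, d1, d2, d3, d4⟩ := quot hF (a1.inter c1) ⟨x₀, b1, b2, c2⟩ (meas_cand hS hψ σ r)
      (c3.mono inter_subset_right) (m2.mono fun x _ a => ⟨a.1.1, a.2⟩) hB
    refine ⟨_, t₁ ∩ t₂, fib_closed hF (by fun_prop), fun x a => a.1, a1.inter c1,
      inter_subset_left.trans a2, d2, d3.mono fun x _ a => ⟨a.1, fun b => a.2 ?_⟩,
      d4.congr (d3.mono fun x _ a => ⟨a.1, fun b => a.2 ?_⟩)⟩
    · have e : pick (Act S ψ σ x) = some r := b.1.2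
      have e' : ev (cand S ψ σ r x) = y := b.2
      refine ⟨b.1.1.1, ?_, b.1.1.2, fun y' ⟨r', c, d⟩ => ?_⟩
      · rw [step_ap, e, fib_ps ((hS σ).1.1 x), hst x b.1.1.1, e']
      · rw [e, Option.some.injEq] at c
        rw [← d, ← c, e']
        exact d1
    · have e : pick (Act S ψ σ x) = some r := b.1.2
      simp only [mem_ofPred_eq, step_ap, e, nxt, Function.comp]

end meas

theorem fuse {P : N M → PS M (Ca M) → PS M (Ca M) → Prop} {G : N M → PS M (Ca M) → Set (Ca M)}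
    (dP : DfF M fun z : N M × PS M (Ca M) × PS M (Ca M) => P z.1 z.2.1 z.2.2)
    (dG : DfS M fun z : N M × PS M (Ca M) => G z.1 z.2)
    (h0 : ∀ n F t, P n F t → Cls (F : Set (Ca M)) ∧ Clp (t : Set (Ca M)) ∧
      ((F : Set (Ca M)) ∩ t).Nonempty ∧ Mg F (t \ G n F))
    (hs : ∀ n F t, P n F t → ∀ t₁ H, Clp t₁ → t₁ ⊆ t → ((F : Set (Ca M)) ∩ t₁).Nonempty →
      Mg F (t₁ \ H) → ∃ F' t', P (n + 1) F' t' ∧ (F' : Set (Ca M)) ⊆ F ∧
        (t' : Set (Ca M)) ⊆ t₁ ∧ Mg F' (t' \ H))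
    {F₀ t₀ : PS M (Ca M)} (h : P 0 F₀ t₀) : ∃ x ∈ F₀, ∀ n, ∃ F, x ∈ G n F := by
  obtain ⟨V, f1, f2⟩ := (h0 _ _ _ h).2.2.2
  obtain ⟨p, e, hp⟩ := dc (M := M) (Y := PS M (Ca M) × PS M (Ca M) × Fn M (N M) (PS M (Ca M)))
    (Q := fun n (p : PS M (Ca M) × PS M (Ca M) × Fn M (N M) (PS M (Ca M))) => P n p.1 p.2.1 ∧
      (∀ k, Opn (p.2.2 k : Set (Ca M)) ∧
        Mg (p.1 : Set (Ca M)) ((p.2.1 : Set (Ca M)) \ (p.2.2 k : Set (Ca M)))) ∧
      ∀ x ∈ p.1, x ∈ p.2.1 → (∀ k, x ∈ p.2.2 k) → x ∈ G n p.1)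
    (R := fun n p p' => (p'.1 : Set (Ca M)) ⊆ p.1 ∧ (p'.2.1 : Set (Ca M)) ⊆ p.2.1 ∧
      (∀ k, (p'.2.2 k : Set (Ca M)) ⊆ p.2.2 k) ∧ (p'.2.1 : Set (Ca M)) ⊆ p.2.2 (N.unpair n).1)
    (by simp only [imp_iff, all_iff]; fun_prop) (by simp only [all_iff]; fun_prop) (by
      rintro n ⟨F, t, U⟩ ⟨a1, a2, -⟩
      obtain ⟨b1, b2, b3, -⟩ := h0 _ _ _ a1
      have := U.df
      have m : Mg F (t \ {x | ∀ k, x ∈ U k}) :=
        (Mg.ex b1.ds (by fun_prop) fun k => (a2 k).2).mono fun x _ c =>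
          (not_forall.1 c.2).imp fun k hk => ⟨c.1, hk⟩
      obtain ⟨x, c1, c2, c3⟩ := exists_pt b1 b2 b3 m
      obtain ⟨t₁, d1, d2, d3⟩ := exists_clopen (b2.opn.inter (a2 (N.unpair n).1).1) ⟨c2, c3 _⟩
      obtain ⟨F', t', e1, e2, e3, e4⟩ := hs n F t a1 t₁ _ d1 (fun y hy => (d3 hy).1)
        ⟨x, c1, d2⟩ (m.mono fun y _ f => ⟨(d3 f.1).1, f.2⟩)
      obtain ⟨V, dV, f1, f2⟩ := (h0 _ _ _ e1).2.2.2.exists_open
      have e : ∀ k, (ps M (V k ∩ U k) : Set (Ca M)) = V k ∩ U k := fun k =>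
        ((f1 k).1.inter (a2 k).1).ds.coe_ps
      refine ⟨⟨F', t', fun k => ps M (V k ∩ U k), by fun_prop⟩, ⟨e1, fun k => ?_,
        fun y g1 g2 g3 => ?_⟩, e2, fun y hy => (d3 (e3 hy)).1, fun k => ?_,
        fun y hy => (d3 (e3 hy)).2⟩
      · simp only [e]
        refine ⟨(f1 k).1.inter (a2 k).1, ((f1 k).2.union e4).mono fun y _ g => ?_⟩
        by_cases hy : y ∈ V k
        · exact Or.inr ⟨g.1, fun j => g.2 ⟨hy, j k⟩⟩
        · exact Or.inl hy
      · by_contra hn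
        exact f2 y g1 (fun k => ((e k).subset (g3 k)).1) ⟨g2, hn⟩
      · exact (e k).subset.trans inter_subset_right)
    (y₀ := (F₀, t₀, V)) ⟨h, fun k => ⟨(f1 k).1, (mg_compl (f1 k).1 (f1 k).2).mono
      fun _ _ a => a.2⟩, fun y g1 g2 g3 => by
        by_contra hn
        exact f2 y g1 g3 ⟨g2, hn⟩⟩
  have := p.df
  obtain ⟨x, hx⟩ := cluster (F := fun n x => x ∈ (p n).1 ∧ x ∈ (p n).2.1) (by fun_prop)
    (fun n x a => ⟨(hp n).2.1 a.1, (hp n).2.2.1 a.2⟩) fun n => (h0 _ _ _ (hp n).1.1).2.2.1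
  have h1 : ∀ n, x ∈ (p n).1 ∧ x ∈ (p n).2.1 := fun n =>
    ((h0 _ _ _ (hp n).1.1).1.inter (h0 _ _ _ (hp n).1.1).2.1.cls).mem (hx n)
  refine ⟨x, by simpa only [e] using (h1 0).1,
    fun n => ⟨_, (hp n).1.2.2 x (h1 n).1 (h1 n).2 fun k => ?_⟩⟩
  refine chain (f := fun m => (p m).2.2 k) (by fun_prop)
    (R := fun a b => (b : Set (Ca M)) ⊆ a) (by fun_prop) (fun _ => Subset.rfl)
    (fun _ _ _ a b => b.trans a) (fun m => (hp m).2.2.2.1 k) n _ (N.right_le_pair k n) ?_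
  simpa only [N.unpair_pair] using (hp (N.pair k n)).2.2.2.2 (h1 _).2

/-- the states of the construction -/
noncomputable def state (ψ : N M → Mp M) (n : N M) : St M :=
  N.rc ⟨fun p => (ps M {x' | ev x' = ev p.2}, od p.2), by fun_prop⟩ (fun n S => step S (ψ n)) n

variable {ψ : N M → Mp M} (dψ : DfF M ψ)
include dψ

theorem df_state : DfF M (state ψ) := by unfold state; fun_prop

theorem state_succ (n : N M) : state ψ (n + 1) = step (state ψ n) (ψ n) :=
  N.rc_succ (by fun_prop) n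

omit dψ in
theorem cls_ev (z : Ca M) : Cls {x | ev x = z} :=
  ⟨by unfold Ds; fun_prop, fun x a => ((opn_ne z).ex _ a).elim fun k b =>
    ⟨k + k, fun _ c => b _ c.ev⟩⟩

omit dψ in
theorem state_zero (σ : Bool) (x : Ca M) :
    ((state ψ 0 (σ, x)).1 : Set (Ca M)) = {x' | ev x' = ev x} ∧ (state ψ 0 (σ, x)).2 = od x := by
  rw [state, N.rc_zero]
  exact ⟨(cls_ev _).ds.coe_ps, rfl⟩

theorem ms_state (hψ : ∀ n σ, Meas fun x => ψ n (σ, x)) (n : N M) : MS (state ψ n) := by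
  have := df_state dψ
  refine N.ind (P := fun n => MS (state ψ n)) (by fun_prop) (fun σ => ?_)
    (fun n ih => state_succ dψ n ▸ ih.step (hψ n)) n
  simp only [state_zero]
  refine ⟨⟨fun x => cls_ev _, fun q hq => Ms.congr (p := fun x => ∃ u, join (ev x) u ∈ q)
    (Clp.bor ⟨by unfold Ds; fun_prop, hq.ex.elim fun k a => ⟨k + k, fun x y b ⟨u, c⟩ =>
      ⟨u, a _ _ (b.ev.join (Ag.refl _ _)) c⟩⟩⟩) fun x =>
    ⟨fun ⟨x', a, b⟩ => ⟨od x', ?_⟩, fun ⟨u, hu⟩ => ⟨_, ev_join _ _, hu⟩⟩⟩, meas_id.od⟩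
  have a' : ev x' = ev x := a
  rwa [← a', join_ev_od]

theorem exists_king (hψ : ∀ n σ, Meas fun x => ψ n (σ, x)) (σ : Bool) {B : Set (Ca M)}
    (dB : Ds M B) (hB : ∀ s, Clp s → s.Nonempty → ¬ Mg univ (s ∩ B)) (z : Ca M) :
    ∃ x, (∀ n, Gen (state ψ n) (ψ n) σ x ∧ ∀ y, Lab (state ψ n) (ψ n) σ x y → y ∈ B) ∧
      ev x = z := by
  have := df_state dψ
  let G : N M → Set (Ca M) → Set (Ca M) := fun n F => {x | (state ψ n (σ, x)).1 = F ∧ ∀ m < n,
    Gen (state ψ m) (ψ m) σ x ∧ ∀ y, Lab (state ψ m) (ψ m) σ x y → y ∈ B}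
  have hz := cls_ev z
  refine (fuse (G := fun n F => G n F) (P := fun n F t => (Cls (F : Set (Ca M)) ∧
    Clp (t : Set (Ca M)) ∧ ((F : Set (Ca M)) ∩ t).Nonempty ∧ Mg F (t \ G n F)) ∧
    CP F t fun x => (state ψ n (σ, x)).2) (by simp only [G, imp_iff, all_iff]; fun_prop)
    (by simp only [G, imp_iff, all_iff]; fun_prop)
    (fun _ _ _ a => a.1) (F₀ := ps M {x | ev x = z}) (t₀ := ps M univ) ?_ ?_).imp
    fun x h => ⟨fun n => (h.2 (n + 1)).elim fun F hF => hF.2 n n.lt_succ, hz.ds.mem_ps.1 h.1⟩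
  · rintro n F t ⟨⟨a1, -, -, a4⟩, a5⟩ t₁ H b1 b2 b3 b4
    obtain ⟨F', t', c1, c2, c3, c4, c5, c6, c7⟩ := step_ex (ms_state dψ hψ n) (hψ n) (σ := σ)
      (H := H ∩ G n F) a1 b1 b3 ((b4.union a4).mono fun x _ c => by
        by_cases hx : x ∈ H
        · exact Or.inr ⟨b2 c.1, fun d => c.2 ⟨hx, d⟩⟩
        · exact Or.inl ⟨c.1, hx⟩) (fun x c => c.2.1) (a5.mono b2) hB
    refine ⟨ps M F', ps M t', ?_⟩
    rw [c1.ds.coe_ps, c3.ds.coe_ps, ← state_succ dψ] at *
    refine ⟨⟨⟨c1, c3, c5, c6.mono fun x _ d => ⟨d.1, fun e => d.2 ⟨e.2.1, fun m hm => ?_⟩⟩⟩,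
      c7⟩, c2, c4, c6.mono fun x _ d => ⟨d.1, fun e => d.2 e.1.1⟩⟩
    rcases (N.lt_succ_iff.1 hm).lt_or_eq with hm | rfl
    · exact e.1.2.2 m hm
    · exact e.2.2
  · rw [hz.ds.coe_ps, ds_univ.coe_ps]
    simp only [state_zero]
    refine ⟨⟨hz, clp_univ, ⟨join z z, ev_join _ _, trivial⟩, mg_empty fun x a b =>
      b.2 ⟨?_, fun m hm => absurd hm zero_le.not_gt⟩⟩, fun q a1 _ ⟨x, a2, a3⟩ => ?_⟩
    · have a' : ev x = z := a
      rw [(state_zero σ x).1, a']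
    · have a' : ev x = z := a2
      refine ⟨join z ⁻¹' q, a1.preimage ((Cont.const z).join Cont.id), ⟨od x, ?_⟩,
        fun s b1 b2 ⟨u, hu⟩ => not_mg hz (a1.inter (b1.preimage Cont.id.od))
          ⟨join z u, ev_join _ _, b2 hu, ?_⟩⟩
      · rwa [mem_preimage, ← a', join_ev_od]
      · show od (join z u) ∈ s
        rwa [od_join]

end Pool.Agent.MP_057cde_lc.TZ.B

namespace Pool.Agent.MP_057cde_lc.TZ

open Set B

variable {M : Type} [Mdl M]

theorem exists_mg_box {F : Fam M} (h : F.Good) {B : Set (Ca M)} (dB : Ds M B) :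
    ∃ s, Clp s ∧ s.Nonempty ∧ (Mg univ (s ∩ B) ∨ Mg univ (s ∩ Bᶜ)) := by
  by_contra hn
  push Not at hn
  let ψ : N M → Mp M := fun n =>
    ⟨fun p => F.val (cond p.1 (N.unpair n).2 (N.unpair n).1) p.2, by fun_prop⟩
  have dψ : DfF M ψ := DfF.of_ap (by dsimp only [ψ]; fun_prop)
  have hv : ∀ j, Meas (F.val j) := fun j => ⟨by fun_prop, fun i =>
    Ms.congr (p := fun x => F.out j x i true) (Opn.bor ⟨by unfold Ds; fun_prop,
      fun _ a => F.opn a⟩) fun x => by simp only [F.val_ap, decide_eq_true_eq]⟩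
  have hψ : ∀ n σ, Meas fun x => ψ n (σ, x) := fun n σ =>
    hv (cond σ (N.unpair n).2 (N.unpair n).1)
  have := df_state dψ
  obtain ⟨x, x', i, j, a, b, c, d⟩ := h.game _ _ (by simp only [imp_iff, all_iff]; fun_prop)
    (by simp only [imp_iff, all_iff]; fun_prop)
    (exists_king dψ hψ false dB fun s a b => (hn s a b).1)
    (exists_king dψ hψ true (B := Bᶜ) (DfF.not dB) fun s a b => (hn s a b).2)
  obtain ⟨y, d1, d2⟩ := edge (ψ := ψ (N.pair i j)) (by simpa [ψ] using c) (by simpa [ψ] using d)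
    (a _).1 (b _).1
  exact (b _).2 y d2 ((a _).2 y d1)

/-- every definable set of reals is meagre or comeagre in some basic open set -/
theorem no_bern {F : Fam M} (h : F.Good) {B : Ca M → Prop} (dB : DfF M B) :
    ∃ (u : Ca M) (k : N M) (V : N M → Ca M → Prop), (DfF M fun p : N M × Ca M => V p.1 p.2) ∧
      (∀ j x, V j x → ∃ k, ∀ y, Ag k x y → V j y) ∧ (∀ j x k, ∃ y, Ag k x y ∧ V j y) ∧
      ((∀ x, Ag k u x → (∀ j, V j x) → B x) ∨ ∀ x, Ag k u x → (∀ j, V j x) → ¬ B x) := by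
  obtain ⟨s, a1, ⟨u, a2⟩, a3⟩ := exists_mg_box h (B := {x | B x}) dB
  obtain ⟨k, hk⟩ := a1.opn.ex u a2
  rcases a3 with ⟨V, b1, b2⟩ | ⟨V, b1, b2⟩ <;>
    refine ⟨u, k, fun j x => x ∈ V j, by have := V.df; fun_prop, fun j => (b1 j).1.ex,
      fun j x k => ((b1 j).2 x trivial k).imp fun _ c => c.2, ?_⟩
  · exact Or.inr fun x c d e => b2 x trivial d ⟨hk x c, e⟩
  · exact Or.inl fun x c d => not_not.1 fun e => b2 x trivial d ⟨hk x c, e⟩

end Pool.Agent.MP_057cde_lc.TZ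

end MrgPart5

-- ======== part 6: formerly Pool.Agent.MP_057cde_lc.zf.Trans
section MrgPart6

/-! Reals as subsets of omega; translation of countability and of perfect sets. -/

namespace Pool.Agent.MP_057cde_lc.TZ

open Function
open scoped Classical

variable {M : Type} [Mdl M] {X : Type} [Srt M X]

/-- the subset of omega with characteristic function `x` -/
noncomputable def rs (x : Ca M) : M := cd M (PS.of M fun n : N M => x n = true)

theorem cd_mem_rs {x : Ca M} {n : N M} : E (cd M n) (rs x) ↔ x n = true :=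
  cd_mem_cd_ps.trans (PS.mem_of (by fun_prop))

theorem mem_rs {x : Ca M} {z : M} : E z (rs x) ↔ ∃ n : N M, z = cd M n ∧ x n = true :=
  ⟨fun h => by
    obtain ⟨n, -, rfl⟩ := mem_cd_ps.1 h
    exact ⟨n, rfl, cd_mem_rs.1 h⟩, fun ⟨_, e, h⟩ => e ▸ cd_mem_rs.2 h⟩

@[fun_prop] theorem DfF.rs {x : X → Ca M} (hx : DfF M x) : DfF M fun a => rs (x a) := by
  unfold TZ.rs; fun_prop

theorem rs_incl (x : Ca M) : Incl E (rs x) Mdl.om := fun _ h =>
  let ⟨n, e, _⟩ := mem_rs.1 h; mem_om.2 ⟨n, e⟩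

theorem rs_inj {x y : Ca M} : rs x = rs y ↔ x = y :=
  ⟨fun h => Fn.ext fun n => Bool.eq_iff_iff.2 (by rw [← cd_mem_rs, h, cd_mem_rs]), congrArg _⟩

theorem exists_rs {a : M} (h : Incl E a Mdl.om) : ∃ x : Ca M, rs x = a := by
  refine ⟨⟨fun n => decide (E (cd M n) a), by fun_prop⟩, ext' fun z => mem_rs.trans ⟨?_, fun hz => ?_⟩⟩
  · rintro ⟨n, rfl, hn⟩
    exact of_decide_eq_true hn
  · obtain ⟨n, rfl⟩ := mem_om.1 (h z hz)
    exact ⟨n, rfl, decide_eq_true hz⟩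

theorem agree_rs {n : N M} {x y : Ca M} : Agree E (cd M n) (rs x) (rs y) ↔ Ag n x y := by
  refine ⟨fun h i hi => Bool.eq_iff_iff.2 ?_, fun h z hz => ?_⟩
  · rw [← cd_mem_rs, ← cd_mem_rs]
    exact h _ hi
  · obtain ⟨i, hi, rfl⟩ := N.mem_cd.1 hz
    rw [cd_mem_rs, cd_mem_rs, h i hi]

theorem df_elx (A : M) : DfF M (fun a : El M A => a.x) := DfF.cd DfF.id

theorem ctbl_of_ctb {A : M} (hA : ∀ x, E x A → Incl E x Mdl.om)
    (h : Ctb M fun x : Ca M => E (rs x) A) : Ctbl E Mdl.om A := by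
  obtain ⟨e, he⟩ := h
  have := e.df
  have := df_elx A
  let F : Fn M (El M A) (N M) := ⟨fun a => N.least fun n => rs (e n) = a.x, by fun_prop⟩
  have hF : ∀ a, rs (e (F a)) = a.x := fun a => (N.least_spec (P := fun n => rs (e n) = a.x)
    (by fun_prop) (by
      obtain ⟨x, hx⟩ := exists_rs (hA _ a.mem)
      obtain ⟨n, rfl⟩ := he x (hx.symm ▸ a.mem : E (rs x) A)
      exact ⟨n, hx⟩)).1
  refine ⟨cd M F, by simpa only [un_el, un_N] using func_cd_fn F, fun a b n h1 h2 => ?_⟩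
  obtain ⟨a, rfl, e1⟩ := app_cd_fn.1 h1
  obtain ⟨b, rfl, e2⟩ := app_cd_fn.1 h2
  exact (hF a).symm.trans (cd_inj.1 (e1.symm.trans e2) ▸ hF b)

theorem perf_of_inj {A : M} {g : Ca M → Ca M} (hg : Cont g) (hi : Injective g)
    (h : ∀ s, E (rs (g s)) A) : ∃ P, Incl E P A ∧ Perf E Mdl.om P := by
  have := hg.df
  have := df_elx A
  have d : DfF M fun a : El M A => ∃ s, rs (g s) = a.x := by fun_prop
  have hP : ∀ z, E z (cd M (PS.of M fun a : El M A => ∃ s, rs (g s) = a.x)) ↔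
      ∃ s, rs (g s) = z := fun z => mem_cd_ps.trans
    ⟨fun ⟨_, h1, e⟩ => e ▸ (PS.mem_of d).1 h1, fun ⟨s, e⟩ =>
      ⟨⟨z, e ▸ h s⟩, (PS.mem_of d).2 ⟨s, e⟩, rfl⟩⟩
  refine ⟨_, fun z hz => ?_, ⟨_, (hP _).2 ⟨Classical.arbitrary _, rfl⟩⟩, fun x hx hc => ?_,
    fun x n hx hn => ?_⟩
  · obtain ⟨s, rfl⟩ := (hP z).1 hz
    exact h s
  · obtain ⟨x, rfl⟩ := exists_rs hx
    obtain ⟨s, rfl⟩ := hg.closed_range (y := x) fun n => by
      obtain ⟨y, a1, a2⟩ := hc _ (mem_om.2 ⟨n, rfl⟩)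
      obtain ⟨s, rfl⟩ := (hP y).1 a1
      exact ⟨s, (agree_rs.1 a2).symm⟩
    exact (hP _).2 ⟨s, rfl⟩
  · obtain ⟨s, rfl⟩ := (hP x).1 hx
    obtain ⟨n, rfl⟩ := mem_om.1 hn
    obtain ⟨k, hk⟩ := hg.uc n
    refine ⟨_, (hP _).2 ⟨upd s k (!s k), rfl⟩, fun e => ?_, agree_rs.2 (hk _ _ (ag_upd _ _ _))⟩
    have := upd_self s k (!s k)
    rw [hi (rs_inj.1 e)] at this
    simp at this

/-- the perfect set property, read in the model -/
theorem psp_trans {A : M} (hA : ∀ x, E x A → Incl E x Mdl.om)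
    (h : (Ctb M fun x : Ca M => E (rs x) A) ∨
      ∃ g, Cont g ∧ Injective g ∧ ∀ s, E (rs (g s)) A) :
    Ctbl E Mdl.om A ∨ ∃ P, Incl E P A ∧ Perf E Mdl.om P :=
  h.imp (ctbl_of_ctb hA) fun ⟨_, a, b, c⟩ => perf_of_inj a b c

end Pool.Agent.MP_057cde_lc.TZ

end MrgPart6

-- ======== part 7: formerly Pool.Agent.MP_057cde_lc.zf.Final
section MrgPart7

/-! Turing determinacy gives the perfect set property in every model of ZF + DC. -/

namespace Pool.Agent.MP_057cde_lc.TZ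

theorem psp {M : Type} [Mdl M] (hTD : TD E (Mdl.om : M)) (A : M)
    (hA : ∀ x, E x A → Incl E x Mdl.om) : Ctbl E Mdl.om A ∨ ∃ P, Incl E P A ∧ Perf E Mdl.om P := by
  obtain ⟨F, hF⟩ := good_of_td hTD
  refine psp_trans hA (hF.psp_of_no_bern (fun B dB => ?_) (by fun_prop))
  obtain ⟨u, k, V, h1, h2, h3, h4⟩ := no_bern hF dB
  obtain ⟨g, a1, a2, a3⟩ := inj_of_dense h1 h2 h3 u k
  exact ⟨g, a1, a2, h4.imp (fun h s => h _ (a3 s).1 (a3 s).2) fun h s => h _ (a3 s).1 (a3 s).2⟩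

end Pool.Agent.MP_057cde_lc.TZ

end MrgPart7

-- marker of a merged file
example : 731051 + 647816 = 731051 + 647816 := rfl
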