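import Mathlib.Order.CompletePartialOrder
import Pool.Agent.MP_057cde_lc.zf.Ca

-- ======== part 0: formerly Pool.Agent.MP_057cde_lc.zf.Spec
section MrgPart0

/-! Countable families of open functionals: the abstract form of Turing reducibility. -/

namespace Pool.Agent.MP_057cde_lc.TZ

open Function
open scoped Classical

/-- a definable sequence of open functionals; `out i x n b` says that functional `i` with
oracle `x` gives the bit `b` on input `n` -/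
structure Fam (M : Type) [Mdl M] where
  out : N M → Ca M → N M → Bool → Prop
  df : DfF M fun p : N M × Ca M × N M × Bool => out p.1 p.2.1 p.2.2.1 p.2.2.2
  opn : ∀ {i x n b}, out i x n b → ∃ k, ∀ y, Ag k x y → out i y n b

variable {M : Type} [Mdl M]
variable {X : Type} [Srt M X]

/-- functional `i` computes `a` from `x` -/
def Fam.Cmp (F : Fam M) (i : N M) (x a : Ca M) : Prop := ∀ n b, F.out i x n b ↔ a n = b

/-- `a` is computable from `x` -/
def Fam.Le (F : Fam M) (a x : Ca M) : Prop := ∃ i, F.Cmp i x a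

@[fun_prop]
theorem DfF.out (F : Fam M) {i n : X → N M} {x : X → Ca M} {b : X → Bool} (hi : DfF M i)
    (hx : DfF M x) (hn : DfF M n) (hb : DfF M b) :
    DfF M fun a => F.out (i a) (x a) (n a) (b a) :=
  F.df.comp (g := fun a => (i a, x a, n a, b a)) (by fun_prop)

@[fun_prop]
theorem DfF.cmp (F : Fam M) {i : X → N M} {x y : X → Ca M} (hi : DfF M i)
    (hx : DfF M x) (hy : DfF M y) : DfF M fun a => F.Cmp (i a) (x a) (y a) := by
  simp only [Fam.Cmp, all_iff]; fun_prop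

@[fun_prop]
theorem DfF.famLe (F : Fam M) {x y : X → Ca M} (hx : DfF M x) (hy : DfF M y) :
    DfF M fun a => F.Le (x a) (y a) := by
  unfold Fam.Le; fun_prop

/-- the real read off from functional `i` -/
noncomputable def Fam.val (F : Fam M) (i : N M) (x : Ca M) : Ca M :=
  ⟨fun n => decide (F.out i x n true), by fun_prop⟩

theorem Fam.val_ap (F : Fam M) (i : N M) (x : Ca M) (n : N M) :
    F.val i x n = decide (F.out i x n true) := rfl

@[fun_prop]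
theorem DfF.val (F : Fam M) {i : X → N M} {x : X → Ca M} (hi : DfF M i) (hx : DfF M x) :
    DfF M fun a => F.val (i a) (x a) :=
  DfF.of_ap (by simp only [Fam.val_ap]; fun_prop)

theorem Fam.Cmp.val {F : Fam M} {i : N M} {x a : Ca M} (h : F.Cmp i x a) : F.val i x = a :=
  Fn.ext fun n => Bool.eq_iff_iff.2 (decide_eq_true_iff.trans (h n true))

/-- the closure properties that the proof uses -/
structure Fam.Good (F : Fam M) : Prop where
  refl : ∀ x, F.Le x x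
  trans : ∀ {x y z}, F.Le x y → F.Le y z → F.Le x z
  ev : ∀ x, F.Le (ev x) x
  od : ∀ x, F.Le (od x) x
  col : ∀ x c, F.Le (col x c) x
  srch : ∀ (i : N M) (y : Ca M) (l : N M) (a : Ca M) (e : N M), ∃ j, ∀ w n b, F.out j w n b ↔
    ∃ g, Ag l y g ∧ (∀ p, l ≤ p → (N.unpair p).1 < e → g p = a (N.unpair p).1) ∧
      F.out i (join w g) n b
  cone : ∀ {K : Ca M → Prop}, DfF M K → (∀ x y, K x → F.Le x y → F.Le y x → K y) →
    (∀ w, ∃ x, K x ∧ F.Le w x) → ∃ z, ∀ x, F.Le z x → K x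

theorem Fam.Good.left {F : Fam M} (h : F.Good) (a b : Ca M) : F.Le a (join a b) := by
  simpa using h.ev (join a b)

theorem Fam.Good.right {F : Fam M} (h : F.Good) (a b : Ca M) : F.Le b (join a b) := by
  simpa using h.od (join a b)

/-- the form of Turing determinacy used against Bernstein sets -/
theorem Fam.Good.game {F : Fam M} (h : F.Good) (K₀ K₁ : Ca M → Prop) (h₀ : DfF M K₀)
    (h₁ : DfF M K₁) (c₀ : ∀ z, ∃ x, K₀ x ∧ TZ.ev x = z) (c₁ : ∀ z, ∃ x, K₁ x ∧ TZ.ev x = z) :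
    ∃ x₀ x₁ i j, K₀ x₀ ∧ K₁ x₁ ∧ F.val i x₀ = x₁ ∧ F.val j x₁ = x₀ := by
  have key : ∀ K : Ca M → Prop, DfF M K → (∀ z, ∃ x, K x ∧ TZ.ev x = z) →
      ∃ z, ∀ x, F.Le z x → ∃ y, K y ∧ F.Le x y ∧ F.Le y x := fun K hK c =>
    h.cone (by fun_prop) (fun x y ⟨z, a, b, c⟩ d e => ⟨z, a, h.trans e b, h.trans c d⟩)
      fun w => let ⟨x, a, b⟩ := c w; ⟨x, ⟨x, a, h.refl x, h.refl x⟩, b ▸ h.ev x⟩
  obtain ⟨z₀, a₀⟩ := key K₀ h₀ c₀
  obtain ⟨z₁, a₁⟩ := key K₁ h₁ c₁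
  obtain ⟨x₀, b1, b2, b3⟩ := a₀ _ (h.left z₀ z₁)
  obtain ⟨x₁, d1, d2, d3⟩ := a₁ _ (h.right z₀ z₁)
  obtain ⟨i, hi⟩ := h.trans d3 b2
  obtain ⟨j, hj⟩ := h.trans b3 d2
  exact ⟨x₀, x₁, i, j, b1, d1, hi.val, hj.val⟩

end Pool.Agent.MP_057cde_lc.TZ

end MrgPart0

-- ======== part 1: formerly Pool.Agent.MP_057cde_lc.zf.New
section MrgPart1

/-! For uncountable `A` the set `NewIn A` is invariant and cofinal. -/

namespace Pool.Agent.MP_057cde_lc.TZ

open Function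
open scoped Classical

variable {M : Type} [Mdl M] {Z : Type} [Srt M Z]

/-- `a` is the limit of the approximation `g` -/
def Lm (g a : Ca M) : Prop := ∀ n, ∃ s₀, ∀ s, s₀ ≤ s → g (N.pair n s) = a n

@[fun_prop] theorem DfF.lm {g a : Z → Ca M} (hg : DfF M g) (ha : DfF M a) :
    DfF M fun z => Lm (g z) (a z) := by
  simp only [Lm, imp_iff, all_iff]; fun_prop

/-- some member of `A` is limit computable but not computable in `x` -/
def Fam.NewIn (F : Fam M) (A : Ca M → Prop) (x : Ca M) : Prop :=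
  ∃ a, A a ∧ (∃ g, F.Le g x ∧ Lm g a) ∧ ¬ F.Le a x

/-- column `0` is `w`; in column `1` the column `n` is constantly `a n` -/
noncomputable def tgt (w a : Ca M) : Ca M :=
  ⟨fun i => if (N.unpair i).1 = 0 then w (N.unpair i).2 else a (N.unpair (N.unpair i).2).1,
    by have := w.df; have := a.df; fun_prop⟩

theorem tgt_ap (w a : Ca M) (i : N M) : tgt w a i =
    if (N.unpair i).1 = 0 then w (N.unpair i).2 else a (N.unpair (N.unpair i).2).1 := rfl

@[fun_prop] theorem DfF.tgt {w a : Z → Ca M} (hw : DfF M w) (ha : DfF M a) :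
    DfF M fun z => tgt (w z) (a z) :=
  DfF.of_ap (by simp only [tgt_ap]; fun_prop)

/-- `u` extends the first `k` bits of `y` and respects the coding of `w` and of `e` bits of `a` -/
def Near (w a : Ca M) (e : N M) (y : Ca M) (k : N M) (u : Ca M) : Prop :=
  Ag k y u ∧ ∀ i, k ≤ i → (N.unpair i).1 = 0 ∨ (N.unpair (N.unpair i).2).1 < e → u i = tgt w a i

@[fun_prop] theorem DfF.near {w a y u : Z → Ca M} {e k : Z → N M} (hw : DfF M w) (ha : DfF M a)
    (he : DfF M e) (hy : DfF M y) (hk : DfF M k) (hu : DfF M u) :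
    DfF M fun z => Near (w z) (a z) (e z) (y z) (k z) (u z) := by
  simp only [Near, imp_iff, all_iff]; fun_prop

theorem Near.congr {w a a' y y' u : Ca M} {e k : N M} (h : Near w a e y k u) (ha : Ag e a a')
    (hy : Ag k y y') : Near w a' e y' k u := by
  refine ⟨hy.symm.trans h.1, fun i h1 h2 => ?_⟩
  rw [h.2 i h1 h2, tgt_ap, tgt_ap]
  split_ifs with h0
  · rfl
  · exact ha _ (h2.resolve_left h0)

variable {F : Fam M} {A : Ca M → Prop}

theorem exists_new (hA : ¬ Ctb M A) (w : Ca M) :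
    ∃ x a, A a ∧ col x 0 = w ∧ Lm (col x 1) a ∧ ¬ F.Le a x := by
  let b : N M → Ca M := fun t => ⟨fun n => decide (∃ y k a e u, code y k = (N.unpair t).1 ∧
    code a e = (N.unpair t).2 ∧ Near w a e y k u ∧ F.out e u n true), by fun_prop⟩
  have hb : ∀ t n, b t n = true ↔ ∃ y k a e u, code y k = (N.unpair t).1 ∧
    code a e = (N.unpair t).2 ∧ Near w a e y k u ∧ F.out e u n true :=
    fun t n => decide_eq_true_iff
  obtain ⟨a, ha, hab⟩ : ∃ a, A a ∧ ∀ t, b t ≠ a := by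
    by_contra hc
    push Not at hc
    exact hA ⟨⟨b, DfF.of_ap (by dsimp only [b]; fun_prop)⟩, hc⟩
  obtain ⟨f, h0, hf⟩ := dc (M := M) (Y := Ca M × N M) (Q := fun _ _ => True)
    (R := fun e p q => p.2 < q.2 ∧ Near w a e p.1 p.2 q.1 ∧
      ((∃ n v, a n ≠ v ∧ ∀ z, Ag q.2 q.1 z → F.out e z n v) ∨
        ∀ u, Near w a e p.1 p.2 u → ∀ n v, F.out e u n v → a n = v))
    (by fun_prop) (by simp only [imp_iff, all_iff]; fun_prop) (fun e p _ => by
      by_cases h : ∀ u, Near w a e p.1 p.2 u → ∀ n v, F.out e u n v → a n = v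
      · exact ⟨(⟨fun i => if i < p.2 then p.1 i else tgt w a i, by fun_prop⟩, p.2 + 1), trivial,
          p.2.lt_succ, ⟨fun i hi => (if_pos hi).symm, fun i hi _ => if_neg hi.not_gt⟩, Or.inr h⟩
      · push Not at h
        obtain ⟨u, h1, n, v, h2, h3⟩ := h
        obtain ⟨l, hl⟩ := F.opn h2
        exact ⟨(u, max (p.2 + 1) l), trivial, p.2.lt_succ.trans_le (le_max_left _ _), h1,
          Or.inl ⟨n, v, h3, fun z hz => hl z (hz.mono (le_max_right _ _))⟩⟩)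
    (y₀ := (w, 0)) trivial
  have := f.df
  obtain ⟨x, hx⟩ := exists_limit (f := fun n => (f n).1) (l := fun n => (f n).2) (by fun_prop)
    (by fun_prop) (fun n => (hf n).2.1) fun n => (hf n).2.2.1.1
  have hn : ∀ e, Near w a e (f e).1 (f e).2 x := by
    refine fun e => ⟨(hx e).2, fun i h1 h2 => ?_⟩
    refine N.le_ind (P := fun j => i < (f j).2 → x i = tgt w a i)
      (by simp only [imp_iff]; fun_prop) (fun h => absurd h h1.not_gt) (fun j hj ih h => ?_)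
      (max e (i + 1)) (le_max_left _ _)
      (i.lt_succ.trans_le ((le_max_right _ _).trans (hx _).1))
    rcases lt_or_ge i (f j).2 with h3 | h3
    · exact ih h3
    · rw [← (hx (j + 1)).2 i h]
      exact (hf j).2.2.1.2 i h3 (h2.imp_right fun h => h.trans_le hj)
  have e1 : (1 : N M) ≠ 0 := by simpa using N.succ_ne_zero (0 : N M)
  refine ⟨x, a, ha, Fn.ext fun n => ?_, fun n => ⟨(f (n + 1)).2, fun s hs => ?_⟩,
    fun ⟨e, he⟩ => ?_⟩
  · rw [col_ap, (hn 0).2 _ (by rw [h0]; exact zero_le) (by simp), tgt_ap]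
    simp
  · rw [col_ap, (hn (n + 1)).2 _ (hs.trans ((N.right_le_pair _ _).trans (N.right_le_pair _ _)))
      (by simp only [N.unpair_pair]; exact Or.inr n.lt_succ), tgt_ap]
    simp [e1]
  · rcases (hf e).2.2.2 with ⟨n, v, h1, h2⟩ | h
    · exact h1 ((he n v).1 (h2 x (hx (e + 1)).2))
    · refine hab (N.pair (code (f e).1 (f e).2) (code a e)) (Fn.ext fun n => Bool.eq_iff_iff.2 ?_)
      simp only [hb, N.unpair_pair, code_eq]
      constructor
      · rintro ⟨y, k, a', e', u, ⟨rfl, b1⟩, ⟨rfl, b2⟩, b3, b4⟩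
        exact h u (b3.congr b2 b1) n true b4
      · exact fun b1 => ⟨_, _, _, _, x, ⟨rfl, Ag.refl _ _⟩, ⟨rfl, Ag.refl _ _⟩, hn e, (he n _).2 b1⟩

theorem Fam.Good.cone_new (h : F.Good) (dA : DfF M A) (hA : ¬ Ctb M A) :
    ∃ z, ∀ x, F.Le z x → F.NewIn A x := by
  refine h.cone (by unfold Fam.NewIn; fun_prop) ?_ fun w => ?_
  · rintro x y ⟨a, a1, ⟨g, a2, a3⟩, a4⟩ b1 b2
    exact ⟨a, a1, ⟨g, h.trans a2 b1, a3⟩, fun c => a4 (h.trans c b2)⟩
  · obtain ⟨x, a, a1, a2, a3, a4⟩ := exists_new (F := F) hA w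
    exact ⟨x, ⟨a, a1, ⟨_, h.col x 1, a3⟩, a4⟩, a2 ▸ h.col x 0⟩

end Pool.Agent.MP_057cde_lc.TZ

end MrgPart1

-- ======== part 2: formerly Pool.Agent.MP_057cde_lc.zf.Top
section MrgPart2

/-! Definable families of sets; open, closed, clopen and Borel sets of reals of the model. -/

namespace Pool.Agent.MP_057cde_lc.TZ.B

open Set

variable {M : Type} [Mdl M]

/-- a definable family of sets -/
@[fun_prop]
def DfS (M : Type) [Mdl M] {A Y : Type} [Srt M A] [Srt M Y] (S : A → Set Y) : Prop :=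
  DfF M fun p : A × Y => p.2 ∈ S p.1

/-- a definable set -/
def Ds (M : Type) [Mdl M] {Y : Type} [Srt M Y] (S : Set Y) : Prop := DfF M fun y => y ∈ S

section

variable {A B Y Z : Type} [Srt M A] [Srt M B] [Srt M Y] [Srt M Z]

@[fun_prop] theorem DfS.const {c : Set Y} (h : Ds M c) : DfS M fun _ : A => c :=
  DfF.comp (f := fun y => y ∈ c) h (DfF.snd DfF.id)

@[fun_prop] theorem DfS.comp {S : B → Set Y} {g : A → B} (hS : DfS M S) (hg : DfF M g) :
    DfS M fun a => S (g a) :=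
  DfF.comp (f := fun p : B × Y => p.2 ∈ S p.1) (g := fun p : A × Y => (g p.1, p.2)) hS
    (by fun_prop)

@[fun_prop] theorem df_mem {x : A → Y} {S : A → Set Y} (hx : DfF M x) (hS : DfS M S) :
    DfF M fun a => x a ∈ S a :=
  DfF.comp (f := fun p : A × Y => p.2 ∈ S p.1) (g := fun a => (a, x a)) hS (by fun_prop)

theorem DfS.at {S : A → Set Y} (h : DfS M S) (a : A) : Ds M (S a) :=
  df_mem DfF.id (h.comp (DfF.const a))

@[fun_prop] theorem DfS.inter {S T : A → Set Y} (h : DfS M S) (h' : DfS M T) :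
    DfS M fun a => S a ∩ T a := DfF.and h h'

@[fun_prop] theorem DfS.union {S T : A → Set Y} (h : DfS M S) (h' : DfS M T) :
    DfS M fun a => S a ∪ T a := DfF.or h h'

@[fun_prop] theorem DfS.diff {S T : A → Set Y} (h : DfS M S) (h' : DfS M T) :
    DfS M fun a => S a \ T a := DfF.and h (DfF.not h')

@[fun_prop] theorem DfS.compl {S : A → Set Y} (h : DfS M S) : DfS M fun a => (S a)ᶜ := DfF.not h

@[fun_prop] theorem DfS.coe {S : A → PS M Y} (hS : DfF M S) : DfS M fun a => (S a : Set Y) :=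
  DfF.mem_ps (DfF.snd DfF.id) (hS.comp (DfF.fst DfF.id))

@[fun_prop] theorem DfS.setOf {P : A → Y → Prop} (h : DfF M fun p : A × Y => P p.1 p.2) :
    DfS M fun a => {y | P a y} := h

@[fun_prop] theorem DfS.preimage {f : A → Y → Z} {S : A → Set Z}
    (hf : DfF M fun p : A × Y => f p.1 p.2) (h : DfS M S) :
    DfS M fun a => (fun y => f a y) ⁻¹' S a :=
  df_mem (S := fun p : A × Y => S p.1) hf (h.comp (DfF.fst DfF.id))

@[fun_prop] theorem DfS.univ : DfS M fun _ : A => (univ : Set Y) := DfF.const True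

@[fun_prop] theorem df_subset {S T : A → Set Y} (h : DfS M S) (h' : DfS M T) :
    DfF M fun a => S a ⊆ T a :=
  DfF.all (P := fun a y => Imp (y ∈ S a) (y ∈ T a)) (DfF.imp h h')

@[fun_prop] theorem df_nonempty {S : A → Set Y} (h : DfS M S) : DfF M fun a => (S a).Nonempty :=
  DfF.ex (P := fun a y => y ∈ S a) h

@[fun_prop] theorem df_setEq {S T : A → Set Y} (h : DfS M S) (h' : DfS M T) :
    DfF M fun a => S a = T a :=
  ((df_subset h h').and (df_subset h' h)).congr fun _ => Subset.antisymm_iff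

theorem ds_coe (p : PS M Y) : Ds M (p : Set Y) := DfF.mem_ps DfF.id (DfF.const p)

theorem ds_univ : Ds M (univ : Set Y) := DfF.const True

/-- the internal copy of a definable set -/
noncomputable def ps (M : Type) [Mdl M] {Y : Type} [Srt M Y] (S : Set Y) : PS M Y :=
  PS.of M fun y => y ∈ S

theorem Ds.coe_ps [Sm M Y] {S : Set Y} (h : Ds M S) : (ps M S : Set Y) = S :=
  Set.ext fun _ => PS.mem_of h

theorem Ds.mem_ps [Sm M Y] {S : Set Y} (h : Ds M S) {y : Y} : y ∈ ps M S ↔ y ∈ S := PS.mem_of h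

@[fun_prop] theorem df_ps [Sm M Y] {S : A → Set Y} (h : DfS M S) : DfF M fun a => ps M (S a) :=
  DfF.psOf (P := fun a y => y ∈ S a) h

theorem ps_coe [Sm M Y] (p : PS M Y) : ps M (p : Set Y) = p := PS.ext fun _ => (ds_coe p).mem_ps

end

/-- open -/
structure Opn (U : Set (Ca M)) : Prop where
  ds : Ds M U
  ex : ∀ x ∈ U, ∃ k, ∀ y, Ag k x y → y ∈ U

/-- closed -/
def Cls (F : Set (Ca M)) : Prop := Opn Fᶜ

/-- clopen -/
structure Clp (q : Set (Ca M)) : Prop where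
  ds : Ds M q
  ex : ∃ k, ∀ x y, Ag k x y → x ∈ q → y ∈ q

variable {A : Type} [Srt M A] {F P Q U V t q : Set (Ca M)}

theorem Cls.ds (h : Cls F) : Ds M F := (DfF.not (Opn.ds h)).congr fun _ => not_not.symm

@[fun_prop] theorem DfS.of_opn (h : Opn U) : DfS M fun _ : A => U := DfS.const h.ds

@[fun_prop] theorem DfS.of_cls (h : Cls U) : DfS M fun _ : A => U := DfS.const h.ds

@[fun_prop] theorem DfS.of_clp (h : Clp U) : DfS M fun _ : A => U := DfS.const h.ds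

@[fun_prop] theorem df_opn {U : A → Set (Ca M)} (h : DfS M U) : DfF M fun a => Opn (U a) :=
  DfF.congr (P := fun a => ∀ x ∈ U a, ∃ k, ∀ y, Ag k x y → y ∈ U a)
    (by simp only [imp_iff, all_iff]; fun_prop) fun a => ⟨fun b => b.ex, fun b => ⟨h.at a, b⟩⟩

@[fun_prop] theorem df_cls {U : A → Set (Ca M)} (h : DfS M U) : DfF M fun a => Cls (U a) :=
  df_opn h.compl

@[fun_prop] theorem df_clp {U : A → Set (Ca M)} (h : DfS M U) : DfF M fun a => Clp (U a) :=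
  DfF.congr (P := fun a => ∃ k, ∀ x y, Ag k x y → x ∈ U a → y ∈ U a)
    (by simp only [imp_iff, all_iff]; fun_prop) fun a => ⟨fun b => b.ex, fun b => ⟨h.at a, b⟩⟩

@[fun_prop] theorem df_exC {p : A → Set (Ca M) → Prop}
    (h : DfF M fun z : A × PS M (Ca M) => p z.1 z.2) : DfF M fun a => ∃ q, Clp q ∧ p a q :=
  DfF.congr (P := fun a => ∃ q : PS M (Ca M), Clp (q : Set (Ca M)) ∧ p a q)
    (DfF.ex (DfF.and (by fun_prop) h)) fun _ =>
    ⟨fun ⟨q, a, b⟩ => ⟨ps M q, by rw [a.ds.coe_ps]; exact ⟨a, b⟩⟩, fun ⟨q, a⟩ => ⟨q, a⟩⟩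

@[fun_prop] theorem df_allC {p : A → Set (Ca M) → Prop}
    (h : DfF M fun z : A × PS M (Ca M) => p z.1 z.2) :
    DfF M fun a => All fun q => Imp (Clp q) (p a q) :=
  (df_exC (p := fun a q => ¬ p a q) h.not).not.congr fun _ => by simp [All, Imp]

theorem Clp.opn (h : Clp q) : Opn q :=
  ⟨h.ds, fun x hx => h.ex.imp fun _ a y b => a x y b hx⟩

theorem Clp.compl (h : Clp q) : Clp qᶜ :=
  ⟨DfF.not h.ds, h.ex.imp fun _ a x y b c d => c (a y x b.symm d)⟩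

theorem Clp.cls (h : Clp q) : Cls q := h.compl.opn

theorem Clp.inter (h : Clp q) (h' : Clp t) : Clp (q ∩ t) :=
  let ⟨k, a⟩ := h.ex
  let ⟨l, b⟩ := h'.ex
  ⟨DfF.and h.ds h'.ds, max k l, fun x y c d =>
    ⟨a x y (c.mono (le_max_left _ _)) d.1, b x y (c.mono (le_max_right _ _)) d.2⟩⟩

theorem Clp.diff (h : Clp q) (h' : Clp t) : Clp (q \ t) := h.inter h'.compl

theorem clp_univ : Clp (univ : Set (Ca M)) := ⟨ds_univ, 0, fun _ _ _ _ => trivial⟩

theorem clp_box (x : Ca M) (k : N M) : Clp {y | Ag k x y} :=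
  ⟨show DfF M fun y => Ag k x y by fun_prop, k, fun _ _ a b => Ag.trans b a⟩

theorem Clp.preimage {f : Ca M → Ca M} (h : Clp q) (hf : Cont f) : Clp (f ⁻¹' q) :=
  let ⟨k, a⟩ := h.ex
  let ⟨l, b⟩ := hf.uc k
  ⟨DfF.comp (f := fun y => y ∈ q) h.ds hf.df, l, fun x y c => a _ _ (b x y c)⟩

theorem Opn.inter (h : Opn U) (h' : Opn V) : Opn (U ∩ V) :=
  ⟨DfF.and h.ds h'.ds, fun x hx =>
    let ⟨k, a⟩ := h.ex x hx.1
    let ⟨l, b⟩ := h'.ex x hx.2
    ⟨max k l, fun y c => ⟨a y (c.mono (le_max_left _ _)), b y (c.mono (le_max_right _ _))⟩⟩⟩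

theorem Opn.union (h : Opn U) (h' : Opn V) : Opn (U ∪ V) :=
  ⟨DfF.or h.ds h'.ds, fun x hx => hx.elim
    (fun a => (h.ex x a).imp fun _ b y c => Or.inl (b y c))
    fun a => (h'.ex x a).imp fun _ b y c => Or.inr (b y c)⟩

theorem Opn.sdiff (h : Opn U) (h' : Cls F) : Opn (U \ F) := h.inter h'

theorem Cls.inter (h : Cls F) (h' : Cls P) : Cls (F ∩ P) := by
  unfold Cls
  rw [compl_inter]
  exact Opn.union h h'

theorem cls_univ : Cls (univ : Set (Ca M)) := clp_univ.cls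

theorem Cls.mem (h : Cls F) {x : Ca M} (hx : ∀ k, ∃ y ∈ F, Ag k x y) : x ∈ F := by
  by_contra hc
  obtain ⟨k, hk⟩ := Opn.ex h x hc
  obtain ⟨y, a, b⟩ := hx k
  exact hk y b a

theorem exists_clopen (hU : Opn U) {x : Ca M} (hx : x ∈ U) : ∃ q, Clp q ∧ x ∈ q ∧ q ⊆ U :=
  let ⟨k, hk⟩ := hU.ex x hx
  ⟨_, clp_box x k, Ag.refl k x, hk⟩

theorem opn_of_clp (hU : Ds M U) (h : ∀ x ∈ U, ∃ q, Clp q ∧ x ∈ q ∧ q ⊆ U) : Opn U :=
  ⟨hU, fun x hx =>
    let ⟨_, a, b, c⟩ := h x hx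
    (a.opn.ex x b).imp fun _ d y e => c (d y e)⟩

theorem opn_exC {p : Set (Ca M) → Prop} (hp : DfF M fun q : PS M (Ca M) => p q) :
    Opn {x | ∃ q, Clp q ∧ p q ∧ x ∈ q} :=
  opn_of_clp (df_exC (p := fun x q => p q ∧ x ∈ q) ((hp.comp DfF.id.snd).and (by fun_prop)))
    fun _ ⟨q, a, b, c⟩ => ⟨q, a, c, fun _ d => ⟨q, a, b, d⟩⟩

theorem opn_ne (y : Ca M) : Opn {x | x ≠ y} :=
  ⟨show DfF M fun x => x ≠ y by fun_prop, fun x hx => by
    obtain ⟨k, hk⟩ := not_forall.1 fun a => hx (eq_of_ag a)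
    exact ⟨k, fun z a (b : z = y) => hk (b ▸ a)⟩⟩

theorem ctb_clp : Ctb M fun q : PS M (Ca M) => Clp (q : Set (Ca M)) := by
  have h : ∀ k, Ctb M fun q : PS M (Ca M) => ∀ x y, Ag k x y → x ∈ q → y ∈ q := by
    refine N.ind (by simp only [imp_iff, all_iff]; fun_prop) ?_ fun k ih => ?_
    · refine ((Ctb.single (ps M univ)).union (Ctb.single (ps M univᶜ))).mono fun q hq => ?_
      by_cases hx : ∃ x, x ∈ q
      · exact Or.inl (PS.ext fun y => (iff_true_right (ds_univ.mem_ps.2 trivial)).2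
          (hx.elim fun x a => hq x y (ag_zero _ _) a))
      · exact Or.inr (PS.ext fun y => iff_of_false (fun a => hx ⟨y, a⟩)
          fun a => clp_univ.compl.ds.mem_ps.1 a trivial)
    · refine ((ih.prod ih).image (f := fun p : PS M (Ca M) × PS M (Ca M) =>
        PS.of M fun x : Ca M => x ∈ cond (x k) p.1 p.2) (by fun_prop)).mono fun q hq => ?_
      have e : ∀ b x, x ∈ PS.of M (fun x => upd x k b ∈ q) ↔ upd x k b ∈ q :=
        fun b x => PS.mem_of (by fun_prop)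
      have h1 : ∀ b x y, Ag k x y → x ∈ PS.of M (fun x => upd x k b ∈ q) →
          y ∈ PS.of M (fun x => upd x k b ∈ q) := fun b x y a => by
        rw [e, e]
        exact hq _ _ (ag_succ.2 ⟨(ag_upd x k b).symm.trans (a.trans (ag_upd y k b)),
          by rw [upd_self, upd_self]⟩)
      refine ⟨(PS.of M fun x => upd x k true ∈ q, PS.of M fun x => upd x k false ∈ q),
        ⟨h1 true, h1 false⟩, PS.ext fun x => ?_⟩
      have h2 : upd x k (x k) = x := Fn.ext fun i => by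
        by_cases a : i = k
        · rw [a, upd_self]
        · exact upd_ne x _ a
      rw [PS.mem_of (by fun_prop)]
      cases hx : x k <;> rw [hx] at h2 <;> simp only [cond, e, h2]
  exact (Ctb.iUnion (by simp only [imp_iff, all_iff]; fun_prop) h).mono fun q hq => hq.ex

/-- an enumeration of the clopen sets -/
theorem exists_enumC : ∃ e : N M → Set (Ca M), DfS M e ∧ ∀ q, Clp q → ∃ n, e n = q := by
  obtain ⟨e, he⟩ := ctb_clp (M := M)
  refine ⟨fun n => e n, DfS.coe e.df, fun q hq => ?_⟩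
  obtain ⟨n, hn⟩ := he (ps M q) (hq.ds.coe_ps.symm ▸ hq :)
  exact ⟨n, by simp only [hn, hq.ds.coe_ps]⟩

/-- compactness -/
theorem compact_ind {p : Set (Ca M) → Prop} (hp : DfF M fun q : PS M (Ca M) => p q)
    (hm : ∀ s t, s ⊆ t → p t → p s) (hu : ∀ s t, p s → p t → p (s ∪ t))
    (h : ∀ x, ∃ q, Clp q ∧ x ∈ q ∧ p q) : p univ := by
  refine hm _ _ (fun y _ => ag_zero _ y) (bar_ind (P := fun x k => p {y | Ag k x y})
    ((hp.comp (g := fun z : Ca M × N M => ps M {y | Ag z.2 z.1 y}) (by fun_prop)).congr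
      fun z => by rw [(clp_box _ _).ds.coe_ps]) (fun x k a => ?_) (fun x => ?_)
    (Classical.arbitrary _))
  · refine hm _ _ (fun y (b : Ag k x y) => ?_) (hu _ _ (a true) (a false))
    have key : ∀ c, y k = c → Ag (k + 1) (upd x k c) y := fun c e =>
      ag_succ.2 ⟨(ag_upd x k c).symm.trans b, by rw [upd_self, e]⟩
    cases e : y k
    · exact Or.inr (key _ e)
    · exact Or.inl (key _ e)
  · obtain ⟨q, a, b, c⟩ := h x
    obtain ⟨k, hk⟩ := a.opn.ex x b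
    exact ⟨k, fun y d => hm _ _ (fun z e => hk z (d.symm.trans e)) c⟩

/-! Borel sets -/

/-- a sigma algebra that contains the open sets -/
def Sig (S : PS M (PS M (Ca M))) : Prop :=
  (∀ U : PS M (Ca M), Opn (U : Set (Ca M)) → U ∈ S) ∧ (∀ p ∈ S, ps M (p : Set (Ca M))ᶜ ∈ S) ∧
    ∀ f : Fn M (N M) (PS M (Ca M)), (∀ n, f n ∈ S) → ps M {x | ∃ n, x ∈ f n} ∈ S

/-- Borel -/
structure Bor (P : Set (Ca M)) : Prop where
  ds : Ds M P
  mem : ∀ S, Sig S → ps M P ∈ S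

@[fun_prop] theorem DfS.of_bor (h : Bor U) : DfS M fun _ : A => U := DfS.const h.ds

@[fun_prop] theorem df_bor {U : A → Set (Ca M)} (h : DfS M U) : DfF M fun a => Bor (U a) :=
  DfF.congr (P := fun a => ∀ S, Sig S → ps M (U a) ∈ S)
    (by simp only [Sig, imp_iff, all_iff]; fun_prop) fun a =>
      ⟨fun b => b.mem, fun b => ⟨h.at a, b⟩⟩

theorem Opn.bor (h : Opn U) : Bor U := ⟨h.ds, fun _ a => a.1 _ (by rwa [h.ds.coe_ps])⟩

theorem Clp.bor (h : Clp U) : Bor U := h.opn.bor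

theorem Bor.compl (h : Bor P) : Bor Pᶜ :=
  ⟨DfF.not h.ds, fun S a => by simpa only [h.ds.coe_ps] using a.2.1 _ (h.mem S a)⟩

theorem Bor.ex {P : N M → Set (Ca M)} (d : DfS M P) (h : ∀ n, Bor (P n)) :
    Bor {x | ∃ n, x ∈ P n} :=
  ⟨show DfF M fun x => ∃ n, x ∈ P n by fun_prop, fun S a => by
    have e : ∀ n x, x ∈ ps M (P n) ↔ x ∈ P n := fun n _ => (d.at n).mem_ps
    simpa only [e] using a.2.2 ⟨fun n => ps M (P n), by fun_prop⟩ fun n => (h n).mem S a⟩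

theorem Bor.ind {p : Set (Ca M) → Prop} (hp : DfF M fun q : PS M (Ca M) => p q)
    (h1 : ∀ U, Opn U → p U) (h2 : ∀ P, Bor P → p P → p Pᶜ)
    (h3 : ∀ P : N M → Set (Ca M), DfS M P → (∀ n, Bor (P n)) → (∀ n, p (P n)) →
      p {x | ∃ n, x ∈ P n}) (h : Bor P) : p P := by
  have e : ∀ q : PS M (Ca M), q ∈ PS.of M (fun q : PS M (Ca M) => Bor (q : Set (Ca M)) ∧ p q) ↔
      Bor (q : Set (Ca M)) ∧ p q := fun q => PS.mem_of (DfF.and (by fun_prop) hp)
  have := (e _).1 (h.mem _ ⟨fun U a => (e U).2 ⟨a.bor, h1 _ a⟩, fun q a => ?_, fun f a => ?_⟩)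
  · rw [h.ds.coe_ps] at this
    exact this.2
  · rw [e] at a ⊢
    rw [a.1.compl.ds.coe_ps]
    exact ⟨a.1.compl, h2 _ a.1 a.2⟩
  · simp only [e] at a ⊢
    have b : Bor {x | ∃ n, x ∈ f n} := Bor.ex (P := fun n => f n) (DfS.coe f.df) fun n => (a n).1
    rw [Ds.coe_ps b.ds]
    exact ⟨b, h3 _ (DfS.coe f.df) (fun n => (a n).1) fun n => (a n).2⟩

/-- a Borel property of reals -/
def Ms (p : Ca M → Prop) : Prop := Bor {x | p x}

section

variable {p p' : Ca M → Prop}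

theorem Ms.df (h : Ms p) : DfF M p := Bor.ds h

@[fun_prop] theorem df_ms {p : A → Ca M → Prop} (h : DfF M fun z : A × Ca M => p z.1 z.2) :
    DfF M fun a => Ms fun x => p a x := df_bor (DfS.setOf h)

theorem Ms.congr (h : Ms p) (e : ∀ x, p' x ↔ p x) : Ms p' := by
  rwa [show p' = p from funext fun x => propext (e x)]

theorem Ms.not (h : Ms p) : Ms fun x => ¬ p x := Bor.compl h

theorem Ms.ex {p : N M → Ca M → Prop} (d : DfF M fun z : N M × Ca M => p z.1 z.2)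
    (h : ∀ n, Ms (p n)) : Ms fun x => ∃ n, p n x := Bor.ex (DfS.setOf d) h

theorem Ms.all {p : N M → Ca M → Prop} (d : DfF M fun z : N M × Ca M => p z.1 z.2)
    (h : ∀ n, Ms (p n)) : Ms fun x => ∀ n, p n x :=
  (Ms.ex d.not fun n => (h n).not).not.congr fun _ => by simp

theorem Ms.or (h : Ms p) (h' : Ms p') : Ms fun x => p x ∨ p' x := by
  have := h.df
  have := h'.df
  refine (Ms.ex (p := fun n x => (n = 0 ∧ p x) ∨ (n ≠ 0 ∧ p' x)) (by fun_prop)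
    fun n => ?_).congr fun x => ⟨?_, ?_⟩
  · by_cases a : n = 0
    · exact h.congr fun _ => by simp [a]
    · exact h'.congr fun _ => by simp [a]
  · rintro (a | a)
    · exact ⟨0, Or.inl ⟨rfl, a⟩⟩
    · exact ⟨0 + 1, Or.inr ⟨N.succ_ne_zero 0, a⟩⟩
  · rintro ⟨_, a | a⟩
    · exact Or.inl a.2
    · exact Or.inr a.2

theorem Ms.and (h : Ms p) (h' : Ms p') : Ms fun x => p x ∧ p' x :=
  (h.not.or h'.not).not.congr fun _ => by tauto

theorem Ms.imp (h : Ms p) (h' : Ms p') : Ms fun x => p x → p' x :=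
  (h.not.or h').congr fun _ => by tauto

theorem Ms.iff (h : Ms p) (h' : Ms p') : Ms fun x => p x ↔ p' x :=
  ((h.imp h').and (h'.imp h)).congr fun _ => iff_def

theorem ms_const {c : Prop} : Ms fun _ : Ca M => c := by
  have h : Ms fun _ : Ca M => True := clp_univ.bor
  by_cases a : c
  · exact h.congr fun _ => by simp [a]
  · exact h.not.congr fun _ => by simp [a]

theorem Ms.cond {c : Prop} (h : c → Ms p) : Ms fun x => c ∧ p x := by
  by_cases a : c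
  · exact (h a).congr fun _ => by simp [a]
  · exact (ms_const (c := False)).congr fun _ => by simp [a]

theorem Ms.ex_fin {ι : Type} [Finite ι] {p : ι → Ca M → Prop} (h : ∀ i, Ms (p i)) :
    Ms fun x => ∃ i, p i x := by
  classical
  have := Fintype.ofFinite ι
  have key : ∀ S : Finset ι, Ms fun x => ∃ i ∈ S, p i x := fun S => by
    induction S using Finset.induction_on with
    | empty => exact (ms_const (c := False)).congr fun _ => by simp
    | insert i S _ ih => exact ((h i).or ih).congr fun _ => by simp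
  exact (key Finset.univ).congr fun _ => by simp

theorem Ms.all_fin {ι : Type} [Finite ι] {p : ι → Ca M → Prop} (h : ∀ i, Ms (p i)) :
    Ms fun x => ∀ i, p i x :=
  (Ms.ex_fin fun i => (h i).not).not.congr fun _ => by simp

theorem meas_ex {p : Set (Ca M) → Ca M → Prop}
    (d : DfF M fun z : PS M (Ca M) × Ca M => p z.1 z.2) (h : ∀ q, Clp q → Ms (p q)) :
    Ms fun x => ∃ q, Clp q ∧ p q x := by
  obtain ⟨e, d1, he⟩ := exists_enumC (M := M)
  refine (Ms.ex (p := fun n x => Clp (e n) ∧ p (e n) x) ?_ fun n => Ms.cond (h _)).congr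
    fun x => ⟨fun ⟨q, a, b⟩ => ?_, fun ⟨n, a⟩ => ⟨_, a⟩⟩
  · refine DfF.congr (P := fun z : N M × Ca M => Clp (e z.1) ∧ p (ps M (e z.1)) z.2)
      (DfF.and (by fun_prop) (d.comp (g := fun z : N M × Ca M => (ps M (e z.1), z.2))
        (by fun_prop))) fun z => by rw [(d1.at _).coe_ps]
  · obtain ⟨n, rfl⟩ := he q a
    exact ⟨n, a, b⟩

theorem meas_all {p : Set (Ca M) → Ca M → Prop}
    (d : DfF M fun z : PS M (Ca M) × Ca M => p z.1 z.2) (h : ∀ q, Clp q → Ms (p q)) :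
    Ms fun x => ∀ q, Clp q → p q x :=
  (meas_ex (p := fun q x => ¬ p q x) d.not fun q a => (h q a).not).not.congr fun _ => by simp

end

theorem Bor.inter (h : Bor P) (h' : Bor Q) : Bor (P ∩ Q) := Ms.and h h'

theorem Bor.diff (h : Bor P) (h' : Bor Q) : Bor (P \ Q) := h.inter h'.compl

/-- a Borel map -/
structure Meas (f : Ca M → Ca M) : Prop where
  df : DfF M f
  bit : ∀ i, Ms fun x => f x i = true

@[fun_prop] theorem df_meas {f : A → Ca M → Ca M} (h : DfF M fun z : A × Ca M => f z.1 z.2) :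
    DfF M fun a => Meas fun x => f a x :=
  DfF.congr (P := fun a => ∀ i, Ms fun x => f a x i = true)
    (by simp only [all_iff]; fun_prop) fun a => ⟨fun b => b.bit, fun b => ⟨by fun_prop, b⟩⟩

variable {f g : Ca M → Ca M}

theorem ms_eq {a b : Ca M → Bool} (ha : Ms fun x => a x = true) (hb : Ms fun x => b x = true) :
    Ms fun x => a x = b x := (ha.iff hb).congr fun _ => Bool.eq_iff_iff

theorem Meas.pre (hf : Meas f) (h : Bor P) : Bor (f ⁻¹' P) := by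
  have := hf.df
  refine h.ind (p := fun P => Bor (f ⁻¹' P)) (by fun_prop) (fun U hU => ?_)
    (fun _ _ a => a.compl) fun P d _ a => Bor.ex (P := fun n => f ⁻¹' P n) (by fun_prop) a
  refine Ms.congr (meas_ex (p := fun q x => (q ⊆ U ∧ ∃ y k, q = {z | Ag k y z}) ∧ f x ∈ q)
    (by fun_prop) fun q _ => Ms.cond ?_) fun x => ⟨fun a => ?_, fun ⟨q, _, a, b⟩ => a.1 b⟩
  · rintro ⟨-, y, k, rfl⟩
    exact Ms.all (p := fun i x => i < k → y i = f x i) (by simp only [imp_iff]; fun_prop)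
      fun i => ms_const.imp (ms_eq ms_const (hf.bit i))
  · obtain ⟨k, hk⟩ := hU.ex _ a
    exact ⟨_, clp_box (f x) k, ⟨hk, _, _, rfl⟩, Ag.refl _ _⟩

theorem Ms.comp {p : Ca M → Prop} (h : Ms p) (hf : Meas f) : Ms fun x => p (f x) := hf.pre h

theorem Meas.comp (hf : Meas f) (hg : Meas g) : Meas fun x => f (g x) :=
  ⟨hf.df.comp hg.df, fun i => (hf.bit i).comp hg⟩

theorem meas_of_cont (hf : Cont f) : Meas f :=
  ⟨hf.df, fun i => Clp.bor ⟨show DfF M fun x => f x i = true by have := hf.df; fun_prop,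
    (hf.uc (i + 1)).imp fun _ a x y b c => (a x y b i i.lt_succ).symm.trans c⟩⟩

theorem meas_id : Meas fun x : Ca M => x := meas_of_cont Cont.id

theorem Meas.ev (hf : Meas f) : Meas fun x => ev (f x) := (meas_of_cont Cont.id.ev).comp hf

theorem Meas.od (hf : Meas f) : Meas fun x => od (f x) := (meas_of_cont Cont.id.od).comp hf

theorem meas_mem (hf : Meas f) (hs : Clp q) : Ms fun x => f x ∈ q := hf.pre hs.bor

theorem meas_eqc (hf : Meas f) (hg : Meas g) : Ms fun x => f x = g x := by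
  have := hf.df
  have := hg.df
  exact (Ms.all (p := fun i x => f x i = g x i) (by fun_prop)
    fun i => ms_eq (hf.bit i) (hg.bit i)).congr fun _ => Fn.ext_iff

end Pool.Agent.MP_057cde_lc.TZ.B

end MrgPart2

-- ======== part 3: formerly Pool.Agent.MP_057cde_lc.zf.Meagre
section MrgPart3

/-! Meagre sets relative to a closed set of reals of the model. -/

namespace Pool.Agent.MP_057cde_lc.TZ.B

open Set

variable {M : Type} [Mdl M] {A : Type} [Srt M A]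

/-- `U` is dense in `F` -/
def Dns (F U : Set (Ca M)) : Prop := ∀ x ∈ F, ∀ k, ∃ y ∈ F, Ag k x y ∧ y ∈ U

/-- `P` is meagre in the subspace `F` -/
def Mg (F P : Set (Ca M)) : Prop :=
  ∃ V : Fn M (N M) (PS M (Ca M)), (∀ k, Opn (V k : Set (Ca M)) ∧ Dns F (V k)) ∧
    ∀ x ∈ F, (∀ k, x ∈ V k) → x ∉ P

variable {F P Q U t q : Set (Ca M)}

@[fun_prop] theorem df_dns {F U : A → Set (Ca M)} (h : DfS M F) (h' : DfS M U) :
    DfF M fun a => Dns (F a) (U a) := by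
  simp only [Dns, imp_iff, all_iff]; fun_prop

@[fun_prop] theorem df_mg {F U : A → Set (Ca M)} (h : DfS M F) (h' : DfS M U) :
    DfF M fun a => Mg (F a) (U a) := by
  simp only [Mg, imp_iff, all_iff]; fun_prop

theorem mg_of {V : N M → Set (Ca M)} (d : DfS M V) (h : ∀ k, Opn (V k) ∧ Dns F (V k))
    (h' : ∀ x ∈ F, (∀ k, x ∈ V k) → x ∉ P) : Mg F P :=
  ⟨⟨fun k => ps M (V k), by fun_prop⟩, fun k => by simpa only [(d.at k).coe_ps] using h k,
    fun x a b => h' x a fun k => (d.at k).mem_ps.1 (b k)⟩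

theorem Mg.mono (h : Mg F Q) (hs : ∀ x ∈ F, x ∈ P → x ∈ Q) : Mg F P :=
  h.imp fun _ a => ⟨a.1, fun x b c d => a.2 x b c (hs x b d)⟩

theorem Dns.inter {V : Set (Ca M)} (hU : Opn U) (h : Dns F U) (h' : Dns F V) : Dns F (U ∩ V) := by
  intro x hx k
  obtain ⟨y, a1, a2, a3⟩ := h x hx k
  obtain ⟨l, hl⟩ := hU.ex y a3
  obtain ⟨z, b1, b2, b3⟩ := h' y a1 (max k l)
  exact ⟨z, b1, a2.trans (b2.mono (le_max_left _ _)), hl z (b2.mono (le_max_right _ _)), b3⟩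

theorem Mg.union (h : Mg F P) (h' : Mg F Q) : Mg F (P ∪ Q) := by
  obtain ⟨V, a1, a2⟩ := h
  obtain ⟨W, b1, b2⟩ := h'
  have := V.df
  have := W.df
  exact mg_of (V := fun k => V k ∩ W k) (by fun_prop)
    (fun k => ⟨(a1 k).1.inter (b1 k).1, (a1 k).2.inter (a1 k).1 (b1 k).2⟩)
    fun x a b c => c.elim (a2 x a fun k => (b k).1) (b2 x a fun k => (b k).2)

theorem mg_compl (hU : Opn U) (h : Dns F U) : Mg F Uᶜ :=
  mg_of (V := fun _ => U) (by fun_prop) (fun _ => ⟨hU, h⟩) fun _ _ b c => c (b 0)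

theorem mg_empty (h : ∀ x ∈ F, x ∉ P) : Mg F P :=
  (mg_compl clp_univ.opn fun x a k => ⟨x, a, Ag.refl k x, trivial⟩).mono
    fun x a b => (h x a b).elim

theorem Mg.ex {P : N M → Set (Ca M)} (hF : Ds M F) (d : DfS M P) (h : ∀ i, Mg F (P i)) :
    Mg F {x | ∃ i, x ∈ P i} := by
  obtain ⟨V, hV⟩ := cc (M := M) (R := fun i (V : Fn M (N M) (PS M (Ca M))) =>
    (∀ k, Opn (V k : Set (Ca M)) ∧ Dns F (V k)) ∧ ∀ x ∈ F, (∀ k, x ∈ V k) → x ∉ P i)
    (by simp only [imp_iff, all_iff]; fun_prop) h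
  have := V.df
  refine mg_of (V := fun m => V (N.unpair m).1 (N.unpair m).2) (by fun_prop)
    (fun k => (hV _).1 _) fun x a b ⟨i, c⟩ => (hV i).2 x a (fun k => ?_) c
  simpa only [N.unpair_pair, SetLike.mem_coe] using b (N.pair i k)

theorem Mg.fin {ι : Type} [Finite ι] {P : ι → Set (Ca M)} (h : ∀ i, Mg F (P i)) :
    Mg F {x | ∃ i, x ∈ P i} := by
  classical
  have := Fintype.ofFinite ι
  have key : ∀ S : Finset ι, Mg F {x | ∃ i ∈ S, x ∈ P i} := fun S => by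
    induction S using Finset.induction_on with
    | empty => exact mg_empty fun _ _ => by simp
    | insert i S _ ih => exact ((h i).union ih).mono fun _ _ => by simp
  exact (key Finset.univ).mono fun _ _ => by simp

theorem Mg.cond {p : Prop} (h : p → Mg F P) : Mg F {x | p ∧ x ∈ P} := by
  by_cases hp : p
  · exact (h hp).mono fun _ _ hx => hx.2
  · exact mg_empty fun _ _ hx => hp hx.1

theorem Mg.cl {Z : Set (Ca M) → Set (Ca M)} (hF : Ds M F)
    (d : DfS M fun q : PS M (Ca M) => Z q) (h : ∀ q, Clp q → Mg F (Z q)) :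
    Mg F {x | ∃ q, Clp q ∧ x ∈ Z q} := by
  obtain ⟨e, d1, he⟩ := exists_enumC (M := M)
  have d2 : DfS M fun n => Z (e n) := by
    simpa only [fun n => (d1.at n).coe_ps] using d.comp (df_ps d1)
  refine (Mg.ex (P := fun n => {x | Clp (e n) ∧ x ∈ Z (e n)}) hF (DfF.and (by fun_prop) d2)
    fun n => Mg.cond (h _)).mono fun x _ ⟨q, a, b⟩ => ?_
  obtain ⟨n, rfl⟩ := he q a
  exact ⟨n, a, b⟩

theorem baire (hF : Cls F) (hU : Opn U) (h : Mg F U) : ∀ x ∈ F, x ∉ U := by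
  intro x hx hxU
  obtain ⟨V, h1, h2⟩ := h
  have := V.df
  obtain ⟨k, hk⟩ := hU.ex x hxU
  obtain ⟨f, e, hf⟩ := dc (M := M) (Q := fun _ (p : Ca M × N M) => p.1 ∈ F)
    (R := fun n p p' => p.2 < p'.2 ∧ Ag p.2 p.1 p'.1 ∧ ∀ y, Ag p'.2 p'.1 y → y ∈ V n)
    (by fun_prop) (by simp only [imp_iff, all_iff]; fun_prop) (y₀ := (x, k)) (by
      rintro n ⟨y, l⟩ hy
      obtain ⟨z, a1, a2, a3⟩ := (h1 n).2 y hy l
      obtain ⟨m, hm⟩ := (h1 n).1.ex z a3
      exact ⟨(z, max (l + 1) m), a1, l.lt_succ.trans_le (le_max_left _ _), a2,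
        fun u a => hm u (a.mono (le_max_right _ _))⟩) hx
  have := f.df
  obtain ⟨z, hz⟩ := exists_limit (f := fun n => (f n).1) (l := fun n => (f n).2) (by fun_prop)
    (by fun_prop) (fun n => (hf n).2.1) fun n => (hf n).2.2.1
  refine h2 z (hF.mem fun n => ⟨_, (hf n).1, ((hz n).2.mono (hz n).1).symm⟩)
    (fun n => (hf n).2.2.2 z (hz _).2) (hk z ?_)
  simpa only [e] using (hz 0).2

theorem not_mg (hF : Cls F) (hq : Clp q) (hne : (F ∩ q).Nonempty) : ¬ Mg F q :=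
  fun h => let ⟨x, h1, h2⟩ := hne; baire hF hq.opn h x h1 h2

theorem exists_pt (hF : Cls F) (hq : Clp q) (hne : (F ∩ q).Nonempty)
    (h : Mg F (q \ P)) : ∃ x ∈ F, x ∈ q ∧ x ∈ P := by
  by_contra hc
  push Not at hc
  exact not_mg hF hq hne (h.mono fun x h1 h2 => ⟨h2, hc x h1 h2⟩)

theorem Bor.approx (hF : Ds M F) (hP : Bor P) : ∃ V, Opn V ∧ Mg F (V \ P) ∧ Mg F (P \ V) := by
  suffices h : ∃ V : PS M (Ca M), Opn (V : Set (Ca M)) ∧ Mg F (V \ P) ∧ Mg F (P \ V) from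
    h.elim fun V a => ⟨V, a⟩
  have key : ∀ {P V : Set (Ca M)}, Opn V → Mg F (V \ P) → Mg F (P \ V) →
      ∃ V : PS M (Ca M), Opn (V : Set (Ca M)) ∧ Mg F (V \ P) ∧ Mg F (P \ V) :=
    fun {P V} a b c => ⟨ps M V, by rw [a.ds.coe_ps]; exact ⟨a, b, c⟩⟩
  refine hP.ind (p := fun P => ∃ V : PS M (Ca M), Opn (V : Set (Ca M)) ∧ Mg F (V \ P) ∧
    Mg F (P \ V)) (by fun_prop) (fun U hU => key hU (mg_empty fun _ _ a => a.2 a.1)
      (mg_empty fun _ _ a => a.2 a.1)) ?_ fun P d _ h => ?_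
  · rintro P - ⟨V, a1, a2, a3⟩
    have h1 : Opn {x | ∃ k, ∀ y ∈ F, Ag k x y → y ∉ V} :=
      ⟨by simp only [Ds, imp_iff, all_iff]; fun_prop,
        fun x ⟨k, hk⟩ => ⟨k, fun z a => ⟨k, fun y b c => hk y b (a.trans c)⟩⟩⟩
    refine key h1 (a3.mono fun x b c => ⟨not_not.1 c.2, c.1.elim fun k e => e x b (Ag.refl _ _)⟩)
      ((a2.union (mg_compl (a1.union h1) fun x b k => ?_)).mono fun x _ c => ?_)
    · by_cases hc : ∃ y ∈ F, Ag k x y ∧ y ∈ V
      · exact hc.imp fun _ c => ⟨c.1, c.2.1, Or.inl c.2.2⟩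
      · exact ⟨x, b, Ag.refl _ _, Or.inr ⟨k, fun y c d e => hc ⟨y, c, d, e⟩⟩⟩
    · by_cases hx : x ∈ V
      · exact Or.inl ⟨hx, c.1⟩
      · exact Or.inr fun d => d.elim hx c.2
  · obtain ⟨V, hV⟩ := cc (M := M) (by fun_prop) h
    have := V.df
    refine key (V := {x | ∃ n, x ∈ V n}) ⟨by unfold Ds; fun_prop, fun x ⟨n, a⟩ =>
      ((hV n).1.ex x a).imp fun _ b y c => ⟨n, b y c⟩⟩
      ((Mg.ex hF (by fun_prop) fun n => (hV n).2.1).mono fun x _ ⟨⟨n, a⟩, b⟩ =>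
        ⟨n, a, fun c => b ⟨n, c⟩⟩)
      ((Mg.ex hF (by fun_prop) fun n => (hV n).2.2).mono fun x _ ⟨⟨n, a⟩, b⟩ =>
        ⟨n, a, fun c => b ⟨n, c⟩⟩)

theorem bp (hF : Cls F) (hP : Bor P) (ht : Clp t) (h : ¬ Mg F (t ∩ P)) :
    ∃ q, Clp q ∧ q ⊆ t ∧ (F ∩ q).Nonempty ∧ Mg F (q \ P) := by
  obtain ⟨V, hV, h1, h2⟩ := (ht.bor.inter hP).approx hF.ds
  obtain ⟨x, hx, hxV⟩ : ∃ x ∈ F, x ∈ V := by
    by_contra hc
    push Not at hc
    exact h (h2.mono fun x a b => ⟨b, hc x a⟩)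
  have hxt : x ∈ t := by
    by_contra hc
    exact baire hF (hV.sdiff ht.cls) (h1.mono fun y _ b => ⟨b.1, fun c => b.2 c.1⟩) x hx
      ⟨hxV, hc⟩
  obtain ⟨q, a1, a2, a3⟩ := exists_clopen (hV.inter ht.opn) ⟨hxV, hxt⟩
  exact ⟨q, a1, fun y hy => (a3 hy).2, ⟨x, hx, a2⟩,
    h1.mono fun y _ b => ⟨(a3 b.1).1, fun c => b.2 c.2⟩⟩

theorem mg_of_dense (hU : Opn U)
    (h : ∀ q, Clp q → (F ∩ q).Nonempty → ∃ x ∈ F, x ∈ q ∧ x ∈ U) : Mg F Uᶜ :=
  mg_compl hU fun x a k => h _ (clp_box x k) ⟨x, a, Ag.refl k x⟩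

theorem mg_local {Z : Set (Ca M)} (hF : Ds M F) (hZ : Ds M Z) (ht : Clp t)
    (h : ∀ q, Clp q → q ⊆ t → (F ∩ q).Nonempty →
      ∃ q', Clp q' ∧ q' ⊆ q ∧ (F ∩ q').Nonempty ∧ Mg F (q' ∩ Z)) : Mg F (t ∩ Z) := by
  have h1 : Mg F (tᶜ ∪ {x | ∃ q, Clp q ∧ Mg F (q ∩ Z) ∧ x ∈ q})ᶜ := by
    refine mg_of_dense (ht.compl.opn.union (opn_exC (by fun_prop))) fun q hq ⟨x, a1, a2⟩ => ?_
    by_cases hx : x ∈ t
    · obtain ⟨q', b1, b2, ⟨y, b3, b4⟩, b5⟩ := h (q ∩ t) (hq.inter ht) inter_subset_right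
        ⟨x, a1, a2, hx⟩
      exact ⟨y, b3, (b2 b4).1, Or.inr ⟨q', b1, b5, b4⟩⟩
    · exact ⟨x, a1, a2, Or.inl hx⟩
  have h2 := Mg.cl (F := F) (Z := fun q => {x | Mg F (q ∩ Z) ∧ x ∈ q ∩ Z}) hF (by fun_prop)
    fun q _ => Mg.cond fun h => h
  refine (h1.union h2).mono fun x _ hx => ?_
  by_cases hc : ∃ q, Clp q ∧ Mg F (q ∩ Z) ∧ x ∈ q
  · obtain ⟨q, a1, a2, a3⟩ := hc
    exact Or.inr ⟨q, a1, a2, a3, hx.2⟩
  · exact Or.inl fun c => c.elim (fun d => d hx.1) hc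

theorem Mg.exists_open (h : Mg F P) : ∃ V : N M → Set (Ca M), DfS M V ∧
    (∀ k, Opn (V k) ∧ Mg F (V k)ᶜ) ∧ ∀ x ∈ F, (∀ k, x ∈ V k) → x ∉ P :=
  let ⟨V, a, b⟩ := h
  ⟨fun k => V k, DfS.coe V.df, fun k => ⟨(a k).1, mg_compl (a k).1 (a k).2⟩, b⟩

/-- a Borel family of closed sets -/
def MF (E : Ca M → Set (Ca M)) : Prop :=
  (∀ x, Cls (E x)) ∧ ∀ q, Clp q → Ms fun x => (E x ∩ q).Nonempty

@[fun_prop] theorem df_mf {E : A → Ca M → Set (Ca M)}
    (h : DfS M fun z : A × Ca M => E z.1 z.2) : DfF M fun a => MF fun x => E a x := by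
  simp only [MF, imp_iff, all_iff]; fun_prop

theorem MF.mg {E : Ca M → Set (Ca M)} (hE : MF E) (dE : DfS M E) (hP : Bor P) :
    ∀ q, Clp q → Ms fun x => Mg (E x) (q ∩ P) := by
  refine hP.ind (p := fun P => ∀ q, Clp q → Ms fun x => Mg (E x) (q ∩ P))
    (by simp only [imp_iff, all_iff]; fun_prop) (fun U hU q hq => ?_) (fun P hP ih q hq => ?_)
    fun P d _ ih q hq => ?_
  · refine (meas_all (p := fun q' x => q' ⊆ q ∩ U → ¬ (E x ∩ q').Nonempty)
      (by simp only [imp_iff]; fun_prop) fun q' hq' => ms_const.imp (hE.2 q' hq').not).congr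
      fun x => ⟨fun a q' _ c ⟨y, d, e⟩ => baire (hE.1 x) (hq.opn.inter hU) a y d (c e),
      fun a => mg_empty fun y b c => ?_⟩
    obtain ⟨q', a1, a2, a3⟩ := exists_clopen (hq.opn.inter hU) c
    exact a q' a1 a3 ⟨y, b, a2⟩
  · refine (meas_all (p := fun q' x => q' ⊆ q → (E x ∩ q').Nonempty → ¬ Mg (E x) (q' ∩ P))
      (by simp only [imp_iff]; fun_prop) fun q' hq' =>
        ms_const.imp ((hE.2 q' hq').imp (ih q' hq').not)).congr fun x =>
      ⟨fun a q' b c d e => not_mg (hE.1 x) b d ((a.union e).mono fun y _ f => ?_), fun a => ?_⟩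
    · by_cases hy : y ∈ P
      · exact Or.inr ⟨f, hy⟩
      · exact Or.inl ⟨c f, hy⟩
    · by_contra hc
      obtain ⟨q', a1, a2, a3, a4⟩ := bp (hE.1 x) hP.compl hq hc
      exact a q' a1 a2 a3 (a4.mono fun y _ b => ⟨b.1, fun c => c b.2⟩)
  · exact (Ms.all (by fun_prop) fun k => ih k q hq).congr fun x =>
      ⟨fun a k => a.mono fun y _ b => ⟨b.1, k, b.2⟩, fun a =>
        (Mg.ex (hE.1 x).ds (by fun_prop) a).mono fun y _ ⟨b, k, c⟩ => ⟨k, b, c⟩⟩

end Pool.Agent.MP_057cde_lc.TZ.B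

end MrgPart3

-- ======== part 4: formerly Pool.Agent.MP_057cde_lc.zf.Quot
section MrgPart4

/-! Fibres of a category preserving Borel map (a Kuratowski-Ulam theorem). -/

namespace Pool.Agent.MP_057cde_lc.TZ.B

open Set

variable {M : Type} [Mdl M] {A : Type} [Srt M A]

/-- essential range of `g` on `q` -/
def Ess (F q : Set (Ca M)) (g : Ca M → Ca M) : Set (Ca M) :=
  {y | ∀ s, Clp s → y ∈ s → ¬ Mg F (q ∩ g ⁻¹' s)}

/-- the essential range has an interior point -/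
def Thick (F q : Set (Ca M)) (f : Ca M → Ca M) : Prop :=
  ∃ s₀, Clp s₀ ∧ s₀.Nonempty ∧
    ∀ s, Clp s → s ⊆ s₀ → s.Nonempty → ¬ Mg F (q ∩ f ⁻¹' s)

/-- `f` is category preserving on `F ∩ t` -/
def CP (F t : Set (Ca M)) (f : Ca M → Ca M) : Prop :=
  ∀ q, Clp q → q ⊆ t → (F ∩ q).Nonempty → Thick F q f

/-- the essential fibre of `g` over `y` -/
def Fib (F : Set (Ca M)) (g : Ca M → Ca M) (y : Ca M) : Set (Ca M) :=
  {x | x ∈ F ∧ ∀ q, Clp q → x ∈ q → y ∈ Ess F q g}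

section

variable {F q : A → Set (Ca M)} {g : A → Ca M → Ca M} (hF : DfS M F) (hq : DfS M q)
  (hg : DfF M fun z : A × Ca M => g z.1 z.2)

include hF hg

section

include hq

@[fun_prop] theorem df_ess : DfS M fun a => Ess (F a) (q a) fun x => g a x := by
  simp only [Ess, imp_iff, all_iff]; fun_prop

@[fun_prop] theorem df_thick : DfF M fun a => Thick (F a) (q a) fun x => g a x := by
  simp only [Thick, imp_iff, all_iff]; fun_prop

@[fun_prop] theorem df_cp : DfF M fun a => CP (F a) (q a) fun x => g a x := by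
  simp only [CP, imp_iff, all_iff]; fun_prop

end

@[fun_prop] theorem df_fib {y : A → Ca M} (hy : DfF M y) :
    DfS M fun a => Fib (F a) (fun x => g a x) (y a) := by
  simp only [Fib, imp_iff, all_iff]; fun_prop

end

variable {F P H t q : Set (Ca M)} {f g : Ca M → Ca M} {y : Ca M}

theorem fib_closed (hF : Cls F) (hg : DfF M g) : Cls (Fib F g y) := by
  refine ⟨by unfold Ds; fun_prop, fun x hx => ?_⟩
  by_cases h : x ∈ F
  · have : ∃ q, Clp q ∧ x ∈ q ∧ y ∉ Ess F q g := by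
      by_contra hc
      push Not at hc
      exact hx ⟨h, hc⟩
    obtain ⟨q, a1, a2, a3⟩ := this
    exact (a1.opn.ex x a2).imp fun _ b z c d => a3 (d.2 q a1 (b z c))
  · exact (Opn.ex hF x h).imp fun _ b z c d => b z c d.1

theorem fib_meet (hF : Cls F) (hg : DfF M g) (hq : Clp q) :
    (Fib F g y ∩ q).Nonempty ↔ y ∈ Ess F q g := by
  refine ⟨fun ⟨x, a, b⟩ => a.2 q hq b, fun h => ?_⟩
  by_contra hc
  have : ∃ s, Clp s ∧ y ∈ s ∧ Mg F ((univ ∩ q) ∩ g ⁻¹' s) := by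
    refine compact_ind (p := fun K => ∃ s, Clp s ∧ y ∈ s ∧ Mg F ((K ∩ q) ∩ g ⁻¹' s))
      (by fun_prop) ?_ ?_ fun x => ?_
    · rintro K K' hK ⟨s, a1, a2, a3⟩
      exact ⟨s, a1, a2, a3.mono fun x _ b => ⟨⟨hK b.1.1, b.1.2⟩, b.2⟩⟩
    · rintro K K' ⟨s, a1, a2, a3⟩ ⟨s', b1, b2, b3⟩
      exact ⟨s ∩ s', a1.inter b1, ⟨a2, b2⟩, (a3.union b3).mono fun x _ c =>
        c.1.1.imp (fun d => ⟨⟨d, c.1.2⟩, c.2.1⟩) fun d => ⟨⟨d, c.1.2⟩, c.2.2⟩⟩
    · by_cases hx : x ∈ F ∩ q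
      · have : ∃ q', Clp q' ∧ x ∈ q' ∧ y ∉ Ess F q' g := by
          by_contra hd
          push Not at hd
          exact hc ⟨x, ⟨hx.1, hd⟩, hx.2⟩
        obtain ⟨q', a1, a2, a3⟩ := this
        simp only [Ess, mem_ofPred_eq, not_forall, not_not] at a3
        obtain ⟨s, b1, b2, b3⟩ := a3
        exact ⟨q', a1, a2, s, b1, b2, b3.mono fun _ _ c => ⟨c.1.1, c.2⟩⟩
      · obtain ⟨q', a1, a2, a3⟩ := exists_clopen (hF.inter hq.cls) hx
        exact ⟨q', a1, a2, univ, clp_univ, trivial, mg_empty fun _ a b => a3 b.1.1 ⟨a, b.1.2⟩⟩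
  obtain ⟨s, a1, a2, a3⟩ := this
  exact h s a1 a2 (by rwa [univ_inter] at a3)

theorem CP.mono {t' : Set (Ca M)} (h : CP F t f) (ht : t' ⊆ t) : CP F t' f :=
  fun q a b c => h q a (b.trans ht) c

theorem CP.congr (h : CP F t f) (he : Mg F (t \ {x | f x = g x})) : CP F t g := by
  intro q a b c
  obtain ⟨s₀, a1, a2, a3⟩ := h q a b c
  refine ⟨s₀, a1, a2, fun s b1 b2 b3 b4 => a3 s b1 b2 b3 ((b4.union he).mono fun x _ d => ?_)⟩
  by_cases hx : f x = g x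
  · exact Or.inl ⟨d.1, by rw [mem_preimage, ← hx]; exact d.2⟩
  · exact Or.inr ⟨b d.1, hx⟩

theorem Thick.sub_ess (h : Thick F q g) {a : Set (Ca M)} (ha : Clp a)
    (hm : Mg F (q \ g ⁻¹' a)) :
    ∃ a', Clp a' ∧ a' ⊆ a ∧ a'.Nonempty ∧ a' ⊆ Ess F q g := by
  obtain ⟨s₀, a1, a2, a3⟩ := h
  have h1 : s₀ ⊆ Ess F q g := fun y hy s b1 b2 b3 =>
    a3 (s ∩ s₀) (b1.inter a1) inter_subset_right ⟨y, b2, hy⟩
      (b3.mono fun x _ c => ⟨c.1, c.2.1⟩)
  refine ⟨s₀, a1, fun y hy => ?_, a2, h1⟩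
  by_contra hc
  exact h1 hy aᶜ ha.compl hc hm

theorem mg_univ_local {Z : Set (Ca M)} (hZ : Ds M Z) (h : ∀ a, Clp a → a.Nonempty →
    ∃ a', Clp a' ∧ a' ⊆ a ∧ a'.Nonempty ∧ Mg univ (a' ∩ Z)) : Mg univ Z := by
  have := mg_local (F := univ) ds_univ hZ clp_univ fun q a _ c => by
    simpa only [univ_inter] using h q a (by simpa using c)
  simpa using this

/-- a meagre set is meagre in almost all fibres -/
theorem pres (hF : Cls F) (ht : Clp t) (hg : Meas g) (hc : CP F t g)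
    (h : Mg F (t ∩ P)) : Mg univ {y | ¬ Mg (Fib F g y) (t ∩ P)} := by
  obtain ⟨V, dV, hV, hP⟩ := h.exists_open
  have dg := hg.df
  have h1 : ∀ k q, Clp q → Mg univ {y | q ⊆ t ∧ y ∈ {y | y ∈ Ess F q g ∧
      ∀ q', Clp q' → q' ⊆ q ∩ V k → y ∉ Ess F q' g}} := by
    intro k q hq
    refine Mg.cond fun hqt => mg_univ_local (by simp only [Ds, imp_iff, all_iff]; fun_prop)
      fun a ha hne => ?_
    by_cases hm : Mg F (q ∩ g ⁻¹' a)
    · exact ⟨a, ha, Subset.rfl, hne, mg_empty fun y _ b => b.2.1 a ha b.1 hm⟩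
    obtain ⟨q₁, a1, a2, a3, a4⟩ := bp hF (hg.pre ha.bor) hq hm
    obtain ⟨x, b1, b2, b3⟩ := exists_pt hF a1 a3 ((hV k).2.mono fun _ _ c => c.2)
    obtain ⟨q', c1, c2, c3⟩ := exists_clopen (a1.opn.inter (hV k).1) ⟨b2, b3⟩
    obtain ⟨a', d1, d2, d3, d4⟩ := (hc q' c1 (fun z hz => hqt (a2 (c3 hz).1)) ⟨x, b1, c2⟩).sub_ess
      ha (a4.mono fun z _ e => ⟨(c3 e.1).1, e.2⟩)
    exact ⟨a', d1, d2, d3, mg_empty fun y _ e =>
      e.2.2 q' c1 (fun z hz => ⟨a2 (c3 hz).1, (c3 hz).2⟩) (d4 e.1)⟩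
  refine (Mg.ex ds_univ (by simp only [imp_iff, all_iff]; fun_prop) fun k =>
    Mg.cl ds_univ (by simp only [imp_iff, all_iff]; fun_prop) (h1 k)).mono fun y _ hy => ?_
  by_contra hn
  have dF := (fib_closed (y := y) hF dg).ds
  refine hy ((Mg.ex (P := fun k => t ∩ (V k)ᶜ) dF (by fun_prop) fun k =>
    mg_local dF (dV.compl.at k) ht fun q a1 a2 a3 => ?_).mono fun x a b => ?_)
  · have : ∃ q', Clp q' ∧ q' ⊆ q ∩ V k ∧ y ∈ Ess F q' g := by
      by_contra hd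
      push Not at hd
      exact hn ⟨k, q, a1, a2, (fib_meet hF dg a1).1 a3, hd⟩
    obtain ⟨q', b1, b2, b3⟩ := this
    exact ⟨q', b1, fun z hz => (b2 hz).1, (fib_meet hF dg b1).2 b3,
      mg_empty fun z _ c => c.2 (b2 c.1).2⟩
  · by_contra hd
    refine hP x a.1 (fun k => ?_) b
    by_contra he
    exact hd ⟨k, b.1, he⟩

/-- the points where the value of `g` is decided locally -/
def Dcd (F : Set (Ca M)) (g : Ca M → Ca M) : Set (Ca M) :=
  {x | ∀ a, Clp a → g x ∈ a → ∃ q, Clp q ∧ x ∈ q ∧ Mg F (q \ g ⁻¹' a)}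

theorem mg_dcd (hF : Cls F) (hg : Meas g) : Mg F (Dcd F g)ᶜ := by
  have dg := hg.df
  have h1 : ∀ a, Clp a →
      Mg F (g ⁻¹' a \ {x | ∃ q, Clp q ∧ Mg F (q \ g ⁻¹' a) ∧ x ∈ q}) := by
    intro a ha
    by_contra hc
    have ho : Opn {x | ∃ q, Clp q ∧ Mg F (q \ g ⁻¹' a) ∧ x ∈ q} := opn_exC (by fun_prop)
    obtain ⟨q, a1, -, a3, a4⟩ := bp hF ((hg.pre ha.bor).diff ho.bor)
      clp_univ (by rwa [univ_inter])
    have a5 : Mg F (q \ g ⁻¹' a) := a4.mono fun x _ b => ⟨b.1, fun c => b.2 c.1⟩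
    exact not_mg hF a1 a3 (a4.mono fun x _ b => ⟨b, fun c => c.2 ⟨q, a1, a5, b⟩⟩)
  refine (Mg.cl hF.ds (by fun_prop) h1).mono fun x _ hx => ?_
  by_contra hc
  refine hx fun a ha b => ?_
  by_contra hd
  exact hc ⟨a, ha, b, fun ⟨q, c1, c2, c3⟩ => hd ⟨q, c1, c3, c2⟩⟩

theorem eq_of_dcd {x : Ca M} (hx : x ∈ Fib F g y) (hd : x ∈ Dcd F g) : g x = y := by
  by_contra hc
  obtain ⟨a, a1, a2, a3⟩ := exists_clopen (opn_ne y) hc
  obtain ⟨q, b1, b2, b3⟩ := hd a a1 a2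
  exact hx.2 q b1 b2 aᶜ a1.compl (fun c => a3 c rfl) b3

theorem exists_rect {s : Set (Ca M)} (hs : Clp s) (hne : s.Nonempty) :
    ∃ a b, Clp a ∧ Clp b ∧ a.Nonempty ∧ b.Nonempty ∧ ev ⁻¹' a ∩ od ⁻¹' b ⊆ s := by
  obtain ⟨c, hc⟩ := hne
  obtain ⟨n, hn⟩ := hs.opn.ex c hc
  exact ⟨_, _, clp_box (ev c) n, clp_box (od c) n, ⟨_, Ag.refl _ _⟩, ⟨_, Ag.refl _ _⟩,
    fun x hx => hn x (Ag.of_ev_od hx.1 hx.2)⟩

theorem rect_clopen {a b : Set (Ca M)} (ha : Clp a) (hb : Clp b) :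
    Clp (ev ⁻¹' a ∩ od ⁻¹' b) :=
  (ha.preimage Cont.id.ev).inter (hb.preimage Cont.id.od)

theorem rect_ne {a b : Set (Ca M)} (ha : a.Nonempty) (hb : b.Nonempty) :
    (ev ⁻¹' a ∩ od ⁻¹' b).Nonempty :=
  let ⟨u, hu⟩ := ha
  let ⟨v, hv⟩ := hb
  ⟨join u v, by rwa [mem_preimage, ev_join], by rwa [mem_preimage, od_join]⟩

theorem CP.ev (h : CP F t f) : CP F t (ev ∘ f) := by
  intro q a1 a2 a3
  obtain ⟨s₀, b1, b2, b3⟩ := h q a1 a2 a3
  obtain ⟨a, b, c1, c2, c3, c4, c5⟩ := exists_rect b1 b2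
  exact ⟨a, c1, c3, fun s d1 d2 d3 d4 => b3 _ (rect_clopen d1 c2)
    (fun x hx => c5 ⟨d2 hx.1, hx.2⟩) (rect_ne d3 c4) (d4.mono fun x _ e => ⟨e.1, e.2.1⟩)⟩

theorem mg_bad (hF : Cls F) (hf : Meas f) (hc : CP F t f) (hq : Clp q)
    (hqt : q ⊆ t) : Mg univ {y | y ∈ Ess F q (ev ∘ f) ∧ ¬ ∃ b₀, Clp b₀ ∧ b₀.Nonempty ∧
      ∀ b, Clp b → b ⊆ b₀ → b.Nonempty → ∃ q', Clp q' ∧ q' ⊆ q ∧
        y ∈ Ess F q' (ev ∘ f) ∧ Mg F (q' \ (od ∘ f) ⁻¹' b)} := by
  have hg : Meas (ev ∘ f) := hf.ev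
  have df := hf.df
  refine mg_univ_local (by simp only [Ds, imp_iff, all_iff]; fun_prop) fun a ha hne => ?_
  by_cases hm : Mg F (q ∩ (ev ∘ f) ⁻¹' a)
  · exact ⟨a, ha, Subset.rfl, hne, mg_empty fun y _ b => b.2.1 a ha b.1 hm⟩
  obtain ⟨q₁, a1, a2, a3, a4⟩ := bp hF (hg.pre ha.bor) hq hm
  obtain ⟨s₀, b1, b2, b3⟩ := hc q₁ a1 (a2.trans hqt) a3
  obtain ⟨a₀, b₀, c1, c2, c3, c4, c5⟩ := exists_rect b1 b2
  have hsub : a₀ ⊆ a := by
    intro u hu
    by_contra hn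
    exact b3 _ (rect_clopen (c1.diff ha) c2) (fun x hx => c5 ⟨hx.1.1, hx.2⟩)
      (rect_ne ⟨u, hu, hn⟩ c4) (a4.mono fun x _ e => ⟨e.1, e.2.1.2⟩)
  refine ⟨a₀, c1, hsub, c3, ?_⟩
  have h1 : ∀ b, Clp b → Mg univ {y | (b ⊆ b₀ ∧ b.Nonempty) ∧ y ∈ {y | y ∈ a₀ ∧
      ∀ q', Clp q' → q' ⊆ q → y ∈ Ess F q' (ev ∘ f) → ¬ Mg F (q' \ (od ∘ f) ⁻¹' b)}} := by
    intro b hb
    refine Mg.cond fun ⟨d1, d2⟩ => mg_univ_local
      (by simp only [Ds, imp_iff, all_iff]; fun_prop) fun a' e1 e2 => ?_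
    by_cases hn : (a' ∩ a₀).Nonempty
    · have e3 := rect_clopen (e1.inter c1) hb
      obtain ⟨q', f1, f2, f3, f4⟩ := bp hF (hf.pre e3.bor) a1
        (b3 _ e3 (fun x hx => c5 ⟨hx.1.2, d1 hx.2⟩) (rect_ne hn d2))
      obtain ⟨a'', g1, g2, g3, g4⟩ := (hc.ev q' f1 (f2.trans (a2.trans hqt)) f3).sub_ess e1
        (f4.mono fun x _ e => ⟨e.1, fun k => e.2 k.1.1⟩)
      exact ⟨a'', g1, g2, g3, mg_empty fun y _ e => e.2.2 q' f1 (f2.trans a2) (g4 e.1)
        (f4.mono fun x _ e => ⟨e.1, fun k => e.2 k.2⟩)⟩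
    · exact ⟨a', e1, Subset.rfl, e2, mg_empty fun y _ e => hn ⟨y, e.1, e.2.1⟩⟩
  refine (Mg.cl ds_univ (by simp only [imp_iff, all_iff]; fun_prop) h1).mono fun y _ hy => ?_
  by_contra hn
  refine hy.2.2 ⟨b₀, c2, c4, fun b d1 d2 d3 => ?_⟩
  by_contra hd
  push Not at hd
  exact hn ⟨b, d1, ⟨d2, d3⟩, hy.1, hd⟩

theorem quot (hF : Cls F) (ht : Clp t) (hne : (F ∩ t).Nonempty) (hf : Meas f)
    (hc : CP F t f) (hH : Mg F (t \ H)) {B : Set (Ca M)}
    (hB : ∀ s, Clp s → s.Nonempty → ¬ Mg univ (s ∩ B)) :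
    ∃ y ∈ B, (Fib F (ev ∘ f) y ∩ t).Nonempty ∧
      Mg (Fib F (ev ∘ f) y) (t \ (H ∩ {x | ev (f x) = y})) ∧
      CP (Fib F (ev ∘ f) y) t (od ∘ f) := by
  have hg : Meas (ev ∘ f) := hf.ev
  obtain ⟨s₀, a1, -, a2, a3⟩ := (hc.ev t ht Subset.rfl hne).sub_ess clp_univ
    (mg_empty fun _ _ b => b.2 trivial)
  have m1 := pres hF ht hg hc.ev (P := (H ∩ Dcd F (ev ∘ f))ᶜ)
    ((hH.union (mg_dcd hF hg)).mono fun x _ b => by
      by_cases c : x ∈ H
      · exact Or.inr fun d => b.2 ⟨c, d⟩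
      · exact Or.inl ⟨b.1, c⟩)
  have df := hf.df
  have dg := hg.df
  have m2 := Mg.cl ds_univ (by simp only [imp_iff, all_iff]; fun_prop)
    fun q hq => Mg.cond fun hqt : q ⊆ t => mg_bad hF hf hc hq hqt
  have m3 := Mg.cl ds_univ (by fun_prop) fun q _ => Mg.cl ds_univ (by fun_prop) fun b _ =>
    Mg.cond fun hm : Mg F (q \ (od ∘ f) ⁻¹' b) =>
    pres hF ht hg hc.ev (P := q \ (od ∘ f) ⁻¹' b) (hm.mono fun _ _ c => c.2)
  obtain ⟨y, ⟨b1, b2⟩, b3⟩ := not_subset.1 fun hs =>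
    hB s₀ a1 a2 (((m1.union m2).union m3).mono fun y _ hy => hs hy)
  have n1 : Mg (Fib F (ev ∘ f) y) (t ∩ (H ∩ Dcd F (ev ∘ f))ᶜ) := by
    by_contra hn
    exact b3 (Or.inl (Or.inl hn))
  refine ⟨y, b2, (fib_meet hF dg ht).2 (a3 b1),
    n1.mono fun x c d => ⟨d.1, fun e => d.2 ⟨e.1, eq_of_dcd (g := ev ∘ f) c e.2⟩⟩,
    fun q c1 c2 c3 => ?_⟩
  by_contra hn
  refine b3 (Or.inl (Or.inr ⟨q, c1, c2, (fib_meet hF dg c1).1 c3, fun ⟨b₀, d1, d2, d3⟩ => ?_⟩))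
  refine hn ⟨b₀, d1, d2, fun b e1 e2 e3 e4 => ?_⟩
  obtain ⟨q', f1, f2, f3, f4⟩ := d3 b e1 e2 e3
  have n3 : Mg (Fib F (ev ∘ f) y) (t ∩ (q' \ (od ∘ f) ⁻¹' b)) := by
    by_contra hk
    exact b3 (Or.inr ⟨q', f1, b, e1, f4, hk⟩)
  refine not_mg (fib_closed hF dg) f1 ((fib_meet hF dg f1).2 f3)
    ((e4.union n3).mono fun x _ k => ?_)
  by_cases hx : x ∈ (od ∘ f) ⁻¹' b
  · exact Or.inl ⟨f2 k, hx⟩
  · exact Or.inr ⟨c2 (f2 k), k, hx⟩

end Pool.Agent.MP_057cde_lc.TZ.B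

end MrgPart4

-- marker of a merged file
example : 731051 + 390082 = 731051 + 390082 := rfl
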