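import Mathlib.Tactic.Order
import Mathlib.Topology.Sheaves.Presheaf
import Mathlib.Tactic.Bound
import Pool.Agent.MP_057cde_lc.zf.Df

/-! The natural numbers of the model: order, induction, recursion, addition. -/

namespace Pool.Agent.MP_057cde_lc.TZ

open Function
open scoped Classical

/-- The natural numbers of the model. -/
structure N (M : Type) [Mdl M] where
  x : M
  mem : E x Mdl.om

variable {M : Type} [Mdl M]
variable {X Y Z : Type} [Srt M X] [Srt M Y] [Srt M Z]

noncomputable instance instSrtN : Srt M (N M) :=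
  Srt.ofInj (fun n => n.x) (by rintro ⟨x, _⟩ ⟨y, _⟩ h; congr)
    (DfF.congr (P := fun y => E y Mdl.om) (by fun_prop) fun y =>
      ⟨fun ⟨n, h⟩ => h ▸ n.mem, fun h => ⟨⟨y, h⟩, rfl⟩⟩)

theorem cd_N (n : N M) : cd M n = n.x := rfl

instance : Sm M (N M) := sm_of_subset Mdl.om fun n => n.mem

theorem un_N : un M (N M) = Mdl.om := ext' fun z => by
  rw [mem_un]
  exact ⟨fun ⟨x, h⟩ => h ▸ x.mem, fun h => ⟨⟨z, h⟩, rfl⟩⟩

theorem mem_om {z : M} : E z Mdl.om ↔ ∃ n : N M, z = cd M n := by rw [← un_N, mem_un]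

namespace N

noncomputable instance : Zero (N M) := ⟨⟨emp M, emp_mem_om⟩⟩

theorem cd_zero : cd M (0 : N M) = emp M := rfl

/-- successor -/
noncomputable def sc (n : N M) : N M :=
  ⟨(Mdl.hom.1.2 n.x n.mem).choose, (Mdl.hom.1.2 n.x n.mem).choose_spec.1⟩

theorem suc_sc (n : N M) : Suc E (cd M n) (cd M n.sc) := (Mdl.hom.1.2 n.x n.mem).choose_spec.2

theorem suc_iff' {n : N M} {z : M} : Suc E (cd M n) z ↔ z = cd M n.sc :=
  ⟨fun h => ext' fun t => (h t).trans (n.suc_sc t).symm, fun h => h ▸ n.suc_sc⟩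

theorem df_sc : DfF M (sc : N M → N M) :=
  DfF.of_rel (P := fun n m => All fun z : M => (E z (cd M m) ↔ E z (cd M n) ∨ z = cd M n))
    (by fun_prop) fun n m => by
      rw [eq_comm, ← cd_inj (M := M), ← suc_iff']; rfl

theorem ind' {P : N M → Prop} (hP : DfF M P) (h0 : P 0) (hs : ∀ n, P n → P n.sc) (n : N M) :
    P n := by
  have h : Ind E (cd M (PS.of M P)) := by
    refine ⟨⟨_, cd_mem_cd_ps.2 ((PS.mem_of hP).2 h0), not_mem_emp⟩, fun z hz => ?_⟩
    obtain ⟨m, hm, rfl⟩ := mem_cd_ps.1 hz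
    exact ⟨_, cd_mem_cd_ps.2 ((PS.mem_of hP).2 (hs m ((PS.mem_of hP).1 hm))), m.suc_sc⟩
  exact (PS.mem_of hP).1 (cd_mem_cd_ps.1 (Mdl.hom.2 _ h _ n.mem))

theorem mem_om_of_mem (n : N M) : ∀ z, E z (cd M n) → E z Mdl.om := by
  refine ind' (P := fun n : N M => ∀ z, E z (cd M n) → E z Mdl.om)
    (by simp only [imp_iff, all_iff]; fun_prop) (fun z (h : E z (emp M)) => (not_mem_emp z h).elim) ?_ n
  intro n ih z hz
  rcases (n.suc_sc z).1 hz with h | rfl
  · exact ih z h
  · exact n.mem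

/-- the order -/
def lt (m n : N M) : Prop := E (cd M m) (cd M n)

theorem df_lt {f g : X → N M} (hf : DfF M f) (hg : DfF M g) : DfF M (fun x => lt (f x) (g x)) := by
  unfold lt; fun_prop

theorem lt_sc {m n : N M} : lt m n.sc ↔ lt m n ∨ m = n := by
  rw [lt, n.suc_sc, cd_inj]; rfl

theorem lt_tr (a b c : N M) (h : lt a b) : lt b c → lt a c := by
  refine ind' (P := fun c => lt b c → lt a c) ((df_lt (DfF.const _) DfF.id).imp
    (df_lt (DfF.const _) DfF.id)) (fun h => (not_mem_emp _ h).elim) (fun n ih hb => ?_) c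
  rcases lt_sc.1 hb with h' | rfl
  · exact lt_sc.2 (Or.inl (ih h'))
  · exact lt_sc.2 (Or.inl h)

theorem zero_lt (n : N M) : lt 0 n ∨ 0 = n :=
  ind' (P := fun n => lt 0 n ∨ 0 = n) ((df_lt (DfF.const _) DfF.id).or (by fun_prop)) (Or.inr rfl)
    (fun _ ih => Or.inl (lt_sc.2 ih)) n

theorem sc_le (n m : N M) : lt n m → lt n.sc m ∨ n.sc = m := by
  refine ind' (P := fun m => lt n m → lt n.sc m ∨ n.sc = m) ((df_lt (DfF.const _) DfF.id).imp
    ((df_lt (DfF.const _) DfF.id).or (by fun_prop))) (fun h => (not_mem_emp _ h).elim)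
    (fun k ih hb => ?_) m
  rcases lt_sc.1 hb with h' | rfl
  · exact Or.inl (lt_sc.2 (ih h'))
  · exact Or.inr rfl

theorem lt_tri (m n : N M) : lt m n ∨ m = n ∨ lt n m := by
  refine ind' (P := fun n => lt m n ∨ m = n ∨ lt n m) ((df_lt (DfF.const _) DfF.id).or
    (DfF.or (by fun_prop) (df_lt DfF.id (DfF.const _)))) ?_ (fun k ih => ?_) n
  · exact Or.inr ((zero_lt m).symm.imp_left Eq.symm)
  · rcases ih with h | h | h
    · exact Or.inl (lt_sc.2 (Or.inl h))
    · exact Or.inl (lt_sc.2 (Or.inr h))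
    · exact Or.inr ((sc_le k m h).symm.imp_left Eq.symm)

instance : IsStrictTotalOrder (N M) lt where
  irrefl _ := mem_irrefl _
  trans a b c := lt_tr a b c
  trichotomous a b h h' := ((lt_tri a b).resolve_left h).resolve_right h'

noncomputable instance : LinearOrder (N M) := linearOrderOfSTO lt

theorem lt_iff {m n : N M} : m < n ↔ E (cd M m) (cd M n) := Iff.rfl

theorem mem_cd {n : N M} {z : M} : E z (cd M n) ↔ ∃ m < n, z = cd M m :=
  ⟨fun h => ⟨⟨z, n.mem_om_of_mem z h⟩, h, rfl⟩, fun ⟨_, h, e⟩ => e ▸ h⟩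

theorem lt_sc_iff {m n : N M} : m < n.sc ↔ m ≤ n :=
  lt_sc.trans (le_iff_lt_or_eq (a := m) (b := n)).symm

theorem z_le (n : N M) : 0 ≤ n := le_iff_lt_or_eq.2 (zero_lt n)

end N

@[fun_prop]
theorem DfF.lt {f g : X → N M} (hf : DfF M f) (hg : DfF M g) : DfF M (fun x => f x < g x) :=
  N.df_lt hf hg

@[fun_prop]
theorem DfF.le {f g : X → N M} (hf : DfF M f) (hg : DfF M g) : DfF M (fun x => f x ≤ g x) :=
  (DfF.lt hg hf).not.congr fun _ => not_lt.symm

@[fun_prop]
theorem DfF.ge {f g : X → N M} (hf : DfF M f) (hg : DfF M g) : DfF M (fun x => f x ≥ g x) :=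
  DfF.le hg hf

@[fun_prop]
theorem DfF.max {f g : X → N M} (hf : DfF M f) (hg : DfF M g) :
    DfF M (fun x => max (f x) (g x)) :=
  (DfF.ite (d := fun _ => inferInstance) (hf.le hg) hg hf).congr' fun _ => max_def _ _

@[fun_prop]
theorem DfF.min {f g : X → N M} (hf : DfF M f) (hg : DfF M g) :
    DfF M (fun x => min (f x) (g x)) :=
  (DfF.ite (d := fun _ => inferInstance) (hf.le hg) hf hg).congr' fun _ => min_def _ _

namespace N

/-- `F` follows the recursion below `n` -/
def Ok (z : Y) (s : N M → Y → Y) (n : N M) (F : Fn M (N M) Y) : Prop :=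
  F 0 = z ∧ ∀ j, j < n → F j.sc = s j (F j)

/-- recursion -/
noncomputable def rc (z : Y) (s : N M → Y → Y) (n : N M) : Y :=
  if h : ∃ F, Ok z s n F then h.choose n else z

variable {z : Y} {s : N M → Y → Y}

theorem Ok.uniq {n m : N M} {F G : Fn M (N M) Y} (hF : Ok z s n F) (hG : Ok z s m G) (j : N M) :
    j ≤ n → j ≤ m → F j = G j := by
  have := F.df
  have := G.df
  refine ind' (P := fun j => j ≤ n → j ≤ m → F j = G j) (by simp only [imp_iff]; fun_prop)
    (fun _ _ => hF.1.trans hG.1.symm) (fun j ih h1 h2 => ?_) j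
  have h3 := lt_sc_iff.2 (le_refl j)
  rw [hF.2 j (h3.trans_le h1), hG.2 j (h3.trans_le h2), ih (h3.trans_le h1).le (h3.trans_le h2).le]

theorem Ok.rc_eq {n : N M} {F : Fn M (N M) Y} (hF : Ok z s n F) {j : N M} (hj : j ≤ n) :
    rc z s j = F j := by
  have h : ∃ F, Ok z s j F := ⟨F, hF.1, fun i hi => hF.2 i (hi.trans_le hj)⟩
  rw [rc, dif_pos h]
  exact h.choose_spec.uniq hF j le_rfl hj

theorem exists_ok [Sm M Y] (hs : DfF M fun p : N M × Y => s p.1 p.2) (n : N M) :
    ∃ F, Ok z s n F := by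
  have := df_sc (M := M)
  refine ind' (P := fun n => ∃ F, Ok z s n F) (by simp only [Ok, imp_iff, all_iff]; fun_prop)
    ⟨⟨fun _ => z, by fun_prop⟩, rfl, fun j hj => absurd hj (z_le j).not_gt⟩ ?_ n
  rintro n ⟨F, h0, h1⟩
  have := F.df
  refine ⟨⟨fun j => if j ≤ n then F j else s n (F n), by fun_prop⟩, ?_, fun j hj => ?_⟩
  · simp only [z_le n, if_true, h0]
  · have h2 := lt_sc_iff.1 hj
    simp only [h2, if_true]
    rcases h2.lt_or_eq with h3 | rfl
    · rw [if_pos (le_iff_lt_or_eq.2 (sc_le j n h3)), h1 j h3]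
    · rw [if_neg hj.not_ge]

theorem rc_zero : rc z s 0 = z :=
  Ok.rc_eq (F := ⟨fun _ => z, DfF.const _⟩) ⟨rfl, fun j hj => absurd hj (z_le j).not_gt⟩ le_rfl

theorem rc_sc [Sm M Y] (hs : DfF M fun p : N M × Y => s p.1 p.2) (n : N M) :
    rc z s n.sc = s n (rc z s n) := by
  obtain ⟨F, hF⟩ := exists_ok (z := z) hs n.sc
  have h3 := lt_sc_iff.2 (le_refl n)
  rw [hF.rc_eq le_rfl, hF.rc_eq h3.le, hF.2 n h3]

end N

@[fun_prop]
theorem DfF.rc [Sm M Y] {z : X → Y} {s : X → N M → Y → Y} {k : X → N M} (hz : DfF M z)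
    (hs : DfF M (fun p : X × N M × Y => s p.1 p.2.1 p.2.2)) (hk : DfF M k) :
    DfF M (fun x => N.rc (z x) (fun n y => s x n y) (k x)) := by
  have := N.df_sc (M := M)
  refine DfF.of_rel (P := fun x y => ∃ F, N.Ok (z x) (s x) (k x) F ∧ F (k x) = y)
    (by simp only [N.Ok, imp_iff, all_iff]; fun_prop) fun x y => ⟨?_, ?_⟩
  · rintro rfl
    obtain ⟨F, hF⟩ := N.exists_ok (z := z x) (s := s x) (by fun_prop) (k x)
    exact ⟨F, hF, (hF.rc_eq le_rfl).symm⟩
  · rintro ⟨F, hF, rfl⟩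
    exact hF.rc_eq le_rfl

namespace N

noncomputable instance : Add (N M) := ⟨fun a b => rc a (fun _ y => y.sc) b⟩

noncomputable instance : One (N M) := ⟨sc 0⟩

theorem add_zero' (a : N M) : a + 0 = a := rc_zero

theorem add_sc (a b : N M) : a + b.sc = (a + b).sc :=
  rc_sc (by have := df_sc (M := M); fun_prop) b

theorem df_add {f g : X → N M} (hf : DfF M f) (hg : DfF M g) : DfF M (fun x => f x + g x) :=
  DfF.rc (s := fun _ _ y => y.sc) hf (by have := df_sc (M := M); fun_prop) hg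

attribute [local fun_prop] df_add df_sc

theorem sc_eq (a : N M) : a.sc = a + 1 := by
  show _ = a + sc 0
  rw [add_sc, add_zero']

theorem zero_add' (a : N M) : 0 + a = a :=
  ind' (P := fun a => 0 + a = a) (by fun_prop) (add_zero' 0) (fun n ih => by rw [add_sc, ih]) a

theorem sc_add (a b : N M) : a.sc + b = (a + b).sc :=
  ind' (P := fun b => a.sc + b = (a + b).sc) (by fun_prop) (by rw [add_zero', add_zero'])
    (fun n ih => by rw [add_sc, ih, add_sc]) b

noncomputable instance : AddCommMonoid (N M) where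
  add_assoc a b c := ind' (P := fun c => a + b + c = a + (b + c)) (by fun_prop)
    (by rw [add_zero', add_zero']) (fun n ih => by rw [add_sc, ih, add_sc, add_sc]) c
  zero_add := zero_add'
  add_zero := add_zero'
  add_comm a b := ind' (P := fun b => a + b = b + a) (by fun_prop)
    (by rw [add_zero', zero_add']) (fun n ih => by rw [add_sc, ih, sc_add]) b
  nsmul := nsmulRec

theorem lt_add_sc (a c : N M) : a < (a + c).sc :=
  ind' (P := fun c => a < (a + c).sc) (by fun_prop) (by rw [add_zero']; exact lt_sc_iff.2 le_rfl)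
    (fun n ih => by rw [add_sc]; exact lt_sc_iff.2 ih.le) c

theorem exists_add {a b : N M} : a ≤ b → ∃ c, b = a + c := by
  refine ind' (P := fun b => a ≤ b → ∃ c, b = a + c) (by simp only [imp_iff]; fun_prop)
    (fun h => ⟨0, by rw [add_zero']; exact le_antisymm (z_le a) h⟩) (fun n ih h => ?_) b
  rcases h.lt_or_eq with h | rfl
  · obtain ⟨c, rfl⟩ := ih (lt_sc_iff.1 h)
    exact ⟨c.sc, (add_sc a c).symm⟩
  · exact ⟨0, (add_zero' _).symm⟩

instance : CanonicallyOrderedAdd (N M) where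
  exists_add_of_le := exists_add
  le_self_add a b := lt_sc_iff.1 (lt_add_sc a b)
  le_add_self a b := add_comm a b ▸ lt_sc_iff.1 (lt_add_sc a b)

theorem add_lt_add_right' {a b : N M} (h : a < b) (c : N M) : a + c < b + c :=
  ind' (P := fun c => a + c < b + c) (by fun_prop) (by rwa [add_zero', add_zero'])
    (fun n ih => by
      rw [add_sc, add_sc]
      exact lt_sc_iff.2 (le_iff_lt_or_eq.2 (sc_le _ _ ih))) c

instance : IsOrderedCancelAddMonoid (N M) where
  add_le_add_left a b h c := h.lt_or_eq.elim (fun h => (add_lt_add_right' h c).le)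
    fun e => e ▸ le_rfl
  le_of_add_le_add_left a b c h := not_lt.1 fun h' => by
    rw [add_comm a, add_comm a] at h
    exact (add_lt_add_right' h' a).not_ge h

noncomputable instance : OrderBot (N M) where
  bot := 0
  bot_le := z_le

theorem lt_succ_iff {m n : N M} : m < n + 1 ↔ m ≤ n := by rw [← sc_eq, lt_sc_iff]

theorem succ_le_iff {m n : N M} : m + 1 ≤ n ↔ m < n := by
  rw [← not_lt, lt_succ_iff, not_le]

theorem lt_succ (n : N M) : n < n + 1 := lt_succ_iff.2 le_rfl

theorem succ_ne_zero (n : N M) : n + 1 ≠ 0 := ((z_le n).trans_lt n.lt_succ).ne'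

noncomputable instance : SuccAddOrder (N M) where
  __ := SuccOrder.ofSuccLeIff (· + 1) succ_le_iff
  succ_eq_add_one _ := rfl

instance : NoMaxOrder (N M) := ⟨fun n => ⟨n + 1, n.lt_succ⟩⟩

instance : Nonempty (N M) := ⟨0⟩

theorem suc_iff {n : N M} {z : M} : Suc E (cd M n) z ↔ z = cd M (n + 1) := by
  rw [← sc_eq, suc_iff']

/-- induction for definable properties -/
theorem ind {P : N M → Prop} (hP : DfF M P) (h0 : P 0) (hs : ∀ n, P n → P (n + 1)) (n : N M) :
    P n := ind' hP h0 (fun n h => n.sc_eq ▸ hs n h) n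

/-- the recursion equation -/
theorem rc_succ [Sm M Y] {z : Y} {s : N M → Y → Y} (hs : DfF M fun p : N M × Y => s p.1 p.2)
    (n : N M) : rc z s (n + 1) = s n (rc z s n) := by rw [← sc_eq, rc_sc hs]

/-- induction from a starting point -/
theorem le_ind {P : N M → Prop} (hP : DfF M P) {m : N M} (h0 : P m)
    (hs : ∀ n, m ≤ n → P n → P (n + 1)) (n : N M) : m ≤ n → P n := by
  refine ind (P := fun n => m ≤ n → P n) (by simp only [imp_iff]; fun_prop)
    (fun h => le_antisymm h (z_le m) ▸ h0) (fun n ih h => ?_) n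
  rcases h.lt_or_eq with h | rfl
  · exact hs n (lt_succ_iff.1 h) (ih (lt_succ_iff.1 h))
  · exact h0

theorem zero_or_succ (n : N M) : n = 0 ∨ ∃ m, n = m + 1 :=
  ind (P := fun n => n = 0 ∨ ∃ m, n = m + 1) (by fun_prop) (Or.inl rfl)
    (fun n _ => Or.inr ⟨n, rfl⟩) n

/-- least element of a definable set -/
theorem exists_least {P : N M → Prop} (hP : DfF M P) (h : ∃ n, P n) :
    ∃ n, P n ∧ ∀ m < n, ¬ P m := by
  by_contra hc
  push Not at hc
  obtain ⟨n, hn⟩ := h
  refine ind (P := fun n => ∀ m < n, ¬ P m) (by simp only [imp_iff, all_iff]; fun_prop)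
    (fun m hm => absurd hm (z_le m).not_gt) (fun k ih m hm hp => ?_) (n + 1) n n.lt_succ hn
  obtain ⟨j, h1, h2⟩ := hc m hp
  exact ih j (h1.trans_le (lt_succ_iff.1 hm)) h2

/-- a bound that works for all indices below `k` -/
theorem exists_bound {P : N M → N M → Prop} (hP : DfF M fun p : N M × N M => P p.1 p.2)
    (hm : ∀ i a b, a ≤ b → P i a → P i b) (k : N M) :
    (∀ i < k, ∃ b, P i b) → ∃ b, ∀ i < k, P i b := by
  refine ind (P := fun k => (∀ i < k, ∃ b, P i b) → ∃ b, ∀ i < k, P i b)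
    (by simp only [imp_iff, all_iff]; fun_prop)
    (fun _ => ⟨0, fun i hi => absurd hi (z_le i).not_gt⟩) (fun k ih h => ?_) k
  obtain ⟨b, hb⟩ := ih fun i hi => h i (hi.trans k.lt_succ)
  obtain ⟨c, hc⟩ := h k k.lt_succ
  refine ⟨max b c, fun i hi => ?_⟩
  rcases (lt_succ_iff.1 hi).lt_or_eq with h | rfl
  · exact hm _ _ _ (le_max_left _ _) (hb i h)
  · exact hm _ _ _ (le_max_right _ _) hc

end N

@[fun_prop]
theorem DfF.add {f g : X → N M} (hf : DfF M f) (hg : DfF M g) : DfF M (fun x => f x + g x) :=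
  N.df_add hf hg

example (a b c : N M) (h : a < b + 1) (h' : b < c) : a + 1 ≤ max c a := by
  simp only [Order.lt_add_one_iff, Order.add_one_le_iff] at *
  order

end Pool.Agent.MP_057cde_lc.TZ
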