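import Mathlib.Tactic.Abel
import Mathlib.Tactic.Monotonicity.Lemmas
import Pool.Agent.MP_057cde_lc.zf.Nat

/-! Dependent and countable choice, pairing, parity, codes of finite sequences, countable sets. -/

namespace Pool.Agent.MP_057cde_lc.TZ

open Function
open scoped Classical

variable {M : Type} [Mdl M]
variable {X Y Z : Type} [Srt M X] [Srt M Y] [Srt M Z]

theorem dc0 [Sm M X] {Q : X → Prop} {R : X → X → Prop} (hQ : DfF M Q)
    (hR : DfF M fun p : X × X => R p.1 p.2) (h0 : ∃ x, Q x) (h : ∀ x, Q x → ∃ y, Q y ∧ R x y) :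
    ∃ f : Fn M (N M) X, ∀ n, Q (f n) ∧ R (f n) (f (n + 1)) := by
  have e1 : ∀ x, E (cd M x) (cd M (PS.of M Q)) ↔ Q x := fun x => cd_mem_cd_ps.trans (PS.mem_of hQ)
  have e2 : ∀ x y, App E (cd M (PS.of M fun p : X × X => R p.1 p.2)) (cd M x) (cd M y) ↔ R x y :=
    fun x y => app_iff.trans ((cd_mem_cd_ps (x := (x, y))).trans (PS.mem_of hR))
  obtain ⟨f, h1, h2⟩ := Mdl.dc (cd M (PS.of M Q)) (cd M (PS.of M fun p : X × X => R p.1 p.2))
    (h0.elim fun x hx => ⟨_, (e1 x).2 hx⟩) fun a ha => by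
      obtain ⟨x, hx, rfl⟩ := mem_cd_ps.1 ha
      obtain ⟨y, a1, a2⟩ := h x ((PS.mem_of hQ).1 hx)
      exact ⟨_, (e1 y).2 a1, (e2 x y).2 a2⟩
  obtain ⟨F, rfl⟩ := exists_fn (X := N M) (Y := X) (f := f) ⟨fun p hp => by
    obtain ⟨a, b, a1, a2, a3⟩ := h1.1 p hp
    obtain ⟨x, -, rfl⟩ := mem_cd_ps.1 a2
    exact ⟨a, _, un_N (M := M) ▸ a1, mem_un.2 ⟨x, rfl⟩, a3⟩, un_N (M := M) ▸ h1.2⟩
  refine ⟨F, fun n => ⟨?_, (e2 _ _).1 (h2 _ _ _ _ (N.suc_iff.2 rfl) (app_cd_fn.2 ⟨n, rfl, rfl⟩)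
    (app_cd_fn.2 ⟨n + 1, rfl, rfl⟩))⟩⟩
  obtain ⟨a, b, -, a2, a3⟩ := h1.1 _ (mem_cd_fn.2 ⟨n, rfl⟩)
  exact (e1 _).1 ((pr_inj.1 (pr_iff.1 a3)).2 ▸ a2)

/-- dependent choice -/
theorem dc [Sm M Y] {Q : N M → Y → Prop} {R : N M → Y → Y → Prop}
    (hQ : DfF M fun p : N M × Y => Q p.1 p.2)
    (hR : DfF M fun p : N M × Y × Y => R p.1 p.2.1 p.2.2)
    (h : ∀ n y, Q n y → ∃ y', Q (n + 1) y' ∧ R n y y') {y₀ : Y} (h0 : Q 0 y₀) :
    ∃ f : Fn M (N M) Y, f 0 = y₀ ∧ ∀ n, Q n (f n) ∧ R n (f n) (f (n + 1)) := by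
  obtain ⟨g, hg⟩ := dc0 (M := M) (X := N M × Fn M (N M) Y)
    (Q := fun p => p.2 0 = y₀ ∧ Q p.1 (p.2 p.1) ∧
      ∀ i < p.1, Q i (p.2 i) ∧ R i (p.2 i) (p.2 (i + 1)))
    (R := fun p q => q.1 = p.1 + 1 ∧ ∀ i ≤ p.1, q.2 i = p.2 i)
    (by simp only [imp_iff, all_iff]; fun_prop) (by simp only [imp_iff, all_iff]; fun_prop)
    ⟨(0, ⟨fun _ => y₀, by fun_prop⟩), rfl, h0, fun i hi => absurd hi zero_le.not_gt⟩ (by
      rintro ⟨n, F⟩ ⟨a1, a2, a3⟩
      obtain ⟨y', b1, b2⟩ := h n _ a2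
      have := F.df
      have e : ¬ n + 1 ≤ n := n.lt_succ.not_ge
      refine ⟨(n + 1, ⟨fun j => if j ≤ n then F j else y', by fun_prop⟩),
        ⟨by simpa using a1, by simpa [e] using b1, fun i hi => ?_⟩, rfl, fun i hi => if_pos hi⟩
      have hi' := N.lt_succ_iff.1 hi
      rcases hi'.lt_or_eq with k | rfl
      · simpa [hi', N.succ_le_iff.2 k] using a3 i k
      · simpa [e] using ⟨a2, b2⟩)
  have := g.df
  have h1 : ∀ k, k ≤ (g k).1 := N.ind (by fun_prop) zero_le fun k ih => by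
    rw [(hg k).2.1]; exact add_le_add_left ih 1
  have h2 : ∀ n, (g (n + 1)).2 n = (g n).2 n := fun n => (hg n).2.2 n (h1 n)
  refine ⟨⟨fun i => (g i).2 i, by fun_prop⟩, (hg 0).1.1, fun n => ?_⟩
  have := (hg (n + 1)).1.2.2 n (n.lt_succ.trans_le (h1 _))
  rwa [h2] at this

/-- countable choice -/
theorem cc [Sm M Y] {R : N M → Y → Prop} (hR : DfF M fun p : N M × Y => R p.1 p.2)
    (h : ∀ n, ∃ y, R n y) : ∃ f : Fn M (N M) Y, ∀ n, R n (f n) := by
  obtain ⟨y₀, h0⟩ := h 0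
  obtain ⟨f, -, hf⟩ := dc (R := fun _ _ _ => True) hR (by fun_prop)
    (fun n _ _ => (h (n + 1)).imp fun _ a => ⟨a, trivial⟩) h0
  exact ⟨f, fun n => (hf n).1⟩

/-- a definable transitive relation that holds between successive terms holds along the sequence -/
theorem chain {f : N M → Y} (hf : DfF M f) {R : Y → Y → Prop}
    (hR : DfF M fun p : Y × Y => R p.1 p.2) (hr : ∀ y, R y y)
    (ht : ∀ a b c, R a b → R b c → R a c) (h : ∀ n, R (f n) (f (n + 1))) (m n : N M) :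
    m ≤ n → R (f m) (f n) :=
  N.le_ind (P := fun n => R (f m) (f n)) (by fun_prop) (hr _) (fun n _ ih => ht _ _ _ ih (h n)) n

namespace N

/-- the least element of a set of numbers, or zero -/
noncomputable def least (P : N M → Prop) : N M :=
  if h : ∃ n, P n ∧ ∀ m < n, ¬ P m then h.choose else 0

theorem least_spec {P : N M → Prop} (hP : DfF M P) (h : ∃ n, P n) :
    P (least P) ∧ ∀ m < least P, ¬ P m := by
  rw [least, dif_pos (exists_least hP h)]
  exact (exists_least hP h).choose_spec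

theorem least_eq {P : N M → Prop} (hP : DfF M P) {n : N M} :
    least P = n ↔ (P n ∧ ∀ m < n, ¬ P m) ∨ ((¬ ∃ m, P m) ∧ n = 0) := by
  by_cases h : ∃ m, P m
  · obtain ⟨h1, h2⟩ := least_spec hP h
    simp only [h, not_true, false_and, or_false]
    exact ⟨fun e => e ▸ ⟨h1, h2⟩, fun ⟨a, b⟩ =>
      le_antisymm (not_lt.1 fun c => h2 n c a) (not_lt.1 fun c => b _ c h1)⟩
  · rw [least, dif_neg fun ⟨n, a, _⟩ => h ⟨n, a⟩]
    exact ⟨fun e => Or.inr ⟨h, e.symm⟩, fun a => a.elim (fun b => (h ⟨n, b.1⟩).elim)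
      fun b => b.2.symm⟩

/-- triangular numbers -/
noncomputable def tri (s : N M) : N M := rc 0 (fun j t => t + (j + 1)) s

theorem tri_succ (s : N M) : tri (s + 1) = tri s + (s + 1) := rc_succ (by fun_prop) s

theorem df_tri : DfF M (tri : N M → N M) := by unfold tri; fun_prop

theorem tri_mono {a b : N M} (h : a ≤ b) : tri a ≤ tri b :=
  chain df_tri (R := (· ≤ ·)) (by fun_prop) le_refl (fun _ _ _ => le_trans)
    (fun n => by rw [tri_succ]; exact le_self_add) a b h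

theorem le_tri (s : N M) : s ≤ tri s := by
  rcases s.zero_or_succ with rfl | ⟨m, rfl⟩
  · exact zero_le
  · rw [tri_succ]; exact le_add_self

/-- pairing -/
noncomputable def pair (i j : N M) : N M := tri (i + j) + i

theorem pair_lt {i j k l : N M} (h : i + j < k + l) : pair i j < pair k l := by
  have h1 := tri_mono (succ_le_iff.2 h)
  rw [tri_succ] at h1
  have h2 := lt_succ (i + j)
  have h3 : i ≤ i + j := le_self_add
  have h4 : 0 ≤ k := zero_le
  unfold pair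
  grind

theorem pair_inj {i j k l : N M} : pair i j = pair k l ↔ i = k ∧ j = l := by
  refine ⟨fun h => ?_, fun h => by rw [h.1, h.2]⟩
  have h1 : i + j = k + l :=
    le_antisymm (not_lt.1 fun c => (pair_lt c).ne' h) (not_lt.1 fun c => (pair_lt c).ne h)
  unfold pair at h
  rw [h1] at h
  obtain rfl := add_left_cancel h
  exact ⟨rfl, add_left_cancel h1⟩

theorem left_le_pair (i j : N M) : i ≤ pair i j := le_add_self

theorem right_le_pair (i j : N M) : j ≤ pair i j :=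
  le_add_self.trans ((le_tri _).trans le_self_add)

theorem pair_mono {i j k l : N M} (h : i ≤ k) (h' : j ≤ l) : pair i j ≤ pair k l :=
  add_le_add (tri_mono (add_le_add h h')) h

/-- inverse of the pairing -/
noncomputable def unpair (m : N M) : N M × N M :=
  if h : ∃ p : N M × N M, pair p.1 p.2 = m then h.choose else (0, 0)

@[simp] theorem unpair_pair (i j : N M) : unpair (pair i j) = (i, j) := by
  have h : ∃ p : N M × N M, pair p.1 p.2 = pair i j := ⟨(i, j), rfl⟩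
  rw [unpair, dif_pos h]
  exact Prod.ext (pair_inj.1 h.choose_spec).1 (pair_inj.1 h.choose_spec).2

theorem unpair_le (m : N M) : (unpair m).1 ≤ m ∧ (unpair m).2 ≤ m := by
  by_cases h : ∃ p : N M × N M, pair p.1 p.2 = m
  · obtain ⟨p, rfl⟩ := h
    rw [unpair_pair]
    exact ⟨left_le_pair _ _, right_le_pair _ _⟩
  · rw [unpair, dif_neg h]
    exact ⟨zero_le, zero_le⟩

theorem even_or_odd (m : N M) : ∃ k, m = k + k ∨ m = k + k + 1 := by
  refine ind (P := fun m => ∃ k, m = k + k ∨ m = k + k + 1) (by fun_prop) ⟨0, Or.inl (by simp)⟩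
    ?_ m
  rintro m ⟨k, rfl | rfl⟩
  · exact ⟨k, Or.inr rfl⟩
  · exact ⟨k + 1, Or.inl (by abel)⟩

theorem even_inj {k l : N M} (h : k + k = l + l) : k = l := by grind

theorem even_ne_odd (k l : N M) : k + k ≠ l + l + 1 := by
  intro h
  rcases le_or_gt k l with h' | h'
  · have := lt_succ (l + l)
    grind
  · have := succ_le_iff.2 h'
    have := lt_succ (l + l + 1)
    grind

/-- code of the first `k` values of a sequence -/
noncomputable def cseq (F : N M → N M) (k : N M) : N M := rc 0 (fun j c => pair c (F j) + 1) k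

end N

@[fun_prop]
theorem DfF.least {P : X → N M → Prop} (h : DfF M fun p : X × N M => P p.1 p.2) :
    DfF M (fun x => N.least fun n => P x n) :=
  DfF.of_rel (P := fun x n => (P x n ∧ ∀ m < n, ¬ P x m) ∨ ((¬ ∃ m, P x m) ∧ n = 0))
    (by simp only [imp_iff, all_iff]; fun_prop) fun x n => N.least_eq (by fun_prop)

@[fun_prop]
theorem DfF.pair {f g : X → N M} (hf : DfF M f) (hg : DfF M g) :
    DfF M (fun x => N.pair (f x) (g x)) := by
  have := N.df_tri (M := M)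
  unfold N.pair; fun_prop

@[fun_prop]
theorem DfF.unpair {f : X → N M} (hf : DfF M f) : DfF M (fun x => N.unpair (f x)) := by
  refine DfF.comp (DfF.of_rel (P := fun m p => N.pair p.1 p.2 = m ∨
    ((¬ ∃ q : N M × N M, N.pair q.1 q.2 = m) ∧ p = (0, 0))) (by fun_prop) fun m p => ?_) hf
  by_cases h : ∃ q : N M × N M, N.pair q.1 q.2 = m
  · obtain ⟨q, rfl⟩ := h
    simp [N.pair_inj, Prod.ext_iff, eq_comm]
  · rw [N.unpair, dif_neg h]
    exact ⟨fun e => Or.inr ⟨h, e.symm⟩, fun a => a.elim (fun b => (h ⟨p, b⟩).elim)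
      fun b => b.2.symm⟩

@[fun_prop]
theorem DfF.cseq {F : X → N M → N M} {k : X → N M} (hF : DfF M fun p : X × N M => F p.1 p.2)
    (hk : DfF M k) : DfF M (fun x => N.cseq (fun j => F x j) (k x)) := by
  unfold N.cseq; fun_prop

namespace N

theorem cseq_zero (F : N M → N M) : cseq F 0 = 0 := rc_zero

theorem cseq_succ {F : N M → N M} (hF : DfF M F) (k : N M) :
    cseq F (k + 1) = pair (cseq F k) (F k) + 1 := rc_succ (by fun_prop) k

theorem cseq_eq {F G : N M → N M} (hF : DfF M F) (hG : DfF M G) (k l : N M) :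
    cseq F k = cseq G l ↔ k = l ∧ ∀ i < k, F i = G i := by
  refine ind (P := fun k => ∀ l, cseq F k = cseq G l ↔ k = l ∧ ∀ i < k, F i = G i)
    (by simp only [imp_iff, all_iff]; fun_prop) (fun l => ?_) (fun k ih l => ?_) k l
  · rcases l.zero_or_succ with rfl | ⟨l, rfl⟩
    · simp [cseq_zero]
    · simp [cseq_zero, cseq_succ hG, (succ_ne_zero _).symm]
  · rcases l.zero_or_succ with rfl | ⟨l, rfl⟩
    · simp only [cseq_zero, cseq_succ hF, succ_ne_zero, false_and]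
    · rw [cseq_succ hF, cseq_succ hG, add_left_inj, add_left_inj, pair_inj, ih, and_assoc]
      refine and_congr_right fun e => e ▸ ⟨fun a i hi => ?_,
        fun a => ⟨fun i hi => a i (hi.trans k.lt_succ), a k k.lt_succ⟩⟩
      rcases (lt_succ_iff.1 hi).lt_or_eq with h | rfl
      · exact a.1 i h
      · exact a.2

end N

/-! Countable sets -/

/-- Countable in the sense of `M`. -/
def Ctb (M : Type) [Mdl M] {X : Type} [Srt M X] (P : X → Prop) : Prop :=
  ∃ e : Fn M (N M) X, ∀ x, P x → ∃ n, e n = x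

@[fun_prop]
theorem DfF.ctb [Sm M Y] {P : X → Y → Prop} (h : DfF M (fun p : X × Y => P p.1 p.2)) :
    DfF M (fun x => Ctb M fun y => P x y) := by
  simp only [Ctb, imp_iff, all_iff]; fun_prop

theorem Ctb.mono {P Q : X → Prop} (h : Ctb M Q) (e : ∀ x, P x → Q x) : Ctb M P :=
  h.imp fun _ hc x hx => hc x (e x hx)

theorem Ctb.single (a : X) : Ctb M fun x => x = a :=
  ⟨⟨fun _ => a, by fun_prop⟩, fun _ h => ⟨0, h.symm⟩⟩

theorem Ctb.image {S : Y → Prop} (hS : Ctb M S) {f : Y → X} (df : DfF M f) :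
    Ctb M (fun x => ∃ y, S y ∧ f y = x) := by
  obtain ⟨e, he⟩ := hS
  have := e.df
  refine ⟨⟨fun n => f (e n), by fun_prop⟩, ?_⟩
  rintro _ ⟨y, hy, rfl⟩
  obtain ⟨n, rfl⟩ := he y hy
  exact ⟨n, rfl⟩

theorem Ctb.prod {A : X → Prop} {B : Y → Prop} (hA : Ctb M A) (hB : Ctb M B) :
    Ctb M (fun p : X × Y => A p.1 ∧ B p.2) := by
  obtain ⟨c, hc⟩ := hA
  obtain ⟨d, hd⟩ := hB
  have := c.df
  have := d.df
  refine ⟨⟨fun n => (c (N.unpair n).1, d (N.unpair n).2), by fun_prop⟩, fun p hp => ?_⟩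
  obtain ⟨i, hi⟩ := hc _ hp.1
  obtain ⟨j, hj⟩ := hd _ hp.2
  exact ⟨N.pair i j, by simp [hi, hj]⟩

theorem Ctb.union {A B : X → Prop} (hA : Ctb M A) (hB : Ctb M B) : Ctb M fun x => A x ∨ B x := by
  obtain ⟨c, hc⟩ := hA
  obtain ⟨d, hd⟩ := hB
  have := c.df
  have := d.df
  refine ⟨⟨fun n => if (N.unpair n).1 = 0 then c (N.unpair n).2 else d (N.unpair n).2,
    by fun_prop⟩, ?_⟩
  rintro x (h | h)
  · obtain ⟨i, rfl⟩ := hc x h
    exact ⟨N.pair 0 i, by simp⟩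
  · obtain ⟨i, rfl⟩ := hd x h
    exact ⟨N.pair (0 + 1) i, by simp only [N.unpair_pair, N.succ_ne_zero, if_false]⟩

theorem Ctb.iUnion [Sm M X] {A : N M → X → Prop} (dA : DfF M (fun p : N M × X => A p.1 p.2))
    (hA : ∀ n, Ctb M (A n)) : Ctb M (fun x => ∃ n, A n x) := by
  obtain ⟨g, hg⟩ := cc (M := M) (R := fun n (e : Fn M (N M) X) => ∀ x, A n x → ∃ m, e m = x)
    (by simp only [imp_iff, all_iff]; fun_prop) hA
  have := g.df
  refine ⟨⟨fun n => g (N.unpair n).1 (N.unpair n).2, by fun_prop⟩, ?_⟩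
  rintro x ⟨n, hn⟩
  obtain ⟨m, rfl⟩ := hg n x hn
  exact ⟨N.pair n m, by simp⟩

/-- countable sorts -/
class Cnt (M : Type) [Mdl M] (X : Type) [Srt M X] : Prop where
  out : Ctb M fun _ : X => True

instance : Cnt M (N M) := ⟨⟨fun n => n, DfF.id⟩, fun n _ => ⟨n, rfl⟩⟩

instance : Cnt M Bool :=
  ⟨((Ctb.single true).union (Ctb.single false)).mono fun b _ => by cases b <;> simp⟩

instance [Cnt M X] [Cnt M Y] : Cnt M (X × Y) :=
  ⟨(Cnt.out.prod Cnt.out).mono fun _ _ => ⟨trivial, trivial⟩⟩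

theorem Ctb.of_cnt [Cnt M X] (P : X → Prop) : Ctb M P := Cnt.out.mono fun _ _ => trivial

theorem exists_enum (X : Type) [Srt M X] [Cnt M X] : ∃ e : N M → X, DfF M e ∧ Surjective e :=
  let ⟨e, he⟩ := Cnt.out (M := M) (X := X)
  ⟨e, e.df, fun x => he x trivial⟩

/-- closure of a countable set under a binary operation with countably many values -/
theorem exists_closure [Sm M X] {A : X → Prop} (dA : DfF M A) (hA : Ctb M A)
    {T : Type} [Srt M T] [Cnt M T] {f : T → X → X → X}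
    (df : DfF M fun p : T × X × X => f p.1 p.2.1 p.2.2) :
    ∃ C : PS M X, Ctb M (fun x => x ∈ C) ∧ (∀ x, A x → x ∈ C) ∧
      ∀ t, ∀ a ∈ C, ∀ b ∈ C, f t a b ∈ C := by
  let S : PS M X → PS M X := fun B => PS.of M fun x => x ∈ B ∨ ∃ p : T × X × X,
    (p.2.1 ∈ B ∧ p.2.2 ∈ B) ∧ f p.1 p.2.1 p.2.2 = x
  have dS : DfF M S := by fun_prop
  have hS : ∀ B x, x ∈ S B ↔ x ∈ B ∨ ∃ p : T × X × X,
    (p.2.1 ∈ B ∧ p.2.2 ∈ B) ∧ f p.1 p.2.1 p.2.2 = x := fun B x => PS.mem_of (by fun_prop)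
  let B : N M → PS M X := fun n => N.rc (PS.of M A) (fun _ B => S B) n
  have dB : DfF M B := by fun_prop
  have hB : ∀ n, B (n + 1) = S (B n) := N.rc_succ (by fun_prop)
  have h0 : ∀ x, x ∈ B 0 ↔ A x := fun x => by
    rw [show B 0 = PS.of M A from N.rc_zero, PS.mem_of dA]
  have hc : ∀ n, Ctb M fun x => x ∈ B n := N.ind (by fun_prop) (hA.mono fun x => (h0 x).1)
    fun n ih => (ih.union (((Ctb.of_cnt (fun _ : T => True)).prod (ih.prod ih)).image df)).mono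
      fun x hx => ((hS _ x).1 (hB n ▸ hx)).imp_right fun ⟨p, a, b⟩ => ⟨p, ⟨trivial, a⟩, b⟩
  have hm := chain dB (R := fun a b => ∀ x, x ∈ a → x ∈ b)
    (by simp only [imp_iff, all_iff]; fun_prop) (fun _ _ h => h)
    (fun _ _ _ a b x h => b x (a x h)) fun n x hx => by rw [hB, hS]; exact Or.inl hx
  have hU : ∀ x, x ∈ PS.of M (fun x => ∃ n, x ∈ B n) ↔ ∃ n, x ∈ B n :=
    fun x => PS.mem_of (by fun_prop)
  refine ⟨_, (Ctb.iUnion (by fun_prop) hc).mono fun x => (hU x).1,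
    fun x hx => (hU x).2 ⟨0, (h0 x).2 hx⟩, fun t a ha b hb => ?_⟩
  obtain ⟨m, h1⟩ := (hU a).1 ha
  obtain ⟨n, h2⟩ := (hU b).1 hb
  refine (hU _).2 ⟨max m n + 1, ?_⟩
  rw [hB, hS]
  exact Or.inr ⟨(t, a, b), ⟨hm _ _ (le_max_left _ _) a h1, hm _ _ (le_max_right _ _) b h2⟩, rfl⟩

end Pool.Agent.MP_057cde_lc.TZ
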